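import Pool.Agent.H756.RV.Symb

set_option autoImplicit false

/-!
# The odd writhe and the normalised bracket

`G : GaussWord N` is an arbitrary Gauss word (virtual knot diagrams), `w` are the signs.

THEOREM. For `f = fPoly G w = ∑ a_k A ^ k`:  `∑_{4 ∤ k} k a_k = 2 J`, where `J` is the odd writhe, the sum of
the signs of the crossings whose chord crosses an odd number of chords.  (Checked by computer.)

Paper proof.  Library: `Pool.Agent.H239.CS` (`H239/CS/Factor.lean`, `H239/CS/Nullity.lean`, imported by
`Pool.Agent.H756.RV.Symb`, which is a model for the proof): `fPoly_eq`: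
`fPoly G w = ∑ s, (∏ c, fac (w c) (s c)) * (-T 2 - T (-2)) ^ nu G univ s`, `fac b σ = -T (sgn b * sgn σ - 3 * sgn b)`,
and `card_K`: `2 ^ nu G R s = Nat.card (K G R s)`, where `K G univ s` is the set of the vectors
`z : Fin N → ZMod 2` with `eqn G s z c = 0` for all `c`, `eqn G s z c = ∑_{i crosses c} z i + (if s c then 0 else z c)`.
`RV/Symb.lean`: `fac_sub : fac true σ - fac false σ = (T 2 - T (-2)) * q σ`, `q true = 1`, `q false = T 2 + T (-2)`.

(1) For `F = ∑ a_k T ^ k` let `χ F = ∑ a_k I ^ k ∈ ℂ` (a ring homomorphism) and `D F = ∑ k a_k I ^ k`; then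
`D (F H) = D F * χ H + χ F * D H` (check on monomials).  Let also `E F = ∑ a_k`, `M F = ∑ k a_k` (`moment 0`,
`moment 1`).
(2) `χ (fac b σ) = 1` if `σ` is true and `-1` if `σ` is false, for both `b`; `χ (-T 2 - T (-2)) = 2`.
(3) Crossing change at `c`: `fPoly G (update w c true) - fPoly G (update w c false) = (T 2 - T (-2)) * R`,
`R = ∑ s, q (s c) * (∏_{c' ≠ c} fac (w c') (s c')) * (-T 2 - T (-2)) ^ nu G univ s`.
`χ (T 2 - T (-2)) = 0`, `D (T 2 - T (-2)) = -4`, so `D` of the difference is `-4 * χ R`, and
`χ R = ∑ s, (if s c then 1 else -2) * (∏_{c' ≠ c} (if s c' then 1 else -1)) * #{z | ∀ e, eqn G s z e = 0}`.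
Exchange the sums over `s` and `z`: for fixed `z` the sum over `s` is a product over the crossings `e` of
`∑_{σ} weight_e σ * [x_e + (if σ then 0 else z e) = 0]`, `x_e = ∑_{i crosses e} z i`.  For `e ≠ c` this is `0` if
`z e = 0` (the terms `1` and `-1` cancel), and for `z e = 1` it is `1` if `x_e = 0` and `-1` if `x_e = 1`.  So only
the two vectors `z` with `z e = 1` for all `e ≠ c` contribute.  Let `d e` be the number of chords crossing `e`;
`∑ d e` is even.
 * `z c = 1`: `x_e = d e`; the product over `e ≠ c` is `(-1) ^ (∑_{e ≠ c} d e) = (-1) ^ (d c)`; the factor of `c` is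
   `1` if `d c` is even and `-2` if `d c` is odd.  Contribution: `1` if `d c` is even, `2` if `d c` is odd.
 * `z c = 0`: `x_c = d c`, `x_e = d e - [e crosses c]`; the product over `e ≠ c` is
   `(-1) ^ (∑_{e ≠ c} d e - d c) = 1`; the factor of `c` is `1 - 2 = -1` if `d c` is even and `0` if `d c` is odd.
So `χ R = 0` if `d c` is even and `χ R = 2` if `d c` is odd: `D` of the difference is `-8` for odd crossings and `0`
for even ones.
(4) In the same way (or from the library: the first moment of `fPoly` vanishes, look for it in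
`H832R2/JR/Moment.lean` or `H239/CS/Moments.lean`) `M (fPoly G w) = 0`.
(5) All exponents of `fPoly G w` are even.  Therefore `tw F = ∑_{4 ∤ k} k a_k = (M F - Re (D F)) / 2` for `F = fPoly`
(`I ^ k = 1` for `4 ∣ k` and `-1` for `k ≡ 2 mod 4`).  So `tw (fPoly G (update w c true)) -
tw (fPoly G (update w c false))` is `4` for odd crossings and `0` for even ones.
(6) Mirror image: `fPoly G (fun c => !w c) = invert (fPoly G w)` (`fac (!b) σ = invert (fac b σ)`), so
`tw (fPoly G (fun c => !w c)) = - tw (fPoly G w)`.
(7) Changing all crossings one after the other, `tw (fPoly G w) - tw (fPoly G (!w)) = 4 J`, hence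
`2 tw (fPoly G w) = 4 J`.
-/

namespace Pool.Agent.H756.RW

open Finset LaurentPolynomial Function
open Pool.Agent.H832R2.JR (GaussWord fPoly Crosses sgn)

variable {N : ℕ}

open Classical in
/-- the number of the chords which cross the chord `c` -/
noncomputable def deg (G : GaussWord N) (c : Fin N) : ℕ := (univ.filter fun j => Crosses G c j).card

open Classical in
/-- the odd writhe (Kauffman): the sum of the signs of the crossings whose chord crosses an odd number
of chords -/
noncomputable def oddWrithe (G : GaussWord N) (w : Fin N → Bool) : ℤ :=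
  ∑ c, if Odd (deg G c) then sgn (w c) else 0

/-- `∑ k a_k` over the exponents `k` which are not divisible by `4` -/
noncomputable def tw (F : ℤ[T;T⁻¹]) : ℤ := F.coeff.sum fun k a => if (4 : ℤ) ∣ k then 0 else k * a

/-! ### The variable `T 2` -/

/-- the substitution `T ↦ T 2` -/
noncomputable def dbl : ℤ[T;T⁻¹] →+* ℤ[T;T⁻¹] :=
  LaurentPolynomial.eval₂ (LaurentPolynomial.C : ℤ →+* ℤ[T;T⁻¹])
    ⟨T 2, T (-2), by rw [← T_add]; norm_num, by rw [← T_add]; norm_num⟩

theorem dbl_T (k : ℤ) : dbl (T k) = T (2 * k) := by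
  unfold dbl
  rw [LaurentPolynomial.eval₂_T]
  have h1 : ∀ n : ℕ, ((⟨T 2, T (-2), by rw [← T_add]; norm_num, by rw [← T_add]; norm_num⟩ :
      (ℤ[T;T⁻¹])ˣ) ^ n : (ℤ[T;T⁻¹])ˣ).1 = T (2 * n) := by
    intro n
    rw [Units.val_pow_eq_pow_val, T_pow, mul_comm]
  have h2 : ∀ n : ℕ, (((⟨T 2, T (-2), by rw [← T_add]; norm_num, by rw [← T_add]; norm_num⟩ :
      (ℤ[T;T⁻¹])ˣ)⁻¹) ^ n : (ℤ[T;T⁻¹])ˣ).1 = T (2 * (-n)) := by
    intro n
    rw [Units.val_pow_eq_pow_val]
    change (T (-2) : ℤ[T;T⁻¹]) ^ n = _
    rw [T_pow]
    congr 1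
    ring
  rcases le_total 0 k with h | h
  · lift k to ℕ using h
    rw [zpow_natCast]
    exact h1 k
  · obtain ⟨m, rfl⟩ : ∃ m : ℕ, k = -m := ⟨(-k).toNat, by omega⟩
    rw [zpow_neg, zpow_natCast, ← inv_pow]
    exact h2 m

theorem dbl_C (a : ℤ) : dbl (C a) = C a := by
  unfold dbl
  rw [LaurentPolynomial.eval₂_C]

theorem dbl_CT (a k : ℤ) : dbl (C a * T k) = C a * T (2 * k) := by
  rw [map_mul, dbl_C, dbl_T]

theorem tw_single (a k : ℤ) : tw (C a * T k) = if (4 : ℤ) ∣ k then 0 else k * a := by
  unfold tw
  rw [← LaurentPolynomial.single_eq_C_mul_T]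
  show Finsupp.sum (Finsupp.single k a) _ = _
  rw [Finsupp.sum_single_index (by simp)]

theorem tw_add (F H : ℤ[T;T⁻¹]) : tw (F + H) = tw F + tw H := by
  unfold tw
  rw [AddMonoidAlgebra.coeff_add, Finsupp.sum_add_index']
  · intro k; simp
  · intro k a b
    split_ifs <;> ring

/-- `tw` after the substitution -/
noncomputable def tw2 : ℤ[T;T⁻¹] →+ ℤ :=
  AddMonoidHom.mk' (fun F => tw (dbl F)) fun F H => by
    rw [map_add, tw_add]

theorem tw2_apply (F : ℤ[T;T⁻¹]) : tw2 F = tw (dbl F) := rfl

theorem tw2_CT (a k : ℤ) : tw2 (C a * T k) = if Even k then 0 else 2 * k * a := by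
  rw [tw2_apply, dbl_CT, tw_single]
  by_cases h : Even k
  · obtain ⟨m, rfl⟩ := h
    rw [if_pos ⟨m, by ring⟩, if_pos ⟨m, rfl⟩]
  · rw [if_neg h, if_neg]
    rintro ⟨m, hm⟩
    exact h ⟨m, by omega⟩

/-- the value at `-1` -/
noncomputable def evm : ℤ[T;T⁻¹] →+* ℤ := LaurentPolynomial.eval₂ (RingHom.id ℤ) (-1)

theorem evm_T (k : ℤ) : evm (T k) = if Even k then 1 else -1 := by
  unfold evm
  rw [LaurentPolynomial.eval₂_T]
  by_cases h : Even k
  · rw [if_pos h, h.neg_one_zpow, Units.val_one]
  · rw [if_neg h]
    rw [Int.not_even_iff_odd] at h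
    rw [h.neg_one_zpow]
    rfl

theorem evm_CT (a k : ℤ) : evm (C a * T k) = if Even k then a else -a := by
  rw [map_mul, evm_T]
  have h : evm (C a) = a := by
    unfold evm
    simp
  rw [h]
  split_ifs <;> ring

open Pool.Agent.H756.RV (ev1 ev1_T) in
theorem ev1_CT (a k : ℤ) : ev1 (C a * T k) = a := by
  rw [map_mul, ev1_T]
  unfold ev1
  simp

open Pool.Agent.H756.RV (ev1 ev1_T) in
theorem ev1_dbl (F : ℤ[T;T⁻¹]) : ev1 (dbl F) = ev1 F := by
  induction F using LaurentPolynomial.induction_on' with
  | add p q hp hq => rw [map_add, map_add, hp, hq, map_add]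
  | C_mul_T n a => rw [dbl_CT, ev1_CT, ev1_CT]

open Pool.Agent.H756.RV (ev1 ev1_T) in
theorem tw2_X (F : ℤ[T;T⁻¹]) : tw2 ((T 1 - T (-1)) * F) = 2 * (ev1 F + evm F) := by
  induction F using LaurentPolynomial.induction_on' with
  | add p q hp hq => rw [mul_add, map_add, hp, hq, map_add, map_add]; ring
  | C_mul_T n a =>
    have e : (T 1 - T (-1) : ℤ[T;T⁻¹]) * (C a * T n) = C a * T (n + 1) - C a * T (n + -1) := by
      rw [T_add, T_add]; ring
    rw [e, map_sub, tw2_CT, tw2_CT, ev1_CT, evm_CT]
    by_cases h : Even n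
    · have h1 : ¬ Even (n + 1) := by
        rw [Int.even_add_one, not_not]; exact h
      have h2 : ¬ Even (n + -1) := by
        rw [← sub_eq_add_neg, Int.even_sub_one, not_not]; exact h
      rw [if_neg h1, if_neg h2, if_pos h]
      ring
    · have h1 : Even (n + 1) := by
        rw [Int.even_add_one]; exact h
      have h2 : Even (n + -1) := by
        rw [← sub_eq_add_neg, Int.even_sub_one]; exact h
      rw [if_pos h1, if_pos h2, if_neg h]
      ring

theorem tw2_invert (F : ℤ[T;T⁻¹]) : tw2 (invert F) = - tw2 F := by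
  induction F using LaurentPolynomial.induction_on' with
  | add p q hp hq => rw [map_add, map_add, hp, hq, map_add]; ring
  | C_mul_T n a =>
    have e : invert (C a * T n : ℤ[T;T⁻¹]) = C a * T (-n) := by
      rw [map_mul, invert_C, invert_T]
    rw [e, tw2_CT, tw2_CT]
    by_cases h : Even n
    · rw [if_pos h, if_pos h.neg]; rfl
    · have h1 : ¬ Even (-n) := by rwa [even_neg]
      rw [if_neg h, if_neg h1]
      ring

/-! ### The state sum in the variable `T 2` -/

open Pool.Agent.H239.CS (fac fPoly_eq nu K card_K eqn two_zero)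

/-- the factors -/
noncomputable def fac2 : Bool → Bool → ℤ[T;T⁻¹]
  | true, true => -T (-1)
  | true, false => -T (-2)
  | false, true => -T 1
  | false, false => -T 2

theorem dbl_fac2 (b σ : Bool) : dbl (fac2 b σ) = fac b σ := by
  cases b <;> cases σ <;>
    simp only [fac2, fac, sgn, map_neg, dbl_T, Bool.false_eq_true, if_false, if_true] <;>
    norm_num

/-- the state sum -/
noncomputable def f2 (G : GaussWord N) (w : Fin N → Bool) : ℤ[T;T⁻¹] :=
  ∑ s : Fin N → Bool, (∏ c, fac2 (w c) (s c)) * (-T 1 - T (-1)) ^ nu G univ s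

theorem dbl_delta : dbl (-T 1 - T (-1)) = -T 2 - T (-2) := by
  rw [map_sub, map_neg, dbl_T, dbl_T]
  norm_num

theorem dbl_f2 (G : GaussWord N) (w : Fin N → Bool) : dbl (f2 G w) = fPoly G w := by
  rw [fPoly_eq, f2, map_sum]
  refine sum_congr rfl fun s _ => ?_
  rw [map_mul, map_prod, map_pow, dbl_delta]
  congr 1
  exact prod_congr rfl fun c _ => dbl_fac2 _ _

/-- the quotient -/
noncomputable def q2 (σ : Bool) : ℤ[T;T⁻¹] := if σ then 1 else T 1 + T (-1)

theorem dbl_q2 (σ : Bool) : dbl (q2 σ) = Pool.Agent.H756.RV.q σ := by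
  unfold q2 Pool.Agent.H756.RV.q
  cases σ
  · simp only [Bool.false_eq_true, if_false]
    rw [map_add, dbl_T, dbl_T]
    norm_num
  · simp only [if_true]
    rw [map_one]

theorem fac2_sub (σ : Bool) : fac2 true σ - fac2 false σ = (T 1 - T (-1)) * q2 σ := by
  cases σ
  · simp only [fac2, q2, Bool.false_eq_true, if_false]
    have e : ((T 1 - T (-1)) * (T 1 + T (-1)) : ℤ[T;T⁻¹]) = T (1 + 1) - T (-1 + -1) := by
      rw [T_add, T_add]; ring
    rw [e]
    norm_num
    ring
  · simp only [fac2, q2, if_true, mul_one]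
    ring

/-- the difference for a crossing change, divided by `T 1 - T (-1)` -/
noncomputable def R2 (G : GaussWord N) (w : Fin N → Bool) (c : Fin N) : ℤ[T;T⁻¹] :=
  ∑ s : Fin N → Bool, (∏ e, (if e ∈ ({c} : Finset (Fin N)) then q2 (s e) else fac2 (w e) (s e))) *
    (-T 1 - T (-1)) ^ nu G univ s

theorem f2_sub (G : GaussWord N) (w : Fin N → Bool) (c : Fin N) :
    f2 G (update w c true) - f2 G (update w c false) = (T 1 - T (-1)) * R2 G w c := by
  classical
  unfold f2 R2
  rw [← sum_sub_distrib, mul_sum]
  refine sum_congr rfl fun s _ => ?_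
  rw [← sub_mul, ← mul_assoc]
  congr 1
  rw [← mul_prod_erase univ (fun e => fac2 (update w c true e) (s e)) (mem_univ c),
    ← mul_prod_erase univ (fun e => fac2 (update w c false e) (s e)) (mem_univ c),
    ← mul_prod_erase univ (fun e => (if e ∈ ({c} : Finset (Fin N)) then q2 (s e) else
      fac2 (w e) (s e))) (mem_univ c)]
  simp only [update_self, mem_singleton, if_true]
  have h : ∀ e ∈ univ.erase c, ∀ b : Bool, fac2 (update w c b e) (s e) = fac2 (w e) (s e) := by
    intro e he b
    rw [update_of_ne (ne_of_mem_erase he)]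
  have h' : ∀ e ∈ univ.erase c, (if e = c then q2 (s e) else fac2 (w e) (s e)) =
      fac2 (w e) (s e) := by
    intro e he
    rw [if_neg (ne_of_mem_erase he)]
  rw [prod_congr rfl (fun e he => h e he true), prod_congr rfl (fun e he => h e he false),
    prod_congr rfl h', ← sub_mul, fac2_sub, mul_assoc]

open Pool.Agent.H756.RV (ev1 ev1_T ev1_sum) in
theorem ev1_R2 (G : GaussWord N) (w : Fin N → Bool) (c : Fin N) : ev1 (R2 G w c) = 0 := by
  classical
  have h := ev1_sum G {c} (fun i hi j hj hij => by
    rw [mem_singleton] at hi hj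
    exact absurd (hi.trans hj.symm) hij) ⟨c, mem_singleton_self c⟩ w
  rw [card_singleton] at h
  have h1 : dbl (R2 G w c) = ∑ s : Fin N → Bool,
      (∏ e, (if e ∈ ({c} : Finset (Fin N)) then Pool.Agent.H756.RV.q (s e) else
        fac (w e) (s e))) * (-T 2 - T (-2)) ^ nu G univ s := by
    rw [R2, map_sum]
    refine sum_congr rfl fun s _ => ?_
    rw [map_mul, map_prod, map_pow, dbl_delta]
    congr 1
    refine prod_congr rfl fun e _ => ?_
    split_ifs
    · exact dbl_q2 _
    · exact dbl_fac2 _ _
  rw [← h1, ev1_dbl] at h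
  norm_num at h
  exact h

/-! ### The value at `-1` -/

/-- the sign of an element of `F_2` -/
def sz (x : ZMod 2) : ℤ := if x = 0 then 1 else -1

theorem sz_add (a b : ZMod 2) : sz (a + b) = sz a * sz b := by
  revert a b; decide

theorem sz_sum {ι : Type} (S : Finset ι) (f : ι → ZMod 2) : sz (∑ i ∈ S, f i) = ∏ i ∈ S, sz (f i) := by
  classical
  induction S using Finset.induction_on with
  | empty => simp [sz]
  | insert a S ha ih => rw [sum_insert ha, prod_insert ha, sz_add, ih]

/-- the weight of a smoothing -/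
def wgt (c e : Fin N) (σ : Bool) : ℤ :=
  if e = c then (if σ then 1 else -2) else (if σ then 1 else -1)

theorem evm_fac2 (b σ : Bool) : evm (fac2 b σ) = if σ then 1 else -1 := by
  cases b <;> cases σ <;> simp only [fac2, map_neg, evm_T] <;> norm_num

theorem evm_q2 (σ : Bool) : evm (q2 σ) = if σ then 1 else -2 := by
  cases σ
  · simp only [q2, Bool.false_eq_true, if_false, map_add, evm_T]
    norm_num
  · simp [q2]

open Classical in
/-- the sum of the `z i` over the crossings `i` whose chord crosses the one of `e` -/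
noncomputable def xs (G : GaussWord N) (z : Fin N → ZMod 2) (e : Fin N) : ZMod 2 :=
  ∑ i, (if Crosses G i e then z i else 0)

theorem two_pow_nu (G : GaussWord N) (s : Fin N → Bool) : (2 : ℤ) ^ nu G univ s =
    ∑ z : Fin N → ZMod 2, ∏ e, (if xs G z e + (if s e then 0 else z e) = 0 then 1 else 0) := by
  classical
  have h1 : ∀ z : Fin N → ZMod 2,
      (∏ e, (if xs G z e + (if s e then 0 else z e) = 0 then (1 : ℤ) else 0)) =
        if z ∈ K G univ s then 1 else 0 := by
    intro z
    have h2 : z ∈ K G univ s ↔ ∀ e, xs G z e + (if s e then 0 else z e) = 0 := by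
      constructor
      · rintro ⟨_, h⟩ e
        exact h e (mem_univ e)
      · intro h
        exact ⟨fun c hc => absurd (mem_univ c) hc, fun c _ => h c⟩
    by_cases h : z ∈ K G univ s
    · rw [if_pos h]
      exact prod_eq_one fun e _ => if_pos (h2.1 h e)
    · rw [if_neg h]
      rw [h2] at h
      push Not at h
      obtain ⟨e, he⟩ := h
      exact prod_eq_zero (mem_univ e) (if_neg he)
  rw [sum_congr rfl fun z _ => h1 z, sum_boole]
  have h3 := card_K G univ s
  have h4 : Nat.card (K G univ s) = (univ.filter fun z => z ∈ K G univ s).card := by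
    rw [Nat.card_eq_fintype_card]
    exact Fintype.card_subtype _
  rw [h4] at h3
  rw [h3]
  push_cast
  rfl

/-- the sum over the smoothings of one crossing -/
noncomputable def hh (G : GaussWord N) (c : Fin N) (z : Fin N → ZMod 2) (e : Fin N) : ℤ :=
  wgt c e true * (if xs G z e = 0 then 1 else 0) +
    wgt c e false * (if xs G z e + z e = 0 then 1 else 0)

theorem evm_R2_eq (G : GaussWord N) (w : Fin N → Bool) (c : Fin N) :
    evm (R2 G w c) = ∑ z : Fin N → ZMod 2, ∏ e, hh G c z e := by
  classical
  have h0 : evm (-T 1 - T (-1)) = 2 := by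
    rw [map_sub, map_neg, evm_T, evm_T]
    norm_num
  have h1 : evm (R2 G w c) = ∑ s : Fin N → Bool, ∑ z : Fin N → ZMod 2,
      ∏ e, (wgt c e (s e) * (if xs G z e + (if s e then 0 else z e) = 0 then 1 else 0)) := by
    rw [R2, map_sum]
    refine sum_congr rfl fun s _ => ?_
    rw [map_mul, map_prod, map_pow, h0, two_pow_nu, mul_sum]
    refine sum_congr rfl fun z _ => ?_
    rw [← prod_mul_distrib]
    refine prod_congr rfl fun e _ => ?_
    congr 1
    unfold wgt
    by_cases h : e = c
    · rw [if_pos h, if_pos (mem_singleton.2 h), evm_q2]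
    · rw [if_neg h, if_neg (fun h' => h (mem_singleton.1 h')), evm_fac2]
  rw [h1, sum_comm]
  refine sum_congr rfl fun z _ => ?_
  have h2 := Finset.prod_univ_sum (fun _ : Fin N => (univ : Finset Bool)) (fun e σ =>
    wgt c e σ * (if xs G z e + (if σ then 0 else z e) = 0 then (1 : ℤ) else 0))
  rw [Fintype.piFinset_univ] at h2
  rw [← h2]
  refine prod_congr rfl fun e _ => ?_
  rw [Fintype.sum_bool, hh]
  simp

theorem hh_ne (G : GaussWord N) {c e : Fin N} (h : e ≠ c) (z : Fin N → ZMod 2) :
    hh G c z e = if z e = 1 then sz (xs G z e) else 0 := by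
  unfold hh wgt
  rw [if_neg h, if_neg h]
  generalize xs G z e = x
  generalize z e = y
  revert x y
  decide

theorem hh_self (G : GaussWord N) (c : Fin N) (z : Fin N → ZMod 2) :
    hh G c z c = (if xs G z c = 0 then 1 else 0) + -2 * (if xs G z c + z c = 0 then 1 else 0) := by
  unfold hh wgt
  simp

/-- the degree modulo two -/
noncomputable def dl (G : GaussWord N) (e : Fin N) : ZMod 2 := xs G (fun _ => 1) e

theorem dl_eq (G : GaussWord N) (e : Fin N) : dl G e = (deg G e : ZMod 2) := by
  classical
  unfold dl xs deg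
  rw [Finset.sum_boole]
  congr 1
  refine congrArg Finset.card (Finset.filter_congr fun i _ => ?_)
  exact ⟨Pool.Agent.H832R2.JR.crosses_symm G _ _, Pool.Agent.H832R2.JR.crosses_symm G _ _⟩

theorem sum_dl (G : GaussWord N) : ∑ e, dl G e = 0 := by
  classical
  unfold dl xs
  rw [← Finset.sum_product']
  refine Finset.sum_involution (fun p _ => (p.2, p.1)) ?_ ?_ ?_ ?_
  · rintro ⟨a, b⟩ _
    simp only
    by_cases h : Crosses G b a
    · rw [if_pos h, if_pos (Pool.Agent.H832R2.JR.crosses_symm G _ _ h)]
      decide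
    · rw [if_neg h, if_neg (fun h' => h (Pool.Agent.H832R2.JR.crosses_symm G _ _ h'))]
      decide
  · rintro ⟨a, b⟩ _ h1 h2
    simp only [Prod.mk.injEq] at h2
    simp only at h1
    rw [h2.1, if_neg (Pool.Agent.H832R2.JR.not_crosses_self G a)] at h1
    exact h1 rfl
  · rintro ⟨a, b⟩ _
    exact mem_univ _
  · rintro ⟨a, b⟩ _
    rfl

theorem sum_dl_erase (G : GaussWord N) (c : Fin N) : ∑ e ∈ univ.erase c, dl G e = dl G c := by
  classical
  have h1 := sum_dl G
  rw [← Finset.add_sum_erase univ _ (mem_univ c)] at h1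
  have h2 : ∀ a b : ZMod 2, a + b = 0 → b = a := by decide
  exact h2 _ _ h1

theorem xs_update (G : GaussWord N) (c e : Fin N) :
    xs G (update (fun _ => 1) c 0) e = dl G e + (open Classical in
      if Crosses G c e then 1 else 0) := by
  classical
  unfold dl xs
  have h1 : ∀ i, (if Crosses G i e then (update (fun _ => (1 : ZMod 2)) c 0) i else 0) =
      (if Crosses G i e then 1 else 0) + (if i = c then (if Crosses G c e then 1 else 0) else 0) := by
    intro i
    by_cases hi : i = c
    · subst hi
      rw [update_self, if_pos rfl]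
      split_ifs <;> decide
    · rw [update_of_ne hi, if_neg hi, add_zero]
  rw [Finset.sum_congr rfl fun i _ => h1 i, Finset.sum_add_distrib, Finset.sum_ite_eq',
    if_pos (mem_univ c)]

theorem evm_R2 (G : GaussWord N) (w : Fin N → Bool) (c : Fin N) :
    evm (R2 G w c) = if Odd (deg G c) then 2 else 0 := by
  classical
  rw [evm_R2_eq]
  have hne : (fun _ => 1 : Fin N → ZMod 2) ≠ update (fun _ => 1) c 0 := by
    intro h
    have h1 := congrFun h c
    rw [update_self] at h1
    exact absurd h1 (by decide)
  rw [Fintype.sum_eq_add (fun _ => 1 : Fin N → ZMod 2) (update (fun _ => 1) c 0) hne]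
  · -- the two terms
    have hodd : Odd (deg G c) ↔ dl G c = 1 := by
      rw [dl_eq]
      exact (ZMod.natCast_eq_one_iff_odd).symm
    have e1 : ∏ e, hh G c (fun _ => 1) e = (if dl G c = 0 then 1 else -2) * sz (dl G c) := by
      rw [← mul_prod_erase univ _ (mem_univ c)]
      congr 1
      · rw [hh_self]
        change (if dl G c = 0 then (1 : ℤ) else 0) + -2 * (if dl G c + 1 = 0 then 1 else 0) = _
        generalize dl G c = x
        revert x
        decide
      · rw [← sum_dl_erase, sz_sum]
        refine prod_congr rfl fun e he => ?_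
        rw [hh_ne G (ne_of_mem_erase he), if_pos rfl]
        rfl
    have e2 : ∏ e, hh G c (update (fun _ => 1) c 0) e = if dl G c = 0 then -1 else 0 := by
      rw [← mul_prod_erase univ _ (mem_univ c)]
      have h3 : ∏ e ∈ univ.erase c, hh G c (update (fun _ => 1) c 0) e = 1 := by
        have h4 : ∀ e ∈ univ.erase c, hh G c (update (fun _ => 1) c 0) e =
            sz (dl G e + (if Crosses G c e then 1 else 0)) := by
          intro e he
          rw [hh_ne G (ne_of_mem_erase he), update_of_ne (ne_of_mem_erase he), if_pos rfl,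
            xs_update]
        rw [prod_congr rfl h4, ← sz_sum, Finset.sum_add_distrib, sum_dl_erase]
        have h5 : ∑ e ∈ univ.erase c, (if Crosses G c e then (1 : ZMod 2) else 0) = dl G c := by
          have h6 : dl G c = ∑ e, (if Crosses G c e then (1 : ZMod 2) else 0) := by
            unfold dl xs
            refine Finset.sum_congr rfl fun e _ => ?_
            by_cases h : Crosses G e c
            · rw [if_pos h, if_pos (Pool.Agent.H832R2.JR.crosses_symm G _ _ h)]
            · rw [if_neg h, if_neg (fun h' => h (Pool.Agent.H832R2.JR.crosses_symm G _ _ h'))]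
          rw [h6, ← Finset.add_sum_erase univ _ (mem_univ c),
            if_neg (Pool.Agent.H832R2.JR.not_crosses_self G c), zero_add]
        rw [h5, two_zero]
        rfl
      rw [h3, mul_one, hh_self, xs_update, update_self,
        if_neg (Pool.Agent.H832R2.JR.not_crosses_self G c)]
      generalize dl G c = x
      revert x
      decide
    rw [e1, e2]
    by_cases h : dl G c = 1
    · rw [if_pos (hodd.2 h), h]
      decide
    · rw [if_neg (fun h' => h (hodd.1 h'))]
      have h0 : dl G c = 0 := by
        revert h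
        generalize dl G c = x
        revert x
        decide
      rw [h0]
      decide
  · -- the other vectors
    rintro z ⟨h1, h2⟩
    by_contra h3
    have h4 : ∀ e, e ≠ c → z e = 1 := by
      intro e he
      by_contra h5
      apply h3
      refine prod_eq_zero (mem_univ e) ?_
      rw [hh_ne G he, if_neg h5]
    have h5 : z c = 0 ∨ z c = 1 := by
      generalize z c = x
      revert x
      decide
    rcases h5 with h5 | h5
    · apply h2
      funext e
      by_cases he : e = c
      · rw [he, update_self, h5]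
      · rw [update_of_ne he, h4 e he]
    · apply h1
      funext e
      by_cases he : e = c
      · rw [he, h5]
      · rw [h4 e he]

/-! ### The crossing changes -/

theorem tw2_dif (G : GaussWord N) (w : Fin N → Bool) (c : Fin N) :
    tw2 (f2 G (update w c true)) - tw2 (f2 G (update w c false)) =
      if Odd (deg G c) then 4 else 0 := by
  rw [← map_sub, f2_sub, tw2_X, ev1_R2, evm_R2]
  split_ifs <;> norm_num

theorem invert_fac2 (b σ : Bool) : invert (fac2 b σ) = fac2 (!b) σ := by
  cases b <;> cases σ <;> simp only [fac2, map_neg, invert_T, Bool.not_true, Bool.not_false] <;>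
    norm_num

theorem invert_f2 (G : GaussWord N) (w : Fin N → Bool) :
    invert (f2 G w) = f2 G (fun c => !w c) := by
  unfold f2
  rw [map_sum]
  refine sum_congr rfl fun s _ => ?_
  rw [map_mul, map_prod, map_pow]
  congr 1
  · exact prod_congr rfl fun c _ => invert_fac2 _ _
  · congr 1
    rw [map_sub, map_neg, invert_T, invert_T, neg_neg]
    ring

theorem chg (g : (Fin N → Bool) → ℤ) (δ : Fin N → ℤ)
    (h : ∀ w c, g (update w c true) - g (update w c false) = δ c) (w : Fin N → Bool) :
    g w = g (fun _ => false) + ∑ c, if w c then δ c else 0 := by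
  classical
  have key : ∀ S : Finset (Fin N), g (fun c => if c ∈ S then w c else false) =
      g (fun _ => false) + ∑ c ∈ S, if w c then δ c else 0 := by
    intro S
    induction S using Finset.induction_on with
    | empty => simp
    | insert a S ha ih =>
      rw [sum_insert ha]
      have e1 : (fun c => if c ∈ insert a S then w c else false) =
          update (fun c => if c ∈ S then w c else false) a (w a) := by
        funext c
        by_cases hc : c = a
        · subst hc
          rw [update_self, if_pos (mem_insert_self _ _)]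
        · rw [update_of_ne hc]
          simp [hc]
      have e2 : update (fun c => if c ∈ S then w c else false) a false =
          fun c => if c ∈ S then w c else false := by
        funext c
        by_cases hc : c = a
        · subst hc
          rw [update_self, if_neg ha]
        · rw [update_of_ne hc]
      rw [e1]
      cases hwa : w a
      · rw [e2, ih]
        simp
      · have h1 := h (fun c => if c ∈ S then w c else false) a
        rw [e2, ih] at h1
        rw [if_pos rfl]
        linarith
  have h1 := key univ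
  simpa using h1

theorem tw_fPoly (G : GaussWord N) (w : Fin N → Bool) : tw (fPoly G w) = 2 * oddWrithe G w := by
  have h1 := chg (fun w => tw2 (f2 G w)) (fun c => if Odd (deg G c) then 4 else 0) (tw2_dif G)
  have h2 := h1 w
  have h3 := h1 fun c => !w c
  change tw2 (f2 G fun c => !w c) = _ at h3
  change tw2 (f2 G w) = _ at h2
  rw [← invert_f2, tw2_invert] at h3
  have h4 : tw2 (f2 G w) = tw (fPoly G w) := by rw [tw2_apply, dbl_f2]
  rw [h4] at h2 h3
  have h5 : (∑ c, if w c = true then (if Odd (deg G c) then (4 : ℤ) else 0) else 0) -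
      (∑ c, if (!w c) = true then (if Odd (deg G c) then (4 : ℤ) else 0) else 0) =
        4 * oddWrithe G w := by
    rw [oddWrithe, ← sum_sub_distrib, mul_sum]
    refine sum_congr rfl fun c _ => ?_
    cases w c <;> by_cases h : Odd (deg G c) <;> simp [h, sgn]
  linarith

end Pool.Agent.H756.RW
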