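import Pool.Agent.H756.RW.DefsW
import Pool.Agent.H756.RP.GenAe
import Pool.Agent.H756.RP.Ev

set_option autoImplicit false

/-!
# The crossings are not on the lines of two other vertices

Paper proof.  (As the other statements of `RP/GenAe.lean`, which is the model: `null_of_sections`.)  Fix all
vertices except `u`; the crossing point `c = ept p i (par p i k)` depends on the vertices
`i, nx i, k, nx k` only, not on `u`.  If the projection of `p v` is different from the projection of `c` then
`orient (p u) (p v) c = 0` says that `p u` is on the vertical plane through `p v` and `c`, a null set by `Law.wall`.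
That the projections of `p v` and `c` are different almost surely follows in the same way: fix all vertices except
`v`; `(p v).1 = c.1` is a null set.
-/

namespace Pool.Agent.H756.RW

open MeasureTheory
open Pool.Agent.H756.RP

namespace GenC

open Pool.Agent.H756.RP.GenAe

variable {n : ℕ}

/-- the crossing point -/
noncomputable def cr (i k : Fin n) (ω : Fin n → Pt × Bool) : Pt :=
  ept (pg ω) i (par (pg ω) i k)

theorem cr_update {i k w : Fin n} (h : w ≠ i ∧ w ≠ nx i ∧ w ≠ k ∧ w ≠ nx k)
    (ω : Fin n → Pt × Bool) (y : Pt × Bool) : cr i k (Function.update ω w y) = cr i k ω := by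
  unfold cr ept par det
  rw [pg_update_ne ω y h.1.symm, pg_update_ne ω y h.2.1.symm, pg_update_ne ω y h.2.2.1.symm,
    pg_update_ne ω y h.2.2.2.symm]

theorem meas_cr (i k : Fin n) : Measurable (cr i k) := by
  unfold cr ept
  have h := meas_par i k
  have h1 : Measurable fun ω : Fin n → Pt × Bool => pg ω i := by fun_prop
  have h2 : Measurable fun ω : Fin n → Pt × Bool => pg ω (nx i) := by fun_prop
  exact ((measurable_const.sub h).smul h1).add (h.smul h2)

section parts

variable {κ : Measure (Pt × Bool)} {c₀ H : ℝ} (hκ : Law κ c₀ H)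
include hκ

theorem same_cr {i k v : Fin n} (hv : v ≠ i ∧ v ≠ nx i ∧ v ≠ k ∧ v ≠ nx k) :
    (Measure.pi fun _ : Fin n => κ) {ω | (pg ω v).1 = (cr i k ω).1} = 0 := by
  have := hκ.prob
  refine null_of_sections (measurableSet_eq_fun (meas_x v) (measurable_fst.comp (meas_cr i k)))
    v fun ω => ?_
  have h := hκ.wall 1 0 (cr i k ω).1 (by simp)
  refine measure_mono_null ?_ h
  intro y hy
  simp only [Set.mem_ofPred_eq] at hy ⊢
  rw [pg_update_same, cr_update hv] at hy
  rw [hy]
  ring

theorem line {i k u v : Fin n} (huv : u ≠ v) (hu : u ≠ i ∧ u ≠ nx i ∧ u ≠ k ∧ u ≠ nx k)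
    (hv : v ≠ i ∧ v ≠ nx i ∧ v ≠ k ∧ v ≠ nx k) :
    (Measure.pi fun _ : Fin n => κ) {ω | orient (pg ω u) (pg ω v) (cr i k ω) = 0} = 0 := by
  have := hκ.prob
  have hmc := meas_cr i k
  have hm : Measurable fun ω : Fin n → Pt × Bool => orient (pg ω u) (pg ω v) (cr i k ω) := by
    unfold orient
    have h1 : Measurable fun ω : Fin n → Pt × Bool => (cr i k ω).1 := measurable_fst.comp hmc
    have h2 : Measurable fun ω : Fin n → Pt × Bool => (cr i k ω).2.1 :=
      measurable_fst.comp (measurable_snd.comp hmc)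
    exact (((meas_x v).sub (meas_x u)).mul (h2.sub (meas_y u))).sub
      (((meas_y v).sub (meas_y u)).mul (h1.sub (meas_x u)))
  have h1 : (Measure.pi fun _ : Fin n => κ)
      ({ω | orient (pg ω u) (pg ω v) (cr i k ω) = 0} \ {ω | (pg ω v).1 = (cr i k ω).1}) = 0 := by
    refine null_of_sections ((hm (measurableSet_singleton 0)).diff
      (measurableSet_eq_fun (meas_x v) (measurable_fst.comp hmc))) u fun ω => ?_
    by_cases hx : (pg ω v).1 = (cr i k ω).1
    · have : {y | Function.update ω u y ∈
          ({ω | orient (pg ω u) (pg ω v) (cr i k ω) = 0} \ {ω | (pg ω v).1 = (cr i k ω).1})} = ∅ := by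
        rw [Set.eq_empty_iff_forall_notMem]
        intro y hy
        apply hy.2
        show (pg (Function.update ω u y) v).1 = (cr i k (Function.update ω u y)).1
        rw [pg_update_ne _ _ huv.symm, cr_update hu]
        exact hx
      rw [this, measure_empty]
    · have h := hκ.wall ((pg ω v).2.1 - (cr i k ω).2.1) ((cr i k ω).1 - (pg ω v).1)
        ((pg ω v).2.1 * (cr i k ω).1 - (pg ω v).1 * (cr i k ω).2.1)
        (by
          intro h
          have := congrArg Prod.snd h
          exact hx (sub_eq_zero.1 this).symm)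
      refine measure_mono_null ?_ h
      intro y hy
      have hy1 := hy.1
      simp only [Set.mem_ofPred_eq] at hy1 ⊢
      rw [pg_update_ne _ _ huv.symm, cr_update hu, pg_update_same] at hy1
      unfold orient at hy1
      linarith
  have h2 := same_cr hκ hv
  refine measure_mono_null ?_ (measure_union_null h1 h2)
  intro ω hω
  by_cases h : ω ∈ {ω : Fin n → Pt × Bool | (pg ω v).1 = (cr i k ω).1}
  · exact Or.inr h
  · exact Or.inl ⟨hω, h⟩

end parts

end GenC

theorem gen_c {κ : Measure (Pt × Bool)} {c₀ H : ℝ} (hκ : Law κ c₀ H) {n : ℕ} :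
    ∀ᵐ ω ∂(Measure.pi fun _ : Fin n => κ), ∀ i k u v : Fin n, u ≠ v →
      (u ≠ i ∧ u ≠ nx i ∧ u ≠ k ∧ u ≠ nx k) → (v ≠ i ∧ v ≠ nx i ∧ v ≠ k ∧ v ≠ nx k) →
      orient (pts ω u) (pts ω v) (ept (pts ω) i (par (pts ω) i k)) ≠ 0 := by
  rw [ae_all_iff]
  intro i
  rw [ae_all_iff]
  intro k
  rw [ae_all_iff]
  intro u
  rw [ae_all_iff]
  intro v
  by_cases h : u ≠ v ∧ (u ≠ i ∧ u ≠ nx i ∧ u ≠ k ∧ u ≠ nx k) ∧
      (v ≠ i ∧ v ≠ nx i ∧ v ≠ k ∧ v ≠ nx k)
  · filter_upwards [measure_eq_zero_iff_ae_notMem.1 (GenC.line hκ h.1 h.2.1 h.2.2)]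
      with ω hω _ _ _
    exact hω
  · exact Filter.Eventually.of_forall fun ω h1 h2 h3 => absurd ⟨h1, h2, h3⟩ h

end Pool.Agent.H756.RW
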