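import Pool.Agent.H756.RW.Mix3
import Pool.Agent.H756.RW.GenC
import Pool.Agent.H756.RK.CoreK

set_option autoImplicit false

/-!
The bound for the law of the odd writhe of a random chain.
-/

namespace Pool.Agent.H756.RW

open MeasureTheory Finset
open scoped ENNReal
open Pool.Agent.H756.RP (Pt nx ept det par Cr hgt gap Gen Dat dat shift Sharp act pts Av blk mem_blk
  nx_inj Av_box Av_lt gap_of_Av cnt cnt_eq pol Law Bv act_pres pi_prob)
open Pool.Agent.H756.RV (actv mem_actv nowr blk_lt blk_ne_of blk_odd blk_far prs qds pts_act' cut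
  gen_act wrap' few_pairs many_quads measurable_pts)

variable {n : ℕ}

/-- averaging over a finite family of measure preserving maps from another space -/
theorem avg' {Ω Ω' ι : Type} [Fintype ι] [Nonempty ι] [MeasurableSpace Ω] [MeasurableSpace Ω']
    (P : Measure Ω) (P' : Measure Ω') [IsProbabilityMeasure P'] (T : ι → Ω' → Ω)
    (hT : ∀ i, MeasurePreserving (T i) P' P) (E : Set Ω) (hE : MeasurableSet E) (Bad : Set Ω')
    (b : ℝ) (hb : 0 ≤ b) [∀ ω, DecidablePred fun i => T i ω ∈ E]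
    (hcnt : ∀ ω, ω ∉ Bad →
      ((univ.filter fun i => T i ω ∈ E).card : ℝ) ≤ b * Fintype.card ι) :
    P E ≤ P' Bad + ENNReal.ofReal b := by
  classical
  have h1 : ∀ i, P E = P' ((T i) ⁻¹' E) := fun i =>
    ((hT i).measure_preimage hE.nullMeasurableSet).symm
  have hmeas : ∀ i, MeasurableSet ((T i) ⁻¹' E) := fun i => (hT i).measurable hE
  set K : ℝ≥0∞ := (Fintype.card ι : ℝ≥0∞) with hK
  have hK0 : K ≠ 0 := by
    rw [hK]
    exact Nat.cast_ne_zero.2 Fintype.card_ne_zero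
  have hKt : K ≠ ∞ := ENNReal.natCast_ne_top _
  have h2 : K * P E = ∫⁻ ω, ∑ i, ((T i) ⁻¹' E).indicator 1 ω ∂P' := by
    rw [lintegral_finsetSum _ fun i _ => (measurable_one.indicator (hmeas i))]
    have : ∀ i ∈ (univ : Finset ι), ∫⁻ ω, ((T i) ⁻¹' E).indicator 1 ω ∂P' = P E := by
      intro i _
      rw [lintegral_indicator_one (hmeas i), ← h1 i]
    rw [sum_congr rfl this, sum_const, nsmul_eq_mul, card_univ]
  set B' := toMeasurable P' Bad with hB'
  have h3 : ∀ ω, ∑ i, ((T i) ⁻¹' E).indicator (1 : Ω' → ℝ≥0∞) ω ≤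
      B'.indicator (fun _ => K) ω + ENNReal.ofReal b * K := by
    intro ω
    have e1 : ∑ i, ((T i) ⁻¹' E).indicator (1 : Ω' → ℝ≥0∞) ω =
        ((univ.filter fun i => T i ω ∈ E).card : ℝ≥0∞) := by
      rw [card_filter]
      push_cast
      refine sum_congr rfl fun i _ => ?_
      by_cases h : T i ω ∈ E
      · rw [Set.indicator_of_mem (show ω ∈ (T i) ⁻¹' E from h), if_pos h]
        rfl
      · rw [Set.indicator_of_notMem (show ω ∉ (T i) ⁻¹' E from h), if_neg h]
    rw [e1]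
    by_cases hω : ω ∈ B'
    · rw [Set.indicator_of_mem hω]
      refine le_trans ?_ le_self_add
      rw [hK]
      exact Nat.cast_le.2 (card_le_univ _)
    · have hω' : ω ∉ Bad := fun h => hω (subset_toMeasurable P' Bad h)
      have h4 := hcnt ω hω'
      refine le_trans ?_ le_add_self
      calc ((univ.filter fun i => T i ω ∈ E).card : ℝ≥0∞)
          = ENNReal.ofReal ((univ.filter fun i => T i ω ∈ E).card : ℝ) := by
            rw [ENNReal.ofReal_natCast]
        _ ≤ ENNReal.ofReal (b * Fintype.card ι) := ENNReal.ofReal_le_ofReal h4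
        _ = ENNReal.ofReal b * K := by
            rw [ENNReal.ofReal_mul hb, ENNReal.ofReal_natCast]
  have h5 : K * P E ≤ K * (P' Bad + ENNReal.ofReal b) := by
    rw [h2]
    refine (lintegral_mono h3).trans ?_
    rw [lintegral_add_right _ measurable_const, lintegral_const,
      lintegral_indicator (measurableSet_toMeasurable P' Bad), setLIntegral_const, measure_univ,
      mul_one, measure_toMeasurable]
    rw [mul_add, mul_comm (ENNReal.ofReal b) K]
  exact (ENNReal.mul_le_mul_iff_right hK0 hKt).1 h5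

theorem pre_le {Ω Ω' : Type} [MeasurableSpace Ω] [MeasurableSpace Ω'] {P : Measure Ω}
    {P' : Measure Ω'} {T : Ω' → Ω} (hT : MeasurePreserving T P' P) (A : Set Ω) :
    P' (T ⁻¹' A) ≤ P A := by
  rw [← hT.map_eq]
  exact Measure.le_map_apply hT.aemeasurable A

theorem mix_pres {κ : Measure (Pt × Bool)} [IsProbabilityMeasure κ] (S : Finset (Fin n)) :
    MeasurePreserving (mix S) (Measure.pi fun _ : Fin n => κ.prod κ)
      (Measure.pi fun _ : Fin n => κ) := by
  classical
  have h := measurePreserving_pi (fun _ : Fin n => κ.prod κ) (fun _ : Fin n => κ)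
    (f := fun i => if i ∈ S then Prod.snd else Prod.fst) (fun i => by
      by_cases h : i ∈ S
      · simp only [h, if_true]
        exact measurePreserving_snd
      · simp only [h, if_false]
        exact measurePreserving_fst)
  convert h using 1
  funext ζ i
  unfold mix
  split_ifs <;> rfl

theorem boundW {κ : Measure (Pt × Bool)} {c₀ H : ℝ} (hκ : Law κ c₀ H) {q ε₁ : ℝ} (hq : 0 < q)
    (hq1 : q ≤ 1) (hε : 0 ≤ ε₁)
    (hQ : (κ.prod κ) {ab | Q κ ab.1.1 ab.2.1 < ENNReal.ofReal q} ≤ ENNReal.ofReal ε₁)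
    {m r : ℕ} (hm : 1 ≤ m) (hn : 2 * m * (4 * r + 3) + 1 ≤ n) {δ : ℝ} (hδ : 0 < δ)
    (hδ1 : δ ≤ 1 / 10) (h16 : 16 ≤ m * m * (c₀ ^ 4 * δ / 10 ^ 11)) (c : ℤ) :
    (Measure.pi fun _ : Fin n => κ) {ω | tw (pol (cut (dat (pts ω)))) = c} ≤
      ENNReal.ofReal ((n * H * δ +
        r * (4 / (m * m * (c₀ ^ 4 * δ / 10 ^ 11)) + 8 * (3 * 10 ^ 9 / c₀ ^ 3) / m +
          256 * n * (3 * 10 ^ 9 / c₀ ^ 3) * H * δ) + r * (ε₁ + (1 - q) ^ (m / 2))) +
        ((1 / 2) ^ r + (64 / (m * m * (c₀ ^ 4 * δ / 10 ^ 11))) ^ (1 / 2 : ℝ))) := by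
  classical
  have := hκ.prob
  have hP := pi_prob (n := n) hκ
  have hc := hκ.c_pos
  have hH := hκ.H_pos
  have hm' : (0 : ℝ) < m := by exact_mod_cast hm
  have hn1 : 7 ≤ n := by
    have h1 : 2 * m * (4 * r + 3) = 8 * (m * r) + 6 * m := by ring
    omega
  set P := Measure.pi fun _ : Fin n => κ with hPdef
  set P' := Measure.pi fun _ : Fin n => κ.prod κ with hP'def
  have hP' : IsProbabilityMeasure P' := by
    rw [hP'def]
    infer_instance
  set a₀ : ℝ := m * m * (c₀ ^ 4 * δ / 10 ^ 11) with ha₀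
  have ha0 : 0 < a₀ := by positivity
  set D : ℝ := 4 / a₀ + 8 * (3 * 10 ^ 9 / c₀ ^ 3) / m + 256 * n * (3 * 10 ^ 9 / c₀ ^ 3) * H * δ
    with hD
  have hD0 : 0 ≤ D := by positivity
  set D3 : ℝ := ε₁ + (1 - q) ^ (m / 2) with hD3
  have hD30 : 0 ≤ D3 := by
    have : 0 ≤ (1 - q) ^ (m / 2) := pow_nonneg (by linarith) _
    positivity
  let z0 : Fin n := ⟨0, by omega⟩
  let zl : Fin n := ⟨n - 1, by omega⟩
  have h0 : (z0 : ℕ) = 0 := rfl
  have hl : (zl : ℕ) + 1 = n := by
    show n - 1 + 1 = n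
    omega
  set I := Mv n m r with hI
  -- the good events
  set B0 : Set (Fin n → PP) := {ζ | ¬ ∀ S : Finset (Fin n), ∀ ε, Gen (pts (act I δ ε (mix S ζ)))}
    with hB0
  set B1 : Set (Fin n → PP) := {ζ | ¬ ∀ S : Finset (Fin n), Gc (pts (mix S ζ))} with hB1
  set B2 : Set (Fin n → PP) := {ζ | ¬ nowr I δ (mix ∅ ζ)} with hB2
  set B3 : Fin r → Set (Fin n → PP) := fun s => {ζ | ((good2 n m (4 * (s : ℕ)) (4 * r + 2) δ
    (mix ∅ ζ) (mix (SpA n m r) ζ)).card : ℝ) < a₀ / 4} with hB3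
  set B4 : Fin r → Set (Fin n → PP) := fun t => {ζ | ∀ j ∈ Sp n m (t : ℕ), th z0 zl ζ j = 0}
    with hB4
  have b0 : P' B0 = 0 := by
    have h : ∀ᵐ ζ ∂P', ∀ S : Finset (Fin n), ∀ ε, Gen (pts (act I δ ε (mix S ζ))) := by
      rw [ae_all_iff]
      intro S
      exact (mix_pres S).quasiMeasurePreserving.ae (gen_act hκ (by omega) I hδ.le (by linarith))
    exact ae_iff.1 h
  have b1 : P' B1 = 0 := by
    have h : ∀ᵐ ζ ∂P', ∀ S : Finset (Fin n), Gc (pts (mix S ζ)) := by
      rw [ae_all_iff]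
      intro S
      exact (mix_pres S).quasiMeasurePreserving.ae (gen_c hκ)
    exact ae_iff.1 h
  have b2 : P' B2 ≤ ENNReal.ofReal (n * H * δ) :=
    (pre_le (mix_pres ∅) {ω | ¬ nowr I δ ω}).trans (wrap' hκ I hδ)
  have hrn : 2 * m * (4 * r + 2 + 1) + 1 ≤ n := by
    have : 4 * r + 2 + 1 = 4 * r + 3 := by ring
    rw [this]
    exact hn
  have b3 : ∀ s, P' (B3 s) ≤ ENNReal.ofReal D := by
    intro s
    have hab : 4 * (s : ℕ) + 2 ≤ 4 * r + 2 := by
      have := s.2
      omega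
    have h1 := few_pairs hκ hm hab hrn hδ hδ1
    have h2 := many_quads hκ hm hab hrn hδ (t := a₀ / 8) (by positivity)
    rw [← hPdef] at h1 h2
    have hsub : B3 s ⊆
        (mix ∅ ⁻¹' {ω | cnt (prs n m (4 * (s : ℕ)) (4 * r + 2)) (fun z => Av z.1 z.2 δ) ω ≤
          a₀ / 2}) ∪
        ((mix ∅ ⁻¹' {ω | a₀ / 8 ≤ cnt (qds n m (4 * (s : ℕ)) (4 * r + 2)) (Bv δ) ω}) ∪
        (mix (SpA n m r) ⁻¹' {ω | a₀ / 8 ≤ cnt (qds n m (4 * (s : ℕ)) (4 * r + 2)) (Bv δ) ω})) := by
      intro ζ hζ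
      rw [hB3] at hζ
      simp only [Set.mem_ofPred_eq] at hζ
      rw [Set.mem_union, Set.mem_union]
      simp only [Set.mem_preimage, Set.mem_ofPred_eq]
      by_contra hcon
      push Not at hcon
      have h3 := card_good2 (m := m) (a := 4 * (s : ℕ)) (b := 4 * r + 2) hδ (mix ∅ ζ)
        (mix (SpA n m r) ζ) (by
          intro z hz hA
          unfold prs at hz
          rw [mem_product] at hz
          exact (Av_mix hm hn (Subset.refl _) ζ hz.1 hz.2).2 hA)
      linarith [hcon.1, hcon.2.1, hcon.2.2]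
    have h3 := pre_le (mix_pres (κ := κ) (∅ : Finset (Fin n)))
      {ω | cnt (prs n m (4 * (s : ℕ)) (4 * r + 2)) (fun z => Av z.1 z.2 δ) ω ≤ a₀ / 2}
    have h4 := pre_le (mix_pres (κ := κ) (∅ : Finset (Fin n)))
      {ω | a₀ / 8 ≤ cnt (qds n m (4 * (s : ℕ)) (4 * r + 2)) (Bv δ) ω}
    have h5 := pre_le (mix_pres (κ := κ) (SpA n m r))
      {ω | a₀ / 8 ≤ cnt (qds n m (4 * (s : ℕ)) (4 * r + 2)) (Bv δ) ω}
    have toR : ∀ (A : Set (Fin n → Pt × Bool)) (x : ℝ), P.real A ≤ x → P A ≤ ENNReal.ofReal x := by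
      intro A x hx
      rw [← ENNReal.ofReal_toReal (measure_ne_top P A)]
      exact ENNReal.ofReal_le_ofReal hx
    refine (measure_mono hsub).trans ((measure_union_le _ _).trans
      ((add_le_add (h3.trans (toR _ _ h1)) ((measure_union_le _ _).trans
        (add_le_add (h4.trans (toR _ _ h2)) (h5.trans (toR _ _ h2))))).trans (le_of_eq ?_)))
    rw [← ENNReal.ofReal_add (by positivity) (by positivity),
      ← ENNReal.ofReal_add (by positivity) (by positivity)]
    congr 1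
    rw [hD, ha₀]
    field_simp
    ring
  have b4 : ∀ t, P' (B4 t) ≤ ENNReal.ofReal D3 := by
    intro t
    have ht := t.2
    have hz : z0 ≠ zl := fun h => by
      have := congrArg Fin.val h
      omega
    have hsp : ∀ j ∈ Sp n m (t : ℕ), (j : ℕ) % 4 = 1 ∧ 4 < (j : ℕ) ∧ (j : ℕ) + 3 < n ∧
        ((pv j : Fin n) : ℕ) + 1 = j ∧ ((nx j : Fin n) : ℕ) = (j : ℕ) + 1 := by
      intro j hj
      have h1 := sp_end hm ht hn hj
      refine ⟨(mem_Sp.1 hj).1, h1.1, h1.2, pv_val (by omega), ?_⟩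
      rw [nxv, if_neg (by omega)]
    have h := no_switch hκ hq hq1 hε hQ z0 zl hz (Sp n m (t : ℕ)) pv nx
      (by
        intro j hj
        obtain ⟨h1, h2, h3, h4, h5⟩ := hsp j hj
        refine ⟨?_, ?_, ?_⟩ <;> intro h <;> have h' := congrArg Fin.val h <;> omega)
      (by
        intro j hj
        obtain ⟨h1, h2, h3, h4, h5⟩ := hsp j hj
        refine ⟨?_, ?_, ?_⟩ <;> intro h <;> have h' := congrArg Fin.val h <;> omega)
      (by
        intro j hj
        obtain ⟨h1, h2, h3, h4, h5⟩ := hsp j hj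
        refine ⟨?_, ?_, ?_⟩ <;> intro h <;> have h' := congrArg Fin.val h <;> omega)
      (by
        intro j hj j' hj' hne
        obtain ⟨h1, h2, h3, h4, h5⟩ := hsp j hj
        obtain ⟨h1', h2', h3', h4', h5'⟩ := hsp j' hj'
        have hne' : (j : ℕ) ≠ j' := fun h => hne (Fin.ext h)
        rw [disjoint_left]
        intro x hx hx'
        simp only [mem_insert, mem_singleton] at hx hx'
        rcases hx with rfl | rfl | rfl <;> rcases hx' with h | h | h <;>
          have h' := congrArg Fin.val h <;> omega)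
    refine h.trans (ENNReal.ofReal_le_ofReal ?_)
    rw [hD3]
    have h6 : m / 2 ≤ (Sp n m (t : ℕ)).card := by
      refine card_Sp ?_
      have : 2 * m * (4 * (t : ℕ) + 3) ≤ 2 * m * (4 * r + 3) := Nat.mul_le_mul_left _ (by omega)
      omega
    have h7 := pow_le_pow_of_le_one (show 0 ≤ 1 - q by linarith) (by linarith) h6
    linarith
  set Bad : Set (Fin n → PP) := B0 ∪ B1 ∪ B2 ∪ (⋃ s, B3 s) ∪ ⋃ t, B4 t with hBad
  have hBadle : P' Bad ≤ ENNReal.ofReal (n * H * δ + r * D + r * D3) := by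
    have h4 : ENNReal.ofReal (n * H * δ + r * D + r * D3) =
        0 + 0 + ENNReal.ofReal (n * H * δ) + ∑ _j : Fin r, ENNReal.ofReal D +
          ∑ _j : Fin r, ENNReal.ofReal D3 := by
      rw [zero_add, zero_add, sum_const, sum_const, card_univ, Fintype.card_fin, nsmul_eq_mul,
        nsmul_eq_mul, ENNReal.ofReal_add (by positivity) (by positivity),
        ENNReal.ofReal_add (by positivity) (by positivity), ENNReal.ofReal_mul (Nat.cast_nonneg r),
        ENNReal.ofReal_mul (Nat.cast_nonneg r), ENNReal.ofReal_natCast]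
    rw [h4, hBad]
    refine (measure_union_le _ _).trans (add_le_add ((measure_union_le _ _).trans
      (add_le_add ((measure_union_le _ _).trans (add_le_add ((measure_union_le _ _).trans
        (add_le_add b0.le b1.le)) b2)) ?_)) ?_)
    · exact (measure_iUnion_fintype_le _ _).trans (sum_le_sum fun j _ => b3 j)
    · exact (measure_iUnion_fintype_le _ _).trans (sum_le_sum fun j _ => b4 j)
  set M : ℕ := ⌈a₀ / 16⌉₊ with hM
  have hM0 : 0 < M := Nat.ceil_pos.2 (by positivity)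
  have hMa : a₀ / 16 ≤ M := Nat.le_ceil _
  have hMb : (M : ℝ) < a₀ / 16 + 1 := Nat.ceil_lt_add_one (by positivity)
  have hmeasE : MeasurableSet {ω : Fin n → Pt × Bool | tw (pol (cut (dat (pts ω)))) = c} := by
    have : {ω : Fin n → Pt × Bool | tw (pol (cut (dat (pts ω)))) = c} =
        (fun ω => dat (pts ω)) ⁻¹' {e | tw (pol (cut e)) = c} := by
      ext ω
      simp only [Set.mem_ofPred_eq, Set.mem_preimage]
    rw [this]
    exact ((Pool.Agent.H756.RP.measurable_dat n).comp measurable_pts)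
      (Set.toFinite _).measurableSet
  have h := avg' P P' (fun z : (Fin n → ZMod 2) × (Fin n → Bool) => fun ζ =>
    act I δ z.2 (mix (Sb n m r z.1) ζ))
    (fun z => (act_pres hκ hδ.le (by linarith) _ z.2).comp (mix_pres _)) _ hmeasE Bad
    ((1 / 2) ^ r + (4 / (M : ℝ)) ^ (1 / 2 : ℝ)) (by positivity) (by
      intro ζ hζ
      rw [hBad] at hζ
      simp only [Set.mem_union, Set.mem_iUnion, not_or, not_exists] at hζ
      obtain ⟨⟨⟨⟨g0, g1⟩, g2⟩, g3⟩, g4⟩ := hζ
      rw [hB0] at g0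
      rw [hB1] at g1
      rw [hB2] at g2
      rw [hB3] at g3
      rw [hB4] at g4
      simp only [Set.mem_ofPred_eq, not_not, not_lt] at g0 g1 g2 g3 g4
      refine count_mix hm hn hδ h0 hl ζ (fun S _ => g0 S) (fun S _ => g1 S) g2 ?_ hM0 ?_ c
      · intro t ht
        have := g4 ⟨t, ht⟩
        push Not at this
        exact this
      · intro s hs
        have g5 := g3 ⟨s, hs⟩
        have g6 : (2 * M : ℝ) ≤ ((good2 n m (4 * s) (4 * r + 2) δ (mix ∅ ζ)
            (mix (SpA n m r) ζ)).card : ℝ) := by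
          refine le_trans ?_ g5
          linarith
        exact_mod_cast g6)
  refine h.trans ?_
  have e9 : ENNReal.ofReal ((n * H * δ + r * D + r * D3) +
      ((1 / 2) ^ r + (64 / a₀) ^ (1 / 2 : ℝ))) = ENNReal.ofReal (n * H * δ + r * D + r * D3) +
      ENNReal.ofReal ((1 / 2) ^ r + (64 / a₀) ^ (1 / 2 : ℝ)) :=
    ENNReal.ofReal_add (by positivity) (by positivity)
  rw [e9]
  refine add_le_add hBadle (ENNReal.ofReal_le_ofReal ?_)
  have h5 : (4 / (M : ℝ)) ^ (1 / 2 : ℝ) ≤ (64 / a₀) ^ (1 / 2 : ℝ) := by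
    refine Real.rpow_le_rpow (by positivity) ?_ (by positivity)
    rw [div_le_div_iff₀ (by exact_mod_cast hM0) ha0]
    linarith
  linarith

end Pool.Agent.H756.RW
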