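import Pool.Agent.H756.RP.Geo
import Pool.Agent.H756.RP.Defs

set_option autoImplicit false

/-!
# Crossings of a chain: interlaced crossings, triangles
-/

namespace Pool.Agent.H756.RW

open Pool.Agent.H756.RP

variable {n : ℕ}

/-- the orientation of three points (of their projections) -/
def orient (a b c : Pt) : ℝ := (b.1 - a.1) * (c.2.1 - a.2.1) - (b.2.1 - a.2.1) * (c.1 - a.1)

open Classical in
/-- the point `z` is in the triangle with the vertices `u`, `v`, `w` -/
noncomputable def tri (u v w z : Pt) : ZMod 2 :=
  if (0 < orient u v z ↔ 0 < orient v w z) ∧ (0 < orient v w z ↔ 0 < orient w u z) then 1 else 0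

/-- the number modulo `2` of the pairs of one of the points `a`, `b` and one of the triangles
`u y v`, `u y' v` such that the point is in the triangle -/
noncomputable def theta (a b u y y' v : Pt) : ZMod 2 :=
  tri u y v a + tri u y' v a + tri u y v b + tri u y' v b

/-- the passage with the parameter `t` of the edge `e` is between the two passages of the crossing of
the edges `i < k` -/
def Inn (p : Fin n → Pt) (i k e : Fin n) (t : ℝ) : Prop :=
  (i < e ∨ (i = e ∧ par p i k < t)) ∧ (e < k ∨ (e = k ∧ t < par p k i))

open Classical in
/-- the number of the crossings of the chain (without the closing edge) of which exactly one passage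
(the first one of the pair) is between the two passages of the crossing of the edges `i < k` -/
noncomputable def degP (p : Fin n → Pt) (i k : Fin n) : ℕ :=
  (Finset.univ.filter fun x : Fin n × Fin n => (x.1 : ℕ) + 1 < n ∧ (x.2 : ℕ) + 1 < n ∧
    Cr p x.1 x.2 ∧ Inn p i k x.1 (par p x.1 x.2) ∧ ¬ Inn p i k x.2 (par p x.2 x.1)).card

end Pool.Agent.H756.RW
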