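import Pool.Agent.H756.RW.DefsW
import Pool.Agent.H756.RK.FlipK

set_option autoImplicit false

/-!
# The number of the chords which cross a given chord

`hW` says that `G` is the Gauss word of the open chain (`RP/Defs.lean`, `RK/FlipK.lean`): the passages `x` of the
crossings correspond to the pairs `e x` of crossing edges (no one of them the closing edge `n - 1`),
`e (c, true) = (e (c, false)).swap`, and `G x < G y` iff `(e x).1 < (e y).1` or `(e x).1 = (e y).1` and
`par p (e x).1 (e x).2 < par p (e x).1 (e y).2`.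

Paper proof.  `Crosses G c j` (definition in `H832R2/JR/Defs.lean`) says that exactly one of the two passages
`(j, false)`, `(j, true)` of `j` lies strictly between `G (c, false)` and `G (c, true)` (`Btw` is symmetric in
its first two arguments).  The two passages of `c` are `x = (c, b)`, `e x = (i, k)`, and `x' = (c, !b)`,
`e x' = (k, i)`, and `G x < G x'` as `i < k`.  A passage `y` with `e y = (a, a')` is strictly between iff
`Inn p i k a (par p a a')`: `G x < G y` iff `i < a ∨ (i = a ∧ par p i k < par p i a')`, and `G y < G x'` iff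
`a < k ∨ (a = k ∧ par p k a' < par p k i)`.  The map which sends `j` with `Crosses G c j` to the pair `e y`, `y` the
passage of `j` which is between, is a bijection to the set counted by `degP` (`e` is injective: `word_injK`, and
surjective onto the pairs with `cutX (dat p).1 a a' = true`, see `cutX_iff`).
-/

namespace Pool.Agent.H756.RW

open Pool.Agent.H756.RP
open Pool.Agent.H756.RV (cutX cutX_iff word_injK)
open Pool.Agent.H832R2.JR (GaussWord Crosses)

variable {n N : ℕ}

theorem deg_between {p : Fin n → Pt} {G : GaussWord N} {e : Fin N × Bool → Fin n × Fin n}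
    (hW : IsWord (cutX (dat p).1) (dat p).2.1 G e) {c : Fin N} {b : Bool} {i k : Fin n}
    (hc : e (c, b) = (i, k)) (hc' : e (c, !b) = (k, i)) (y : Fin N × Bool) :
    (G (c, b) < G y ∧ G y < G (c, !b)) ↔ Inn p i k (e y).1 (par p (e y).1 (e y).2) := by
  unfold Inn
  rw [hW.2.2.2 (c, b) y, hW.2.2.2 y (c, !b), hc, hc']
  simp only [dat_O]
  constructor
  · rintro ⟨h1, h2⟩
    refine ⟨h1.imp_right ?_, h2.imp_right ?_⟩
    · rintro ⟨h3, h4⟩
      refine ⟨h3, ?_⟩
      rw [← h3]
      exact h4
    · rintro ⟨h3, h4⟩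
      refine ⟨h3, ?_⟩
      rw [h3] at h4 ⊢
      exact h4
  · rintro ⟨h1, h2⟩
    refine ⟨h1.imp_right ?_, h2.imp_right ?_⟩
    · rintro ⟨h3, h4⟩
      refine ⟨h3, ?_⟩
      rw [← h3] at h4
      exact h4
    · rintro ⟨h3, h4⟩
      refine ⟨h3, ?_⟩
      rw [h3] at h4 ⊢
      exact h4

open Classical in
theorem deg_eq {p : Fin n → Pt} {G : GaussWord N} {e : Fin N × Bool → Fin n × Fin n}
    (hW : IsWord (cutX (dat p).1) (dat p).2.1 G e) {c : Fin N} {b : Bool} {i k : Fin n}
    (hc : e (c, b) = (i, k)) (hik : i < k) :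
    (Finset.univ.filter fun j => Crosses G c j).card = degP p i k := by
  have hc' : e (c, !b) = (k, i) := by
    rw [word_swap hW, hc]
    rfl
  have hlt : G (c, b) < G (c, !b) := by
    rw [hW.2.2.2, hc, hc']
    exact Or.inl hik
  have hbtw : ∀ y, Pool.Agent.H832R2.JR.Btw (G (c, false)) (G (c, true)) (G y) ↔ (G (c, b) < G y ∧ G y < G (c, !b)) := by
    intro y
    unfold Pool.Agent.H832R2.JR.Btw
    cases b
    · simp only [Bool.not_false] at hlt ⊢
      constructor
      · rintro (h | h)
        · exact h
        · have h1 : ((G (c, true)).1 : ℕ) < (G (c, false)).1 := h.1.trans h.2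
          have h2 : ((G (c, false)).1 : ℕ) < (G (c, true)).1 := hlt
          omega
      · intro h
        exact Or.inl h
    · simp only [Bool.not_true] at hlt ⊢
      constructor
      · rintro (h | h)
        · have h1 : ((G (c, false)).1 : ℕ) < (G (c, true)).1 := h.1.trans h.2
          have h2 : ((G (c, true)).1 : ℕ) < (G (c, false)).1 := hlt
          omega
        · exact h
      · intro h
        exact Or.inr h
  have hcr : ∀ j, Crosses G c j ↔
      ¬ (Inn p i k (e (j, false)).1 (par p (e (j, false)).1 (e (j, false)).2) ↔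
        Inn p i k (e (j, true)).1 (par p (e (j, true)).1 (e (j, true)).2)) := by
    intro j
    unfold Crosses
    rw [hbtw, hbtw, deg_between hW hc hc', deg_between hW hc hc']
  set T : Finset (Fin N × Bool) := Finset.univ.filter fun y =>
    Inn p i k (e y).1 (par p (e y).1 (e y).2) ∧ ¬ Inn p i k (e y).2 (par p (e y).2 (e y).1) with hT
  have hsw : ∀ j, e (j, true) = ((e (j, false)).2, (e (j, false)).1) := fun j => hW.2.1 j
  have h1 : T.card = (Finset.univ.filter fun j => Crosses G c j).card := by
    apply Finset.card_bij (fun y _ => y.1)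
    · rintro ⟨j, b'⟩ hy
      rw [hT, Finset.mem_filter] at hy
      rw [Finset.mem_filter, hcr]
      refine ⟨Finset.mem_univ _, ?_⟩
      obtain ⟨-, hy1, hy2⟩ := hy
      cases b'
      · show ¬ (Inn p i k (e (j, false)).1 _ ↔ Inn p i k (e (j, true)).1 (par p (e (j, true)).1 (e (j, true)).2))
        rw [hsw]
        exact fun h => hy2 (h.1 hy1)
      · show ¬ (Inn p i k (e (j, false)).1 _ ↔ Inn p i k (e (j, true)).1 (par p (e (j, true)).1 (e (j, true)).2))
        rw [hsw] at hy1 hy2 ⊢
        exact fun h => hy2 (h.2 hy1)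
    · rintro ⟨j, b'⟩ hy ⟨j', b''⟩ hy' hjj
      have hjj' : j = j' := hjj
      subst hjj'
      rw [hT, Finset.mem_filter] at hy hy'
      obtain ⟨-, hy1, hy2⟩ := hy
      obtain ⟨-, hy3, hy4⟩ := hy'
      cases b' <;> cases b''
      · rfl
      · rw [hsw] at hy3 hy4
        exact absurd hy3 hy2
      · rw [hsw] at hy1 hy2
        exact absurd hy1 hy4
      · rfl
    · intro j hj
      rw [Finset.mem_filter, hcr] at hj
      by_cases h2 : Inn p i k (e (j, false)).1 (par p (e (j, false)).1 (e (j, false)).2)
      · have h3 : ¬ Inn p i k (e (j, true)).1 (par p (e (j, true)).1 (e (j, true)).2) :=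
          fun h => hj.2 ⟨fun _ => h, fun _ => h2⟩
        rw [hsw] at h3
        exact ⟨(j, false), by rw [hT, Finset.mem_filter]; exact ⟨Finset.mem_univ _, h2, h3⟩, rfl⟩
      · have h3 : Inn p i k (e (j, true)).1 (par p (e (j, true)).1 (e (j, true)).2) := by
          by_contra h
          exact hj.2 ⟨fun h' => absurd h' h2, fun h' => absurd h' h⟩
        refine ⟨(j, true), ?_, rfl⟩
        rw [hT, Finset.mem_filter]
        refine ⟨Finset.mem_univ _, h3, ?_⟩
        rw [hsw]
        exact h2
  rw [← h1]
  unfold degP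
  apply Finset.card_bij (fun y _ => e y)
  · intro y hy
    rw [hT, Finset.mem_filter] at hy
    have h2 := (cutX_iff p (e y).1 (e y).2).1 (hW.1 y)
    rw [Finset.mem_filter]
    exact ⟨Finset.mem_univ _, h2.2.1, h2.2.2, h2.1, hy.2.1, hy.2.2⟩
  · intro y _ y' _ h
    exact word_injK hW h
  · intro x hx
    rw [Finset.mem_filter] at hx
    obtain ⟨-, x1, x2, x3, x4, x5⟩ := hx
    obtain ⟨y, hy⟩ := hW.2.2.1 x.1 x.2 ((cutX_iff p x.1 x.2).2 ⟨x3, x1, x2⟩)
    refine ⟨y, ?_, hy⟩
    rw [hT, Finset.mem_filter, hy]
    exact ⟨Finset.mem_univ _, x4, x5⟩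

end Pool.Agent.H756.RW
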