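import Pool.Agent.H756.RW.BndW
import Pool.Agent.H756.RK.FinK

set_option autoImplicit false

/-!
The law of the odd writhe of a random chain.
-/

namespace Pool.Agent.H756.RW

open MeasureTheory Finset Filter
open scoped ENNReal Topology
open Pool.Agent.H756.RP (Pt dat pts pol Law Gen sim Reduce.measurable_sim reduce transfer
  measurableSet_gen gen_ae measurable_dat)
open Pool.Agent.H756.RV (cut)
open Pool.Agent.H756.RK (DescribesK law descK_exists descK_pol sim_describesK)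
open Pool.Agent.H832R2.JR (GaussWord fPoly)

/-- the probability that the odd writhe has a given value tends to zero, uniformly in the value -/
theorem asymW {κ : Measure (Pt × Bool)} {c₀ H : ℝ} (hκ : Law κ c₀ H)
    (hac : κ.map Prod.fst ≪ volume) (η : ℝ) (hη : 0 < η) :
    ∃ n0 : ℕ, ∀ n : ℕ, n0 ≤ n → ∀ c : ℤ,
      (Measure.pi fun _ : Fin n => κ) {ω | tw (pol (cut (dat (pts ω)))) = c} ≤
        ENNReal.ofReal η := by
  have hc := hκ.c_pos
  have hH := hκ.H_pos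
  obtain ⟨r, hr⟩ := exists_pow_lt_of_lt_one (show 0 < η / 6 by positivity)
    (show (1 / 2 : ℝ) < 1 by norm_num)
  set ε₁ : ℝ := η / (6 * (r + 1)) with hε₁
  have hε0 : 0 < ε₁ := by positivity
  obtain ⟨q', hq', hQ'⟩ := switch hκ hac ε₁ hε0
  set q : ℝ := min q' 1 with hq
  have hq0 : 0 < q := lt_min hq' one_pos
  have hq1 : q ≤ 1 := min_le_right _ _
  have hQ : (κ.prod κ) {ab | Q κ ab.1.1 ab.2.1 < ENNReal.ofReal q} ≤ ENNReal.ofReal ε₁ := by
    refine (measure_mono ?_).trans hQ'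
    intro ab hab
    exact lt_of_lt_of_le hab (ENNReal.ofReal_le_ofReal (min_le_left _ _))
  obtain ⟨k0, hk0⟩ := exists_pow_lt_of_lt_one hε0 (show 1 - q < 1 by linarith)
  set B : ℕ := 4 * r + 3 with hB
  have hB0 : (0 : ℝ) < B := by
    rw [hB]
    positivity
  set A₁ : ℝ := c₀ ^ 4 / ((4 * B) ^ 2 * 10 ^ 12) with hA₁
  have hA0 : 0 < A₁ := by positivity
  set R : ℝ := 3 * 10 ^ 9 / c₀ ^ 3 with hR
  have hR0 : 0 < R := by positivity
  set K : ℝ := H / 10 + r * (4 / A₁ + 32 * B * R + 256 * R * H / 10) +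
    (64 / A₁) ^ (1 / 2 : ℝ) with hK
  have hK0 : 0 < K := by positivity
  have hlim : Tendsto (fun n : ℕ => (n : ℝ) ^ (-(1 / 5) : ℝ)) atTop (𝓝 0) :=
    (tendsto_rpow_neg_atTop (by norm_num)).comp tendsto_natCast_atTop_atTop
  have hev : ∀ᶠ n : ℕ in atTop, (n : ℝ) ^ (-(1 / 5) : ℝ) < min (η / (6 * K)) (min 1 (A₁ / 16)) :=
    hlim.eventually_lt_const (by positivity)
  obtain ⟨n1, hn1⟩ := eventually_atTop.1 hev
  refine ⟨max n1 (4 * B * (k0 + 1) + 2 * B + 1), fun n hn c => ?_⟩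
  have hna : n1 ≤ n := le_trans (le_max_left _ _) hn
  have hnb : 4 * B * (k0 + 1) + 2 * B + 1 ≤ n := le_trans (le_max_right _ _) hn
  have hu := hn1 n hna
  have hn0 : (0 : ℝ) < n := by
    have : 0 < n := by omega
    exact_mod_cast this
  set u : ℝ := (n : ℝ) ^ (-(1 / 5) : ℝ) with hudef
  have hu0 : 0 < u := Real.rpow_pos_of_pos hn0 _
  have hu5 : u ^ 5 * n = 1 := by
    rw [hudef, ← Real.rpow_natCast, ← Real.rpow_mul hn0.le]
    norm_num
    rw [Real.rpow_neg_one, inv_mul_cancel₀ hn0.ne']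
  have hua : u ≤ η / (6 * K) := (lt_min_iff.1 hu).1.le
  have hu1 : u ≤ 1 := (lt_min_iff.1 (lt_min_iff.1 hu).2).1.le
  have hub : u ≤ A₁ / 16 := (lt_min_iff.1 (lt_min_iff.1 hu).2).2.le
  set m := (n - 1) / (2 * B) with hmdef
  have hm : 1 ≤ m := by
    rw [hmdef, Nat.one_le_div_iff (by omega)]
    omega
  have hm8 : 2 * m * B + 1 ≤ n := by
    have := Nat.div_mul_le_self (n - 1) (2 * B)
    rw [← hmdef] at this
    have h2 : m * (2 * B) = 2 * m * B := by ring
    omega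
  have hm16 : n ≤ 4 * B * m := by
    have h1 := Nat.lt_div_mul_add (a := n - 1) (b := 2 * B) (by omega)
    rw [← hmdef] at h1
    have h2 : 2 * B ≤ m * (2 * B) := Nat.le_mul_of_pos_left _ hm
    have h3 : 4 * B * m = m * (2 * B) + m * (2 * B) := by ring
    omega
  have hmk : k0 ≤ m / 2 := by
    rw [hmdef, Nat.div_div_eq_div_mul, Nat.le_div_iff_mul_le (by omega)]
    have h1 : k0 * (2 * B * 2) = 4 * B * k0 := by ring
    have h2 : 4 * B * (k0 + 1) = 4 * B * k0 + 4 * B := by ring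
    omega
  have hm' : (0 : ℝ) < m := by exact_mod_cast hm
  have hmn : (n : ℝ) / (4 * B) ≤ m := by
    rw [div_le_iff₀ (by positivity)]
    have : (n : ℝ) ≤ 4 * B * m := by exact_mod_cast hm16
    linarith
  have hδ0 : 0 < u ^ 6 / 10 := by positivity
  have hδ1 : u ^ 6 / 10 ≤ 1 / 10 := by
    have := pow_le_one₀ (n := 6) hu0.le hu1
    linarith
  have hu4 : u ^ 4 ≤ u := by
    calc u ^ 4 = u ^ 3 * u := by ring
      _ ≤ 1 * u := by
        have := pow_le_one₀ (n := 3) hu0.le hu1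
        gcongr
      _ = u := one_mul u
  have hu5' : u ^ 5 ≤ u := by
    calc u ^ 5 = u ^ 4 * u := by ring
      _ ≤ 1 * u := by
        have := pow_le_one₀ (n := 4) hu0.le hu1
        gcongr
      _ = u := one_mul u
  have ha : A₁ / u ^ 4 ≤ m * m * (c₀ ^ 4 * (u ^ 6 / 10) / 10 ^ 11) := by
    have h1 : A₁ / u ^ 4 = (n : ℝ) / (4 * B) * (n / (4 * B)) *
        (c₀ ^ 4 * (u ^ 6 / 10) / 10 ^ 11) := by
      rw [div_eq_iff (by positivity), hA₁]
      have h2 : (n : ℝ) / (4 * B) * (n / (4 * B)) * (c₀ ^ 4 * (u ^ 6 / 10) / 10 ^ 11) * u ^ 4 =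
          c₀ ^ 4 / ((4 * B) ^ 2 * 10 ^ 12) * (u ^ 5 * n) ^ 2 := by
        field_simp
        try ring
      rw [h2, hu5]
      ring
    rw [h1]
    gcongr
  have h16 : 16 ≤ m * m * (c₀ ^ 4 * (u ^ 6 / 10) / 10 ^ 11) := by
    refine le_trans ?_ ha
    rw [le_div_iff₀ (by positivity)]
    linarith
  refine (boundW hκ hq0 hq1 hε0.le hQ hm hm8 hδ0 hδ1 h16 c).trans (ENNReal.ofReal_le_ofReal ?_)
  rw [← hR]
  set a₀ := (m : ℝ) * m * (c₀ ^ 4 * (u ^ 6 / 10) / 10 ^ 11) with ha₀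
  have ha0 : 0 < a₀ := by positivity
  have e1 : (n : ℝ) * H * (u ^ 6 / 10) = H / 10 * u := by
    calc (n : ℝ) * H * (u ^ 6 / 10) = H / 10 * u * (u ^ 5 * n) := by ring
      _ = H / 10 * u := by rw [hu5, mul_one]
  have e2 : 4 / a₀ ≤ 4 / A₁ * u := by
    calc 4 / a₀ ≤ 4 / (A₁ / u ^ 4) := by gcongr
      _ = 4 / A₁ * u ^ 4 := by field_simp
      _ ≤ 4 / A₁ * u := by gcongr
  have e3 : 8 * R / m ≤ 32 * B * R * u := by
    calc 8 * R / m ≤ 8 * R / (n / (4 * B)) := by gcongr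
      _ = 32 * B * R * (u ^ 5 * n) / n := by rw [hu5]; field_simp; try ring
      _ = 32 * B * R * u ^ 5 := by field_simp
      _ ≤ 32 * B * R * u := by gcongr
  have e4 : 256 * n * R * H * (u ^ 6 / 10) = 256 * R * H / 10 * u := by
    calc 256 * n * R * H * (u ^ 6 / 10) = 256 * R * H / 10 * u * (u ^ 5 * n) := by ring
      _ = 256 * R * H / 10 * u := by rw [hu5, mul_one]
  have e5 : (64 / a₀) ^ (1 / 2 : ℝ) ≤ (64 / A₁) ^ (1 / 2 : ℝ) * u := by
    calc (64 / a₀) ^ (1 / 2 : ℝ) ≤ (64 / (A₁ / u ^ 4)) ^ (1 / 2 : ℝ) := by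
          refine Real.rpow_le_rpow (by positivity) ?_ (by positivity)
          gcongr
      _ = (64 / A₁ * u ^ 4) ^ (1 / 2 : ℝ) := by
          congr 1
          field_simp
      _ = (64 / A₁) ^ (1 / 2 : ℝ) * (u ^ 4) ^ (1 / 2 : ℝ) :=
          Real.mul_rpow (by positivity) (by positivity)
      _ = (64 / A₁) ^ (1 / 2 : ℝ) * u ^ 2 := by
          congr 1
          rw [← Real.rpow_natCast, ← Real.rpow_mul hu0.le, ← Real.rpow_natCast]
          norm_num
      _ ≤ (64 / A₁) ^ (1 / 2 : ℝ) * u := by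
          refine mul_le_mul_of_nonneg_left ?_ (by positivity)
          nlinarith
  have e6 : r * (4 / a₀ + 8 * R / m + 256 * R * H / 10 * u) ≤
      r * (4 / A₁ + 32 * B * R + 256 * R * H / 10) * u := by
    calc r * (4 / a₀ + 8 * R / m + 256 * R * H / 10 * u)
        ≤ r * (4 / A₁ * u + 32 * B * R * u + 256 * R * H / 10 * u) := by gcongr
      _ = r * (4 / A₁ + 32 * B * R + 256 * R * H / 10) * u := by ring
  have e7 : (r : ℝ) * (ε₁ + (1 - q) ^ (m / 2)) ≤ η / 3 := by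
    have h1 : (1 - q) ^ (m / 2) ≤ ε₁ :=
      (pow_le_pow_of_le_one (by linarith) (by linarith) hmk).trans hk0.le
    have h2 : (r : ℝ) * (ε₁ + (1 - q) ^ (m / 2)) ≤ r * (ε₁ + ε₁) := by gcongr
    refine h2.trans ?_
    have h3 : (r : ℝ) * (ε₁ + ε₁) = r / (r + 1) * (η / 3) := by
      rw [hε₁]
      field_simp
      ring
    rw [h3]
    have h4 : (r : ℝ) / (r + 1) ≤ 1 := by
      rw [div_le_one (by positivity)]
      linarith
    calc (r : ℝ) / (r + 1) * (η / 3) ≤ 1 * (η / 3) := by gcongr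
      _ = η / 3 := one_mul _
  have e8 : K * u ≤ η / 6 := by
    calc K * u ≤ K * (η / (6 * K)) := by gcongr
      _ = η / 6 := by field_simp
  rw [e1, e4]
  have e9 : K * u = H / 10 * u + r * (4 / A₁ + 32 * B * R + 256 * R * H / 10) * u +
      (64 / A₁) ^ (1 / 2 : ℝ) * u := by
    rw [hK]
    ring
  linarith

theorem finalW (ρ : Pt → ℝ≥0∞) (hρ : Measurable ρ) (h1 : ∫⁻ q, ρ q = 1) (h : ℝ × ℝ → ℝ≥0∞)
    (hh : Measurable h) (hfin : ∫⁻ q, h q ≠ ∞) (hle : ∀ q, ρ q ≤ h (q.1, q.2.1)) (U : Set Pt)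
    (hU : IsOpen U) (hne : U.Nonempty) (b : ℝ≥0∞) (hb : b ≠ 0) (hbU : ∀ q ∈ U, b ≤ ρ q)
    (η : ℝ) (hη : 0 < η) :
    ∃ n0 : ℕ, ∀ n : ℕ, n0 ≤ n → 2 ≤ n ∧
      (∀ᵐ p ∂(law ρ (n + 1)), ∃ (N : ℕ) (G : GaussWord N) (w : Fin N → Bool),
          DescribesK p G w) ∧
        ∀ c : ℤ, law ρ (n + 1) {p | ∃ (N : ℕ) (G : GaussWord N) (w : Fin N → Bool),
          DescribesK p G w ∧ tw (fPoly G w) = c} ≤ ENNReal.ofReal η := by
  obtain ⟨a, s, κ, c₀, H, hs, hκ, hmap⟩ := reduce ρ hρ h1 h hh hfin hle U hU hne b hb hbU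
  have hsim : Measurable (sim a s) := Pool.Agent.H756.RP.Reduce.measurable_sim a s
  have hprob : IsProbabilityMeasure ((volume : Measure Pt).withDensity ρ) :=
    ⟨by rw [withDensity_apply _ MeasurableSet.univ, Measure.restrict_univ, h1]⟩
  have hac : κ.map Prod.fst ≪ volume := by
    rw [hmap]
    refine Measure.AbsolutelyContinuous.mk fun F hF h0 => ?_
    rw [Measure.map_apply hsim hF]
    have h2 : volume (sim a s ⁻¹' F) = 0 := by
      rw [Pool.Agent.H756.RP.Reduce.vol_sim a s hs F, h0, mul_zero]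
    exact withDensity_absolutelyContinuous _ _ h2
  obtain ⟨n0, hn0⟩ := asymW hκ hac η hη
  refine ⟨max n0 2, fun n hn => ?_⟩
  have hna : n0 ≤ n := le_trans (le_max_left _ _) hn
  have hn2 : 2 ≤ n := le_trans (le_max_right _ _) hn
  have hgen0 : law ρ (n + 1)
      {p | (fun i => sim a s (p i)) ∈ {p : Fin (n + 1) → Pt | Gen p}ᶜ} = 0 := by
    unfold law
    rw [transfer ρ hρ h1 hκ hmap hsim (n + 1) _ measurableSet_gen.compl]
    exact gen_ae hκ (by omega)
  have hval : ∀ p : Fin (n + 1) → Pt, Gen (fun i => sim a s (p i)) →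
      ∀ (N : ℕ) (G : GaussWord N) (w : Fin N → Bool), DescribesK p G w →
      fPoly G w = pol (cut (dat (fun i => sim a s (p i)))) := by
    intro p hp N G w hG
    exact descK_pol _ hp G w ((sim_describesK p a s hs G w).1 hG)
  refine ⟨hn2, ?_, fun c => ?_⟩
  · have hgen : ∀ᵐ p ∂(law ρ (n + 1)), Gen (fun i => sim a s (p i)) := by
      rw [ae_iff]
      exact hgen0
    filter_upwards [hgen] with p hp
    obtain ⟨N, G, w, hG⟩ := descK_exists hn2 _ hp
    exact ⟨N, G, w, (sim_describesK p a s hs G w).2 hG⟩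
  · have hsub : {p : Fin (n + 1) → Pt | ∃ (N : ℕ) (G : GaussWord N) (w : Fin N → Bool),
        DescribesK p G w ∧ tw (fPoly G w) = c} ⊆
        {p | (fun i => sim a s (p i)) ∈ {p : Fin (n + 1) → Pt | Gen p}ᶜ} ∪
        {p | tw (pol (cut (dat (fun i => sim a s (p i))))) = c} := by
      rintro p ⟨N, G, w, hG, hc⟩
      by_cases hg : Gen (fun i => sim a s (p i))
      · right
        show tw (pol (cut (dat (fun i => sim a s (p i))))) = c
        rw [← hval p hg N G w hG, hc]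
      · left
        exact hg
    refine (measure_mono hsub).trans ((measure_union_le _ _).trans ?_)
    rw [hgen0, zero_add]
    have hmeas : MeasurableSet {p : Fin (n + 1) → Pt | tw (pol (cut (dat p))) = c} :=
      (measurable_dat (n + 1)) (t := {e | tw (pol (cut e)) = c}) (Set.toFinite _).measurableSet
    have h2 := transfer ρ hρ h1 hκ hmap hsim (n + 1) _ hmeas
    exact (le_of_eq h2).trans (hn0 (n + 1) (by omega) c)

end Pool.Agent.H756.RW
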