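import Mathlib

set_option autoImplicit false

/-!
# Two closed polygons in the plane cross an even number of times

The closed polygons are given by permutations: the edges of the first one are the segments from
`A i` to `A (s i)`, `i : ι`, the edges of the second one the segments from `B j` to `B (t j)`.  No vertex of one of
them is on an edge of the other one (but edges may have length zero, vertices may be equal, three vertices may be
collinear, and an edge may be on the line of another one).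

Proof.  After a shear different vertices have different first coordinates.  For a segment `u v` and a point `z` let
`low z u v` be the assertion that the first coordinate of `z` is strictly between those of `u` and `v` and `z` is
below the line `u v`, and `upp z u v` the same with above.  If `a, b` are not in the segment `u v` and `u, v` are
not in the segment `a b`, then, modulo two,
`[segment a b ∩ segment u v ≠ ∅] = [low a u v] + [low b u v] + [upp u a b] + [upp v a b]`.
Sum over all pairs of edges.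
-/

namespace Pool.Agent.H756.RW

namespace GaussA

/-- The line through `a` and `b` at the first coordinate `x`. -/
noncomputable def Y (a b : ℝ × ℝ) (x : ℝ) : ℝ := a.2 + (b.2 - a.2) / (b.1 - a.1) * (x - a.1)

/-- The first coordinate of `z` is strictly between those of `u` and `v`. -/
def btw (z u v : ℝ × ℝ) : Prop := (u.1 < z.1 ∧ z.1 < v.1) ∨ (v.1 < z.1 ∧ z.1 < u.1)

/-- `z` is below the segment `u v`. -/
def low (z u v : ℝ × ℝ) : Prop := btw z u v ∧ z.2 < Y u v z.1

/-- `z` is above the segment `u v`. -/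
def upp (z u v : ℝ × ℝ) : Prop := btw z u v ∧ Y u v z.1 < z.2

lemma Y_swap {a b : ℝ × ℝ} (h : a.1 ≠ b.1) (x : ℝ) : Y a b x = Y b a x := by
  unfold Y
  have h1 : b.1 - a.1 ≠ 0 := sub_ne_zero.mpr h.symm
  have h2 : a.1 - b.1 ≠ 0 := sub_ne_zero.mpr h
  field_simp
  ring

lemma btw_swap (z u v : ℝ × ℝ) : btw z u v ↔ btw z v u := by
  unfold btw
  tauto

lemma low_swap {u v : ℝ × ℝ} (h : u.1 ≠ v.1) (z : ℝ × ℝ) : low z u v ↔ low z v u := by
  unfold low
  rw [btw_swap, Y_swap h]

lemma upp_swap {u v : ℝ × ℝ} (h : u.1 ≠ v.1) (z : ℝ × ℝ) : upp z u v ↔ upp z v u := by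
  unfold upp
  rw [btw_swap, Y_swap h]

lemma mem_seg {a b z : ℝ × ℝ} (h : a.1 < b.1) :
    z ∈ segment ℝ a b ↔ a.1 ≤ z.1 ∧ z.1 ≤ b.1 ∧ z.2 = Y a b z.1 := by
  have h1 : b.1 - a.1 ≠ 0 := (sub_pos.mpr h).ne'
  rw [segment_eq_image']
  constructor
  · rintro ⟨θ, ⟨h0, h2⟩, rfl⟩
    simp only [Prod.fst_add, Prod.smul_fst, Prod.fst_sub, smul_eq_mul, Prod.snd_add, Prod.smul_snd,
      Prod.snd_sub]
    refine ⟨?_, ?_, ?_⟩
    · nlinarith
    · nlinarith
    · unfold Y
      field_simp
      ring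
  · rintro ⟨h0, h2, h3⟩
    refine ⟨(z.1 - a.1) / (b.1 - a.1), ⟨?_, ?_⟩, ?_⟩
    · exact div_nonneg (by linarith) (by linarith)
    · rw [div_le_one (by linarith)]
      linarith
    · ext
      · simp only [Prod.fst_add, Prod.smul_fst, Prod.fst_sub, smul_eq_mul]
        field_simp
        ring
      · simp only [Prod.snd_add, Prod.smul_snd, Prod.snd_sub, smul_eq_mul]
        rw [h3]
        unfold Y
        ring

/-- an affine function -/
lemma aff {a b u v : ℝ × ℝ} (p q x : ℝ) :
    (q - p) * (Y a b x - Y u v x) =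
      (q - x) * (Y a b p - Y u v p) + (x - p) * (Y a b q - Y u v q) := by
  unfold Y
  ring

lemma inter_iff {a b u v : ℝ × ℝ} (h : a.1 < b.1) (h' : u.1 < v.1) :
    (segment ℝ a b ∩ segment ℝ u v).Nonempty ↔
      ∃ x, a.1 ≤ x ∧ x ≤ b.1 ∧ u.1 ≤ x ∧ x ≤ v.1 ∧ Y a b x = Y u v x := by
  constructor
  · rintro ⟨z, hz, hz'⟩
    rw [mem_seg h] at hz
    rw [mem_seg h'] at hz'
    exact ⟨z.1, hz.1, hz.2.1, hz'.1, hz'.2.1, by rw [← hz.2.2, ← hz'.2.2]⟩
  · rintro ⟨x, h1, h2, h3, h4, h5⟩
    exact ⟨(x, Y a b x), (mem_seg h).mpr ⟨h1, h2, rfl⟩, (mem_seg h').mpr ⟨h3, h4, h5⟩⟩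

/-- there is a zero in `[p, q]` iff the signs at `p` and `q` are different -/
lemma zero_iff {a b u v : ℝ × ℝ} {p q : ℝ} (hpq : p < q)
    (hp : Y a b p ≠ Y u v p) (hq : Y a b q ≠ Y u v q) :
    (∃ x, p ≤ x ∧ x ≤ q ∧ Y a b x = Y u v x) ↔ ¬ (Y a b p < Y u v p ↔ Y a b q < Y u v q) := by
  constructor
  · rintro ⟨x, h1, h2, h3⟩ hiff
    have e := aff (a := a) (b := b) (u := u) (v := v) p q x
    rw [h3, sub_self, mul_zero] at e
    rcases lt_or_gt_of_ne hp with h | h
    · have h4 := hiff.mp h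
      have h5 : (q - x) * (Y a b p - Y u v p) ≤ 0 :=
        mul_nonpos_of_nonneg_of_nonpos (by linarith) (by linarith)
      have h6 : (x - p) * (Y a b q - Y u v q) ≤ 0 :=
        mul_nonpos_of_nonneg_of_nonpos (by linarith) (by linarith)
      have h7 : (q - x) * (Y a b p - Y u v p) = 0 := by linarith
      have h8 : (x - p) * (Y a b q - Y u v q) = 0 := by linarith
      rcases mul_eq_zero.mp h7 with h9 | h9
      · rcases mul_eq_zero.mp h8 with h10 | h10
        · linarith
        · linarith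
      · linarith
    · have h4 : Y u v q < Y a b q := by
        rcases lt_or_gt_of_ne hq with h5 | h5
        · exact absurd (hiff.mpr h5) (by linarith)
        · exact h5
      have h5 : 0 ≤ (q - x) * (Y a b p - Y u v p) := mul_nonneg (by linarith) (by linarith)
      have h6 : 0 ≤ (x - p) * (Y a b q - Y u v q) := mul_nonneg (by linarith) (by linarith)
      have h7 : (q - x) * (Y a b p - Y u v p) = 0 := by linarith
      have h8 : (x - p) * (Y a b q - Y u v q) = 0 := by linarith
      rcases mul_eq_zero.mp h7 with h9 | h9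
      · rcases mul_eq_zero.mp h8 with h10 | h10
        · linarith
        · linarith
      · linarith
  · intro hiff
    set P := Y a b p - Y u v p with hP
    set Q := Y a b q - Y u v q with hQ
    have hP0 : P ≠ 0 := sub_ne_zero.mpr hp
    have hQ0 : Q ≠ 0 := sub_ne_zero.mpr hq
    have key : (P < 0 ∧ 0 < Q) ∨ (0 < P ∧ Q < 0) := by
      rcases lt_or_gt_of_ne hp with h | h
      · rcases lt_or_gt_of_ne hq with h5 | h5
        · exact absurd ⟨fun _ => h5, fun _ => h⟩ hiff
        · left; constructor <;> linarith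
      · rcases lt_or_gt_of_ne hq with h5 | h5
        · right; constructor <;> linarith
        · exact absurd ⟨fun h6 => absurd h6 (by linarith), fun h6 => absurd h6 (by linarith)⟩ hiff
    have hPQ : P - Q ≠ 0 := by
      rcases key with h | h
      · exact (by linarith [h.1, h.2] : P - Q < 0).ne
      · exact (by linarith [h.1, h.2] : (0:ℝ) < P - Q).ne'
    refine ⟨(P * q - Q * p) / (P - Q), ?_, ?_, ?_⟩
    · rcases key with h | h
      · rw [le_div_iff_of_neg (by linarith [h.1, h.2])]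
        nlinarith [h.1, h.2]
      · rw [le_div_iff₀ (by linarith [h.1, h.2])]
        nlinarith [h.1, h.2]
    · rcases key with h | h
      · rw [div_le_iff_of_neg (by linarith [h.1, h.2])]
        nlinarith [h.1, h.2]
      · rw [div_le_iff₀ (by linarith [h.1, h.2])]
        nlinarith [h.1, h.2]
    · have e := aff (a := a) (b := b) (u := u) (v := v) p q ((P * q - Q * p) / (P - Q))
      rw [← hP, ← hQ] at e
      have e2 : (q - (P * q - Q * p) / (P - Q)) * P + ((P * q - Q * p) / (P - Q) - p) * Q = 0 := by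
        field_simp
        ring
      rw [e2] at e
      rcases mul_eq_zero.mp e with h | h
      · linarith
      · linarith

open Classical in
/-- indicator in `ZMod 2` -/
noncomputable def ind (p : Prop) : ZMod 2 := if p then 1 else 0

lemma ind_congr {p q : Prop} (h : p ↔ q) : ind p = ind q := by
  rw [propext h]

lemma ind_false {p : Prop} (h : ¬ p) : ind p = 0 := by
  unfold ind; rw [if_neg h]

lemma ind_xor (p q : Prop) : ind (¬ (p ↔ q)) = ind p + ind q := by
  unfold ind
  by_cases hp : p <;> by_cases hq : q <;> simp [hp, hq]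
  decide

lemma add_self' (x : ZMod 2) : x + x = 0 := by
  revert x; decide

lemma local_lt {a b u v : ℝ × ℝ} (hab : a.1 < b.1) (huv : u.1 < v.1)
    (hau : a.1 ≠ u.1) (hav : a.1 ≠ v.1) (hbu : b.1 ≠ u.1) (hbv : b.1 ≠ v.1)
    (ha : a ∉ segment ℝ u v) (hb : b ∉ segment ℝ u v)
    (hu : u ∉ segment ℝ a b) (hv : v ∉ segment ℝ a b) :
    ind (segment ℝ a b ∩ segment ℝ u v).Nonempty =
      ind (low a u v) + ind (low b u v) + ind (upp u a b) + ind (upp v a b) := by
  rw [mem_seg huv] at ha hb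
  rw [mem_seg hab] at hu hv
  have hYa : Y a b a.1 = a.2 := by unfold Y; ring
  have hYb : Y a b b.1 = b.2 := by
    unfold Y
    have : b.1 - a.1 ≠ 0 := (sub_pos.mpr hab).ne'
    field_simp; ring
  have hYu : Y u v u.1 = u.2 := by unfold Y; ring
  have hYv : Y u v v.1 = v.2 := by
    unfold Y
    have : v.1 - u.1 ≠ 0 := (sub_pos.mpr huv).ne'
    field_simp; ring
  rw [ind_congr (inter_iff hab huv)]
  rcases lt_or_gt_of_ne hbu with h1 | h1
  · -- a < b < u < v
    rw [ind_false, ind_false, ind_false, ind_false, ind_false]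
    · ring
    · rintro ⟨h | h, -⟩ <;> linarith [h.1, h.2]
    · rintro ⟨h | h, -⟩ <;> linarith [h.1, h.2]
    · rintro ⟨h | h, -⟩ <;> linarith [h.1, h.2]
    · rintro ⟨h | h, -⟩ <;> linarith [h.1, h.2]
    · rintro ⟨x, h2, h3, h4, h5, -⟩
      linarith
  rcases lt_or_gt_of_ne hav with h2 | h2
  swap
  · -- u < v < a < b
    rw [ind_false, ind_false, ind_false, ind_false, ind_false]
    · ring
    · rintro ⟨h | h, -⟩ <;> linarith [h.1, h.2]
    · rintro ⟨h | h, -⟩ <;> linarith [h.1, h.2]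
    · rintro ⟨h | h, -⟩ <;> linarith [h.1, h.2]
    · rintro ⟨h | h, -⟩ <;> linarith [h.1, h.2]
    · rintro ⟨x, h2, h3, h4, h5, -⟩
      linarith
  rcases lt_or_gt_of_ne hau with h3 | h3
  · rcases lt_or_gt_of_ne hbv with h4 | h4
    · -- a < u < b < v
      have e1 : (∃ x, a.1 ≤ x ∧ x ≤ b.1 ∧ u.1 ≤ x ∧ x ≤ v.1 ∧ Y a b x = Y u v x) ↔
          (∃ x, u.1 ≤ x ∧ x ≤ b.1 ∧ Y a b x = Y u v x) := by
        constructor
        · rintro ⟨x, g1, g2, g3, g4, g5⟩; exact ⟨x, g3, g2, g5⟩
        · rintro ⟨x, g1, g2, g3⟩; exact ⟨x, by linarith, g2, g1, by linarith, g3⟩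
      have hp : Y a b u.1 ≠ Y u v u.1 := by
        rw [hYu]; intro h; exact hu ⟨h3.le, h1.le, h.symm⟩
      have hq : Y a b b.1 ≠ Y u v b.1 := by
        rw [hYb]; intro h; exact hb ⟨h1.le, h4.le, h⟩
      rw [ind_congr e1, ind_congr (zero_iff h1 hp hq), ind_xor]
      rw [ind_false (p := low a u v), ind_false (p := upp v a b)]
      · rw [ind_congr (p := low b u v) (q := Y a b b.1 < Y u v b.1),
          ind_congr (p := upp u a b) (q := Y a b u.1 < Y u v u.1)]
        · ring
        · rw [hYu]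
          exact ⟨fun h => h.2, fun h => ⟨Or.inl ⟨h3, h1⟩, h⟩⟩
        · rw [hYb]
          exact ⟨fun h => h.2, fun h => ⟨Or.inl ⟨h1, h4⟩, h⟩⟩
      · rintro ⟨h | h, -⟩ <;> linarith [h.1, h.2]
      · rintro ⟨h | h, -⟩ <;> linarith [h.1, h.2]
    · -- a < u < v < b
      have e1 : (∃ x, a.1 ≤ x ∧ x ≤ b.1 ∧ u.1 ≤ x ∧ x ≤ v.1 ∧ Y a b x = Y u v x) ↔
          (∃ x, u.1 ≤ x ∧ x ≤ v.1 ∧ Y a b x = Y u v x) := by
        constructor
        · rintro ⟨x, g1, g2, g3, g4, g5⟩; exact ⟨x, g3, g4, g5⟩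
        · rintro ⟨x, g1, g2, g3⟩; exact ⟨x, by linarith, by linarith, g1, by linarith, g3⟩
      have hp : Y a b u.1 ≠ Y u v u.1 := by
        rw [hYu]; intro h; exact hu ⟨h3.le, h1.le, h.symm⟩
      have hq : Y a b v.1 ≠ Y u v v.1 := by
        rw [hYv]; intro h; exact hv ⟨by linarith, h4.le, h.symm⟩
      rw [ind_congr e1, ind_congr (zero_iff huv hp hq), ind_xor]
      rw [ind_false (p := low a u v), ind_false (p := low b u v)]
      · rw [ind_congr (p := upp v a b) (q := Y a b v.1 < Y u v v.1),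
          ind_congr (p := upp u a b) (q := Y a b u.1 < Y u v u.1)]
        · ring
        · rw [hYu]
          exact ⟨fun h => h.2, fun h => ⟨Or.inl ⟨h3, h1⟩, h⟩⟩
        · rw [hYv]
          exact ⟨fun h => h.2, fun h => ⟨Or.inl ⟨by linarith, h4⟩, h⟩⟩
      · rintro ⟨h | h, -⟩ <;> linarith [h.1, h.2]
      · rintro ⟨h | h, -⟩ <;> linarith [h.1, h.2]
  · rcases lt_or_gt_of_ne hbv with h4 | h4
    · -- u < a < b < v
      have e1 : (∃ x, a.1 ≤ x ∧ x ≤ b.1 ∧ u.1 ≤ x ∧ x ≤ v.1 ∧ Y a b x = Y u v x) ↔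
          (∃ x, a.1 ≤ x ∧ x ≤ b.1 ∧ Y a b x = Y u v x) := by
        constructor
        · rintro ⟨x, g1, g2, g3, g4, g5⟩; exact ⟨x, g1, g2, g5⟩
        · rintro ⟨x, g1, g2, g3⟩; exact ⟨x, g1, g2, by linarith, by linarith, g3⟩
      have hp : Y a b a.1 ≠ Y u v a.1 := by
        rw [hYa]; intro h; exact ha ⟨h3.le, h2.le, h⟩
      have hq : Y a b b.1 ≠ Y u v b.1 := by
        rw [hYb]; intro h; exact hb ⟨by linarith, h4.le, h⟩
      rw [ind_congr e1, ind_congr (zero_iff hab hp hq), ind_xor]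
      rw [ind_false (p := upp u a b), ind_false (p := upp v a b)]
      · rw [ind_congr (p := low b u v) (q := Y a b b.1 < Y u v b.1),
          ind_congr (p := low a u v) (q := Y a b a.1 < Y u v a.1)]
        · ring
        · rw [hYa]
          exact ⟨fun h => h.2, fun h => ⟨Or.inl ⟨h3, h2⟩, h⟩⟩
        · rw [hYb]
          exact ⟨fun h => h.2, fun h => ⟨Or.inl ⟨by linarith, h4⟩, h⟩⟩
      · rintro ⟨h | h, -⟩ <;> linarith [h.1, h.2]
      · rintro ⟨h | h, -⟩ <;> linarith [h.1, h.2]
    · -- u < a < v < b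
      have e1 : (∃ x, a.1 ≤ x ∧ x ≤ b.1 ∧ u.1 ≤ x ∧ x ≤ v.1 ∧ Y a b x = Y u v x) ↔
          (∃ x, a.1 ≤ x ∧ x ≤ v.1 ∧ Y a b x = Y u v x) := by
        constructor
        · rintro ⟨x, g1, g2, g3, g4, g5⟩; exact ⟨x, g1, g4, g5⟩
        · rintro ⟨x, g1, g2, g3⟩; exact ⟨x, g1, by linarith, by linarith, g2, g3⟩
      have hp : Y a b a.1 ≠ Y u v a.1 := by
        rw [hYa]; intro h; exact ha ⟨h3.le, h2.le, h⟩
      have hq : Y a b v.1 ≠ Y u v v.1 := by
        rw [hYv]; intro h; exact hv ⟨h2.le, h4.le, h.symm⟩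
      rw [ind_congr e1, ind_congr (zero_iff h2 hp hq), ind_xor]
      rw [ind_false (p := upp u a b), ind_false (p := low b u v)]
      · rw [ind_congr (p := upp v a b) (q := Y a b v.1 < Y u v v.1),
          ind_congr (p := low a u v) (q := Y a b a.1 < Y u v a.1)]
        · ring
        · rw [hYa]
          exact ⟨fun h => h.2, fun h => ⟨Or.inl ⟨h3, h2⟩, h⟩⟩
        · rw [hYv]
          exact ⟨fun h => h.2, fun h => ⟨Or.inl ⟨h2, h4⟩, h⟩⟩
      · rintro ⟨h | h, -⟩ <;> linarith [h.1, h.2]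
      · rintro ⟨h | h, -⟩ <;> linarith [h.1, h.2]

lemma local_gen {a b u v : ℝ × ℝ} (hab : a.1 = b.1 → a = b) (huv : u.1 = v.1 → u = v)
    (hau : a.1 ≠ u.1) (hav : a.1 ≠ v.1) (hbu : b.1 ≠ u.1) (hbv : b.1 ≠ v.1)
    (ha : a ∉ segment ℝ u v) (hb : b ∉ segment ℝ u v)
    (hu : u ∉ segment ℝ a b) (hv : v ∉ segment ℝ a b) :
    ind (segment ℝ a b ∩ segment ℝ u v).Nonempty =
      ind (low a u v) + ind (low b u v) + ind (upp u a b) + ind (upp v a b) := by
  by_cases h : a.1 = b.1
  · obtain rfl := hab h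
    rw [ind_false, ind_false (p := upp u a a), ind_false (p := upp v a a), add_self']
    · ring
    · rintro ⟨h | h, -⟩ <;> linarith [h.1, h.2]
    · rintro ⟨h | h, -⟩ <;> linarith [h.1, h.2]
    · rintro ⟨z, hz, hz'⟩
      rw [segment_same, Set.mem_singleton_iff] at hz
      rw [hz] at hz'
      exact ha hz'
  by_cases h' : u.1 = v.1
  · obtain rfl := huv h'
    rw [ind_false, ind_false (p := low a u u), ind_false (p := low b u u), zero_add, zero_add,
      add_self']
    · rintro ⟨h | h, -⟩ <;> linarith [h.1, h.2]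
    · rintro ⟨h | h, -⟩ <;> linarith [h.1, h.2]
    · rintro ⟨z, hz, hz'⟩
      rw [segment_same, Set.mem_singleton_iff] at hz'
      rw [hz'] at hz
      exact hu hz
  rcases lt_or_gt_of_ne h with g | g
  · rcases lt_or_gt_of_ne h' with g' | g'
    · exact local_lt g g' hau hav hbu hbv ha hb hu hv
    · rw [segment_symm ℝ u v] at ha hb ⊢
      rw [local_lt g g' hav hau hbv hbu ha hb hv hu, ind_congr (low_swap (Ne.symm h') a),
        ind_congr (low_swap (Ne.symm h') b)]
      ring
  · rcases lt_or_gt_of_ne h' with g' | g'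
    · rw [segment_symm ℝ a b] at hu hv ⊢
      rw [local_lt g g' hbu hbv hau hav hb ha hu hv, ind_congr (upp_swap (Ne.symm h) u),
        ind_congr (upp_swap (Ne.symm h) v)]
      ring
    · rw [segment_symm ℝ a b] at hu hv ⊢
      rw [segment_symm ℝ u v] at ha hb ⊢
      rw [local_lt g g' hbv hbu hav hau hb ha hv hu, ind_congr (low_swap (Ne.symm h') a),
        ind_congr (low_swap (Ne.symm h') b), ind_congr (upp_swap (Ne.symm h) u),
        ind_congr (upp_swap (Ne.symm h) v)]
      ring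

open Classical in
/-- The theorem, if different vertices have different first coordinates. -/
lemma even_gen {ι κ : Type} [Fintype ι] [Fintype κ] (s : Equiv.Perm ι) (t : Equiv.Perm κ)
    (A : ι → ℝ × ℝ) (B : κ → ℝ × ℝ)
    (hAA : ∀ i i', (A i).1 = (A i').1 → A i = A i')
    (hBB : ∀ j j', (B j).1 = (B j').1 → B j = B j')
    (hAB : ∀ i j, (A i).1 = (B j).1 → A i = B j)
    (hA : ∀ i j, A i ∉ segment ℝ (B j) (B (t j)))
    (hB : ∀ i j, B j ∉ segment ℝ (A i) (A (s i))) :
    Even (Finset.univ.filter fun x : ι × κ =>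
      (segment ℝ (A x.1) (A (s x.1)) ∩ segment ℝ (B x.2) (B (t x.2))).Nonempty).card := by
  have hne : ∀ i j, (A i).1 ≠ (B j).1 := by
    intro i j h
    have := hAB i j h
    exact hA i j (this ▸ left_mem_segment ℝ _ _)
  have hB' : ∀ i j, B (t j) ∉ segment ℝ (A i) (A (s i)) := fun i j => hB i (t j)
  have hA' : ∀ i j, A (s i) ∉ segment ℝ (B j) (B (t j)) := fun i j => hA (s i) j
  have key : ∀ i j, ind (segment ℝ (A i) (A (s i)) ∩ segment ℝ (B j) (B (t j))).Nonempty =
      ind (low (A i) (B j) (B (t j))) + ind (low (A (s i)) (B j) (B (t j))) +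
      ind (upp (B j) (A i) (A (s i))) + ind (upp (B (t j)) (A i) (A (s i))) := by
    intro i j
    exact local_gen (hAA _ _) (hBB _ _) (hne _ _) (hne _ _) (hne _ _) (hne _ _) (hA i j) (hA' i j)
      (hB i j) (hB' i j)
  have hsum : ((Finset.univ.filter fun x : ι × κ =>
      (segment ℝ (A x.1) (A (s x.1)) ∩ segment ℝ (B x.2) (B (t x.2))).Nonempty).card : ZMod 2) = 0 := by
    rw [Finset.card_filter]
    push_cast
    have e1 : ∀ x : ι × κ, (if (segment ℝ (A x.1) (A (s x.1)) ∩
        segment ℝ (B x.2) (B (t x.2))).Nonempty then (1 : ZMod 2) else 0) =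
        ind (segment ℝ (A x.1) (A (s x.1)) ∩ segment ℝ (B x.2) (B (t x.2))).Nonempty := by
      intro x
      unfold ind
      congr
    simp_rw [e1, key]
    rw [Fintype.sum_prod_type]
    simp only [Finset.sum_add_distrib]
    have e2 : ∑ i, ∑ j, ind (low (A (s i)) (B j) (B (t j))) =
        ∑ i, ∑ j, ind (low (A i) (B j) (B (t j))) :=
      Equiv.sum_comp s (fun i => ∑ j, ind (low (A i) (B j) (B (t j))))
    have e3 : ∀ i, ∑ j, ind (upp (B (t j)) (A i) (A (s i))) = ∑ j, ind (upp (B j) (A i) (A (s i))) :=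
      fun i => Equiv.sum_comp t (fun j => ind (upp (B j) (A i) (A (s i))))
    rw [e2]
    simp_rw [e3]
    rw [add_self', zero_add, add_self']
  exact (ZMod.natCast_eq_zero_iff_even).mp hsum

/-- the shear -/
noncomputable def shear (ε : ℝ) : (ℝ × ℝ) →ₗ[ℝ] (ℝ × ℝ) where
  toFun z := (z.1 + ε * z.2, z.2)
  map_add' z w := by
    ext
    · simp only [Prod.fst_add, Prod.snd_add]; ring
    · simp only [Prod.snd_add]
  map_smul' c z := by
    ext
    · simp only [Prod.smul_fst, Prod.smul_snd, smul_eq_mul, RingHom.id_apply]; ring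
    · simp only [Prod.smul_snd, RingHom.id_apply]

lemma shear_inj (ε : ℝ) : Function.Injective (shear ε) := by
  intro z w h
  have h1 : (shear ε z).1 = (shear ε w).1 := by rw [h]
  have h2 : (shear ε z).2 = (shear ε w).2 := by rw [h]
  change z.1 + ε * z.2 = w.1 + ε * w.2 at h1
  change z.2 = w.2 at h2
  ext
  · rw [h2] at h1; linarith
  · exact h2

lemma shear_seg (ε : ℝ) (a b : ℝ × ℝ) :
    segment ℝ (shear ε a) (shear ε b) = shear ε '' segment ℝ a b := by
  have := image_segment ℝ (shear ε).toAffineMap a b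
  simpa using this.symm

lemma exists_shear (P : Finset (ℝ × ℝ)) :
    ∃ ε : ℝ, ∀ p ∈ P, ∀ q ∈ P, (shear ε p).1 = (shear ε q).1 → p = q := by
  classical
  obtain ⟨ε, hε⟩ := Infinite.exists_notMem_finset
    ((P ×ˢ P).image fun x : (ℝ × ℝ) × (ℝ × ℝ) => (x.2.1 - x.1.1) / (x.1.2 - x.2.2))
  refine ⟨ε, fun p hp q hq h => ?_⟩
  change p.1 + ε * p.2 = q.1 + ε * q.2 at h
  by_cases h2 : p.2 = q.2
  · ext
    · rw [h2] at h; linarith
    · exact h2
  · exfalso
    apply hε
    rw [Finset.mem_image]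
    refine ⟨(p, q), Finset.mem_product.mpr ⟨hp, hq⟩, ?_⟩
    have h3 : p.2 - q.2 ≠ 0 := sub_ne_zero.mpr h2
    simp only
    rw [div_eq_iff h3]
    linarith

end GaussA

open Classical in
theorem even_cross {ι κ : Type} [Fintype ι] [Fintype κ] (s : Equiv.Perm ι) (t : Equiv.Perm κ)
    (A : ι → ℝ × ℝ) (B : κ → ℝ × ℝ)
    (hA : ∀ i j, A i ∉ segment ℝ (B j) (B (t j)))
    (hB : ∀ i j, B j ∉ segment ℝ (A i) (A (s i))) :
    Even (Finset.univ.filter fun x : ι × κ =>
      (segment ℝ (A x.1) (A (s x.1)) ∩ segment ℝ (B x.2) (B (t x.2))).Nonempty).card := by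
  obtain ⟨ε, hε⟩ := GaussA.exists_shear (Finset.univ.image A ∪ Finset.univ.image B)
  have mA : ∀ i, A i ∈ Finset.univ.image A ∪ Finset.univ.image B := fun i =>
    Finset.mem_union_left _ (Finset.mem_image_of_mem _ (Finset.mem_univ _))
  have mB : ∀ j, B j ∈ Finset.univ.image A ∪ Finset.univ.image B := fun j =>
    Finset.mem_union_right _ (Finset.mem_image_of_mem _ (Finset.mem_univ _))
  have hmem : ∀ z a b : ℝ × ℝ, GaussA.shear ε z ∈ segment ℝ (GaussA.shear ε a) (GaussA.shear ε b) ↔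
      z ∈ segment ℝ a b := by
    intro z a b
    rw [GaussA.shear_seg, (GaussA.shear_inj ε).mem_set_image]
  have h := GaussA.even_gen s t (fun i => GaussA.shear ε (A i)) (fun j => GaussA.shear ε (B j))
    (fun i i' h => congrArg _ (hε _ (mA i) _ (mA i') h))
    (fun j j' h => congrArg _ (hε _ (mB j) _ (mB j') h))
    (fun i j h => congrArg _ (hε _ (mA i) _ (mB j) h))
    (fun i j => by rw [hmem]; exact hA i j)
    (fun i j => by rw [hmem]; exact hB i j)
  have e : (Finset.univ.filter fun x : ι × κ =>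
      (segment ℝ (A x.1) (A (s x.1)) ∩ segment ℝ (B x.2) (B (t x.2))).Nonempty) =
      (Finset.univ.filter fun x : ι × κ =>
      (segment ℝ (GaussA.shear ε (A x.1)) (GaussA.shear ε (A (s x.1))) ∩
        segment ℝ (GaussA.shear ε (B x.2)) (GaussA.shear ε (B (t x.2)))).Nonempty) := by
    ext x
    simp only [Finset.mem_filter, Finset.mem_univ, true_and]
    rw [GaussA.shear_seg, GaussA.shear_seg, ← Set.image_inter (GaussA.shear_inj ε),
      Set.image_nonempty]
  rw [e]
  exact h

end Pool.Agent.H756.RW
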