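import Pool.Agent.H756.RW.GaussA
import Pool.Agent.H756.RW.Alg
import Pool.Agent.H756.RP.Defs
import Pool.Agent.H756.RP.Desc

set_option autoImplicit false

/-!
# Gauss: all chords of the Gauss word of a closed polygon cross an even number of chords

`Describes p G w` is in `RP/Defs.lean`, `deg G c` is the number of the chords `j` with `Crosses G c j`
(`RW/Alg.lean`; do not use the `sorry` of that file), `Crosses` is in `Pool/Graph/R_seed8/H832R2/JR/Defs.lean`.

Paper proof.  Let `a`, `t` be as in `Describes`, and let `γ (i, r)` be the projection (first two coordinates) of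
`ept p i r`; it is an affine function of `r`.  The parameters are `(i, r)`, `0 ≤ r < 1`, in lexicographic order; a
multiple point of `γ` has exactly two parameters, which are the two passages of a crossing, and they are not
vertices (`0 < t x`).  So the vertices `γ (i, 0)` are different and not on other edges.  Let the
passages of the crossing `c` be `(i, r₁)` and `(k, r₂)`, `C` the crossing point, `i < k` (`det ≠ 0` gives `i ≠ k`, and
one may exchange the passages; `Btw` is symmetric).  A passage `(e, r)` is strictly between the two passages of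
`c` iff (`i < e` or `e = i` and `r₁ < r`) and (`e < k` or `e = k` and `r < r₂`).
Let `L` be the closed polygon with the vertices `C, p (i + 1), …, p k` (the loop; it starts on the edge `i` at the
parameter `r₁` and ends on the edge `k` at the parameter `r₂`), and `R` the closed polygon with the vertices
`z₁, p (k + 1), …, p (n - 1), p 0, …, p i, z₂`, where `z₁ = γ (k, r₂ + η)` is on the edge `k` after `C` and
`z₂ = γ (i, r₁ - η)` is on the edge `i` before `C`, `η > 0` small; its last edge is the segment from `z₂` to `z₁`.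
(`p (k + 1)` means `p 0` if `k = n - 1`.)
(1) The edges of `L` which do not contain `C`, and all the vertices of `L` except `C`, have a positive distance from `C`
(`C` has only the two parameters `(i, r₁)`, `(k, r₂)`; compactness, finitely many edges).  So for small `η` they do not
meet the triangle `C z₁ z₂`.  The two edges of `L` at `C` are in the directions `d_i` (of the edge `i`) and `- d_k`
from `C`, and a point of the segment `z₁ z₂` is `C + η (μ d_k - (1 - μ) d_i)`, `0 ≤ μ ≤ 1`; as `d_i`, `d_k` are linearly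
independent this is not `C + λ d_i` and not `C - λ d_k` with `λ ≥ 0`.  So the segment `z₁ z₂` does not meet `L`.
(2) No vertex of `L` is on `R` and no vertex of `R` is on `L` (for the vertices of the polygon see above; `C` has only
the parameters `(i, r₁)`, `(k, r₂)`; `z₁`, `z₂` are not on `L` by (1)).
(3) By `even_cross` the number of the pairs (edge of `L`, edge of `R`) with a common point is even.  By (1) the segment
`z₁ z₂` is in no such pair.  Two edges have at most one common point (two common points would be two crossings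
of the same two edges of the polygon, but at a crossing the edges are not parallel: `det ≠ 0`).  A common point of an
edge of `L` and an edge of `R` is a double point of `γ`, i.e. a crossing `j ≠ c`, with one passage
strictly between the two passages of `c` and the other one not; conversely every chord `j` which crosses `c` gives
such a pair (its passages on the edge `k` after `C` are not between `C` and `z₁` by (1), and so on).  So the number
is `deg G c`.
(Variant, if more convenient: the edges of `L` and `R` can be indexed by subtypes of `Option (Fin n)` or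
`Fin (n + 2)` with suitable permutations; only the sets of edges and `A ∘ s` matter.)
-/

namespace Pool.Agent.H756.RW

open Pool.Agent.H756.RP
open Pool.Agent.H832R2.JR (GaussWord)

namespace GB

open Set Filter Topology

variable {n : ℕ}

/-- the projection of a vertex -/
def P (p : Fin n → Pt) (e : Fin n) : ℝ × ℝ := ((p e).1, (p e).2.1)

/-- the projection of an edge -/
noncomputable def g (p : Fin n → Pt) (e : Fin n) : ℝ →ᵃ[ℝ] ℝ × ℝ :=
  AffineMap.lineMap (P p e) (P p (nx e))

theorem g_fst (p : Fin n → Pt) (e : Fin n) (r : ℝ) : (g p e r).1 = (ept p e r).1 := by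
  rw [ept_x]
  simp only [g, P, AffineMap.lineMap_apply_module, Prod.fst_add, Prod.smul_fst, smul_eq_mul]

theorem g_snd (p : Fin n → Pt) (e : Fin n) (r : ℝ) : (g p e r).2 = (ept p e r).2.1 := by
  rw [ept_y]
  simp only [g, P, AffineMap.lineMap_apply_module, Prod.snd_add, Prod.smul_snd, smul_eq_mul]

theorem g_zero (p : Fin n → Pt) (e : Fin n) : g p e 0 = P p e := by simp [g]

theorem g_one (p : Fin n → Pt) (e : Fin n) : g p e 1 = g p (nx e) 0 := by simp [g]

theorem g_eq (p : Fin n → Pt) (i j : Fin n) (s r : ℝ) :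
    g p i s = g p j r ↔ (ept p i s).1 = (ept p j r).1 ∧ (ept p i s).2.1 = (ept p j r).2.1 := by
  rw [Prod.ext_iff, g_fst, g_fst, g_snd, g_snd]

theorem seg (p : Fin n → Pt) (e : Fin n) {u v : ℝ} (h : u ≤ v) :
    segment ℝ (g p e u) (g p e v) = g p e '' Icc u v := by
  rw [← segment_eq_Icc h, image_segment]

theorem nx_val (e : Fin n) : ((nx e : Fin n) : ℕ) = if (e : ℕ) + 1 < n then (e : ℕ) + 1 else 0 := by
  obtain ⟨m, rfl⟩ : ∃ m, n = m + 1 := ⟨n - 1, by have := e.2; omega⟩
  unfold nx
  rw [finRotate_apply, Fin.val_add_one]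
  have h2 := e.2
  by_cases h : e = Fin.last m
  · rw [if_pos h, if_neg]
    rw [h, Fin.val_last]; omega
  · rw [if_neg h, if_pos]
    have h3 : (e : ℕ) ≠ m := fun h4 => h (Fin.ext (by rw [Fin.val_last]; exact h4))
    omega

theorem nx_inj : Function.Injective (nx : Fin n → Fin n) := (finRotate n).injective

theorem btw_swap {a b x : ℕ} : Pool.Agent.H832R2.JR.Btw a b x ↔ Pool.Agent.H832R2.JR.Btw b a x := by
  unfold Pool.Agent.H832R2.JR.Btw
  tauto

section loop

variable {N : ℕ} {p : Fin n → Pt} {G : GaussWord N} {a : Fin N × Bool → Fin n} {t : Fin N × Bool → ℝ}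

/-- the data of `Describes` which we use -/
structure Dsc (p : Fin n → Pt) (G : GaussWord N) (a : Fin N × Bool → Fin n) (t : Fin N × Bool → ℝ) :
    Prop where
  pos : ∀ x, 0 < t x
  lt : ∀ x, t x < 1
  same : ∀ c b, g p (a (c, b)) (t (c, b)) = g p (a (c, !b)) (t (c, !b))
  dbl : ∀ (i j : Fin n) (s r : ℝ), 0 ≤ s → s < 1 → 0 ≤ r → r < 1 → (i, s) ≠ (j, r) →
    g p i s = g p j r → ∃ c b, a (c, b) = i ∧ t (c, b) = s ∧ a (c, !b) = j ∧ t (c, !b) = r
  ord : ∀ x y, G x < G y ↔ a x < a y ∨ (a x = a y ∧ t x < t y)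
  det : ∀ c b, det p (a (c, b)) (a (c, !b)) ≠ 0

theorem dsc {w : Fin N → Bool} (h : Describes p G w) : ∃ a t, Dsc p G a t := by
  obtain ⟨a, t, h1, h2, h3, h4, h5⟩ := h
  refine ⟨a, t, fun x => (h1 x).1, fun x => (h1 x).2, ?_, ?_, h4, ?_⟩
  · intro c b
    cases b
    · exact (g_eq _ _ _ _ _).2 (h2 c)
    · exact ((g_eq _ _ _ _ _).2 (h2 c)).symm
  · intro i j s r hs hs1 hr hr1 hne he
    rw [g_eq] at he
    exact h3 i j s r hs hs1 hr hr1 hne he.1 he.2
  · intro c b
    cases b
    · exact (h5 c).1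
    · have := (h5 c).1
      rw [det_swap] at this
      exact neg_ne_zero.1 this

theorem Dsc.inj (D : Dsc p G a t) {x y : Fin N × Bool} (h1 : a x = a y) (h2 : t x = t y) : x = y := by
  apply G.injective
  apply le_antisymm
  · rw [← not_lt, D.ord]
    rintro (h | h)
    · exact h.ne h1.symm
    · exact h.2.ne h2.symm
  · rw [← not_lt, D.ord]
    rintro (h | h)
    · exact h.ne h1
    · exact h.2.ne h2

variable (i k : Fin n) (r₁ r₂ η : ℝ)

/-- the range of the parameters of the edge `e` in the loop -/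
noncomputable def lo (e : Fin n) : ℝ := if e = i then r₁ else 0
/-- the range of the parameters of the edge `e` in the loop -/
noncomputable def hi (e : Fin n) : ℝ := if e = k then r₂ else 1
/-- the range of the parameters of the edge `e` in the rest -/
noncomputable def lo' (e : Fin n) : ℝ := if e = k then r₂ + η else 0
/-- the range of the parameters of the edge `e` in the rest -/
noncomputable def hi' (e : Fin n) : ℝ := if e = i then r₁ - η else 1

/-- the position of a parameter between the two passages -/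
def Mid (e : Fin n) (r : ℝ) : Prop := (i < e ∨ (i = e ∧ r₁ < r)) ∧ (e < k ∨ (e = k ∧ r < r₂))

variable {i k r₁ r₂ η}

/-- the analysis of the common points of the loop and the rest -/
theorem common (D : Dsc p G a t) (c : Fin N) (b₀ : Bool) (hi₁ : a (c, b₀) = i) (hk₁ : a (c, !b₀) = k)
    (ht₁ : t (c, b₀) = r₁) (ht₂ : t (c, !b₀) = r₂) (_hik : i < k) (hη : 0 < η)
    {e e' : Fin n} {r r' : ℝ} (he : i ≤ e ∧ e ≤ k) (he' : e' ≤ i ∨ k ≤ e')
    (hr : lo i r₁ e ≤ r ∧ r ≤ hi k r₂ e) (hr' : lo' k r₂ η e' ≤ r' ∧ r' ≤ hi' i r₁ η e')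
    (hg : g p e r = g p e' r') :
    ∃ j b, a (j, b) = e ∧ t (j, b) = r ∧ a (j, !b) = e' ∧ t (j, !b) = r' ∧
      Mid i k r₁ r₂ e r ∧ ¬ Mid i k r₁ r₂ e' r' := by
  have hr1p : 0 < r₁ := by rw [← ht₁]; exact D.pos _
  have hr1l : r₁ < 1 := by rw [← ht₁]; exact D.lt _
  have hr2p : 0 < r₂ := by rw [← ht₂]; exact D.pos _
  have hr2l : r₂ < 1 := by rw [← ht₂]; exact D.lt _
  unfold lo hi at hr
  unfold lo' hi' at hr'
  have hr0 : 0 ≤ r := by
    refine le_trans ?_ hr.1
    split_ifs
    · exact hr1p.le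
    · exact le_rfl
  have hr1 : r ≤ 1 := by
    refine le_trans hr.2 ?_
    split_ifs
    · exact hr2l.le
    · exact le_rfl
  have hr0' : 0 ≤ r' := by
    refine le_trans ?_ hr'.1
    split_ifs
    · linarith
    · exact le_rfl
  have hr1' : r' ≤ 1 := by
    refine le_trans hr'.2 ?_
    split_ifs
    · linarith
    · exact le_rfl
  have hnk : r = 1 → e ≠ k := by
    intro h1 h2
    rw [if_pos h2] at hr
    linarith [hr.2]
  have hni : r = 0 → e ≠ i := by
    intro h1 h2
    rw [if_pos h2] at hr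
    linarith [hr.1]
  have hnk' : r' = 0 → e' ≠ k := by
    intro h1 h2
    rw [if_pos h2] at hr'
    linarith [hr'.1]
  have hni' : r' = 1 → e' ≠ i := by
    intro h1 h2
    rw [if_pos h2] at hr'
    linarith [hr'.2]
  -- two parameters with the same point, one of them a vertex, are equal
  have hv : ∀ (x y : Fin n) (s : ℝ), 0 ≤ s → s < 1 → g p x 0 = g p y s → x = y ∧ s = 0 := by
    intro x y s hs0 hs1 hxy
    by_contra hc
    obtain ⟨j, b, -, h2, -, -⟩ := D.dbl x y 0 s le_rfl one_pos hs0 hs1 (by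
      intro h
      rw [Prod.mk.injEq] at h
      exact hc ⟨h.1, h.2.symm⟩) hxy
    exact (D.pos (j, b)).ne' h2
  have hnxe : ∀ x : Fin n, x < k → ((nx x : Fin n) : ℕ) = (x : ℕ) + 1 := by
    intro x hx
    rw [nx_val, if_pos]
    have := k.2
    have hx' : (x : ℕ) < k := hx
    omega
  have hrlt : r < 1 := by
    rcases hr1.lt_or_eq with h | h
    · exact h
    exfalso
    have hek : e < k := lt_of_le_of_ne he.2 (hnk h)
    have h1 := hnxe e hek
    have hek' : (e : ℕ) < k := hek
    have hie' : (i : ℕ) ≤ e := he.1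
    rw [h, g_one] at hg
    rcases hr1'.lt_or_eq with h' | h'
    · obtain ⟨h2, h3⟩ := hv _ _ _ hr0' h' hg
      have h4 : e' = k := by
        rcases he' with h5 | h5
        · exfalso
          have h6 : (e' : ℕ) ≤ i := h5
          rw [← h2] at h6
          omega
        · have h6 : (k : ℕ) ≤ e' := h5
          apply Fin.ext
          rw [← h2] at h6 ⊢
          omega
      exact hnk' h3 h4
    · rw [h', g_one] at hg
      obtain ⟨h2, -⟩ := hv _ _ _ le_rfl one_pos hg
      have h3 := nx_inj h2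
      subst h3
      rcases he' with h5 | h5
      · exact hni' h' (le_antisymm h5 he.1)
      · exact absurd hek (not_lt.2 h5)
  have hrlt' : r' < 1 := by
    rcases hr1'.lt_or_eq with h' | h'
    · exact h'
    exfalso
    rw [h', g_one] at hg
    obtain ⟨h2, h3⟩ := hv _ _ _ hr0 hrlt hg.symm
    have hne := hni h3
    have hie : i < e := lt_of_le_of_ne he.1 (Ne.symm hne)
    have hie' : (i : ℕ) < e := hie
    have hek' : (e : ℕ) ≤ k := he.2
    have h4 : ((nx e' : Fin n) : ℕ) = e := by rw [h2]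
    rw [nx_val] at h4
    have h5 : (e' : ℕ) + 1 = e := by
      split_ifs at h4
      · exact h4
      · omega
    have h6 : e' = i := by
      rcases he' with h7 | h7
      · have h8 : (e' : ℕ) ≤ i := h7
        apply Fin.ext
        omega
      · exfalso
        have h8 : (k : ℕ) ≤ e' := h7
        omega
    exact hni' h' h6
  have hne : (e, r) ≠ (e', r') := by
    intro h
    rw [Prod.mk.injEq] at h
    obtain ⟨h1, h2⟩ := h
    subst h1
    subst h2
    rcases he' with h5 | h5
    · have h6 : e = i := le_antisymm h5 he.1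
      rw [if_pos h6] at hr hr'
      linarith [hr.1, hr'.2]
    · have h6 : e = k := le_antisymm he.2 h5
      rw [if_pos h6] at hr hr'
      linarith [hr.2, hr'.1]
  obtain ⟨j, b, h1, h2, h3, h4⟩ := D.dbl e e' r r' hr0 hrlt hr0' hrlt' hne hg
  refine ⟨j, b, h1, h2, h3, h4, ⟨?_, ?_⟩, ?_⟩
  · rcases he.1.lt_or_eq with h5 | h5
    · exact Or.inl h5
    · right
      refine ⟨h5, ?_⟩
      rw [if_pos h5.symm] at hr
      rcases hr.1.lt_or_eq with h6 | h6
      · exact h6
      exfalso
      have h7 : (j, b) = (c, b₀) := D.inj (by rw [h1, hi₁, h5]) (by rw [h2, ht₁, h6])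
      rw [Prod.mk.injEq] at h7
      rw [h7.1, h7.2] at h3 h4
      rw [hk₁] at h3
      rw [ht₂] at h4
      rw [if_pos h3.symm] at hr'
      linarith [hr'.1]
  · rcases he.2.lt_or_eq with h5 | h5
    · exact Or.inl h5
    · right
      refine ⟨h5, ?_⟩
      rw [if_pos h5] at hr
      rcases hr.2.lt_or_eq with h6 | h6
      · exact h6
      exfalso
      have h7 : (j, b) = (c, !b₀) := D.inj (by rw [h1, hk₁, h5]) (by rw [h2, ht₂, h6])
      rw [Prod.mk.injEq] at h7
      rw [h7.1, h7.2, Bool.not_not] at h3 h4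
      rw [hi₁] at h3
      rw [ht₁] at h4
      rw [if_pos h3.symm] at hr'
      linarith [hr'.2]
  · rintro ⟨h5, h6⟩
    rcases he' with h7 | h7
    · have h8 : i = e' := by
        rcases h5 with h5 | h5
        · exact absurd h5 (not_lt.2 h7)
        · exact h5.1
      rw [if_pos h8.symm] at hr'
      rcases h5 with h5 | h5
      · exact absurd h5 (not_lt.2 h7)
      · linarith [h5.2, hr'.2]
    · have h8 : e' = k := by
        rcases h6 with h6 | h6
        · exact absurd h6 (not_lt.2 h7)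
        · exact h6.1
      rw [if_pos h8] at hr'
      rcases h6 with h6 | h6
      · exact absurd h6 (not_lt.2 h7)
      · linarith [h6.2, hr'.1]

theorem g_fst' (p : Fin n → Pt) (e : Fin n) (r : ℝ) :
    (g p e r).1 = (1 - r) * (p e).1 + r * (p (nx e)).1 := by rw [g_fst, ept_x]

theorem g_snd' (p : Fin n → Pt) (e : Fin n) (r : ℝ) :
    (g p e r).2 = (1 - r) * (p e).2.1 + r * (p (nx e)).2.1 := by rw [g_snd, ept_y]

theorem g_cont (p : Fin n → Pt) (e : Fin n) : Continuous (g p e) :=
  (g p e).continuous_of_finiteDimensional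

/-- the point `C` is not on other edges -/
theorem notC (D : Dsc p G a t) (c : Fin N) (b₀ : Bool) (hi₁ : a (c, b₀) = i) (hk₁ : a (c, !b₀) = k)
    (ht₁ : t (c, b₀) = r₁) {e : Fin n} (he : i < e) (he' : e < k)
    {s : ℝ} (hs0 : 0 ≤ s) (hs1 : s ≤ 1) : g p e s ≠ g p i r₁ := by
  intro h
  have hr1p : 0 < r₁ := by rw [← ht₁]; exact D.pos _
  have hr1l : r₁ < 1 := by rw [← ht₁]; exact D.lt _
  rcases hs1.lt_or_eq with h1 | h1
  · obtain ⟨j, b, h2, h3, h4, h5⟩ := D.dbl e i s r₁ hs0 h1 hr1p.le hr1l (by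
      intro h6
      rw [Prod.mk.injEq] at h6
      exact he.ne' h6.1) h
    have h7 : (j, !b) = (c, b₀) := D.inj (by rw [h4, hi₁]) (by rw [h5, ht₁])
    rw [Prod.mk.injEq] at h7
    have h8 : b = !b₀ := by rw [← h7.2, Bool.not_not]
    rw [h7.1, h8, hk₁] at h2
    exact he'.ne h2.symm
  · rw [h1, g_one] at h
    obtain ⟨j, b, h2, h3, h4, h5⟩ := D.dbl (nx e) i 0 r₁ le_rfl one_pos hr1p.le hr1l (by
      intro h6
      rw [Prod.mk.injEq] at h6
      exact hr1p.ne h6.2) h
    exact (D.pos (j, b)).ne' h3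

/-- the corner segment does not meet the loop -/
theorem corner (D : Dsc p G a t) (c : Fin N) (b₀ : Bool) (hi₁ : a (c, b₀) = i) (hk₁ : a (c, !b₀) = k)
    (ht₁ : t (c, b₀) = r₁) (ht₂ : t (c, !b₀) = r₂) (hik : i < k) :
    ∀ᶠ η in 𝓝[>] (0 : ℝ), ∀ e : Fin n, i ≤ e → e ≤ k → ∀ r, lo i r₁ e ≤ r → r ≤ hi k r₂ e →
      g p e r ∉ segment ℝ (g p i (r₁ - η)) (g p k (r₂ + η)) := by
  have hC : g p i r₁ = g p k r₂ := by
    have := D.same c b₀
    rwa [hi₁, hk₁, ht₁, ht₂] at this
  have hdet : det p i k ≠ 0 := by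
    have := D.det c b₀
    rwa [hi₁, hk₁] at this
  have hC1 : (1 - r₁) * (p i).1 + r₁ * (p (nx i)).1 = (1 - r₂) * (p k).1 + r₂ * (p (nx k)).1 := by
    have := congrArg Prod.fst hC
    rwa [g_fst', g_fst'] at this
  have hC2 : (1 - r₁) * (p i).2.1 + r₁ * (p (nx i)).2.1 =
      (1 - r₂) * (p k).2.1 + r₂ * (p (nx k)).2.1 := by
    have := congrArg Prod.snd hC
    rwa [g_snd', g_snd'] at this
  rw [eventually_all]
  intro e
  by_cases h1 : e = i
  · subst h1
    filter_upwards [self_mem_nhdsWithin] with η hη _ _ r hr0 _ hmem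
    have hη' : 0 < η := hη
    unfold lo at hr0
    rw [if_pos rfl] at hr0
    rw [segment_eq_image] at hmem
    obtain ⟨μ, ⟨hμ0, hμ1⟩, hμ⟩ := hmem
    have e1 := congrArg Prod.fst hμ
    have e2 := congrArg Prod.snd hμ
    simp only [Prod.fst_add, Prod.smul_fst, Prod.snd_add, Prod.smul_snd, smul_eq_mul, g_fst',
      g_snd'] at e1 e2
    have k1 : (r - r₁ + (1 - μ) * η) * det p e k = 0 := by
      unfold det
      linear_combination (-(p (nx k)).2.1 + (p k).2.1) * (e1 + μ * hC1) +
        ((p (nx k)).1 - (p k).1) * (e2 + μ * hC2)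
    have k2 : (μ * η) * det p e k = 0 := by
      unfold det
      linear_combination (-(p (nx e)).2.1 + (p e).2.1) * (e1 + μ * hC1) +
        ((p (nx e)).1 - (p e).1) * (e2 + μ * hC2)
    have k3 := (mul_eq_zero.1 k1).resolve_right hdet
    have k4 := (mul_eq_zero.1 k2).resolve_right hdet
    have k5 : μ = 0 := (mul_eq_zero.1 k4).resolve_right hη'.ne'
    rw [k5] at k3
    linarith
  by_cases h2 : e = k
  · subst h2
    filter_upwards [self_mem_nhdsWithin] with η hη _ _ r _ hr1 hmem
    have hη' : 0 < η := hη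
    unfold hi at hr1
    rw [if_pos rfl] at hr1
    rw [segment_eq_image] at hmem
    obtain ⟨μ, ⟨hμ0, hμ1⟩, hμ⟩ := hmem
    have e1 := congrArg Prod.fst hμ
    have e2 := congrArg Prod.snd hμ
    simp only [Prod.fst_add, Prod.smul_fst, Prod.snd_add, Prod.smul_snd, smul_eq_mul, g_fst',
      g_snd'] at e1 e2
    have k1 : (r - r₂ - μ * η) * det p i e = 0 := by
      unfold det
      linear_combination ((p (nx i)).2.1 - (p i).2.1) * (e1 - (1 - μ) * hC1) -
        ((p (nx i)).1 - (p i).1) * (e2 - (1 - μ) * hC2)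
    have k2 : ((1 - μ) * η) * det p i e = 0 := by
      unfold det
      linear_combination (-(p (nx e)).2.1 + (p e).2.1) * (e1 - (1 - μ) * hC1) +
        ((p (nx e)).1 - (p e).1) * (e2 - (1 - μ) * hC2)
    have k3 := (mul_eq_zero.1 k1).resolve_right hdet
    have k4 := (mul_eq_zero.1 k2).resolve_right hdet
    have k5 : 1 - μ = 0 := (mul_eq_zero.1 k4).resolve_right hη'.ne'
    have k6 : μ = 1 := by linarith
    rw [k6] at k3
    linarith
  by_cases h3 : i < e ∧ e < k
  · have hcl : IsClosed (g p e '' Icc 0 1) := (isCompact_Icc.image (g_cont p e)).isClosed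
    have hCm : g p i r₁ ∈ (g p e '' Icc 0 1)ᶜ := by
      rintro ⟨s, ⟨hs0, hs1⟩, hs⟩
      exact notC D c b₀ hi₁ hk₁ ht₁ h3.1 h3.2 hs0 hs1 hs
    obtain ⟨δ, hδ, hball⟩ := Metric.isOpen_iff.1 hcl.isOpen_compl _ hCm
    have t1 : Tendsto (fun η : ℝ => g p i (r₁ - η)) (𝓝[>] 0) (𝓝 (g p i r₁)) := by
      have : Tendsto (fun η : ℝ => g p i (r₁ - η)) (𝓝 0) (𝓝 (g p i (r₁ - 0))) :=
        ((g_cont p i).comp (continuous_const.sub continuous_id)).tendsto 0
      rw [sub_zero] at this
      exact this.mono_left nhdsWithin_le_nhds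
    have t2 : Tendsto (fun η : ℝ => g p k (r₂ + η)) (𝓝[>] 0) (𝓝 (g p i r₁)) := by
      have : Tendsto (fun η : ℝ => g p k (r₂ + η)) (𝓝 0) (𝓝 (g p k (r₂ + 0))) :=
        ((g_cont p k).comp (continuous_const.add continuous_id)).tendsto 0
      rw [add_zero, ← hC] at this
      exact this.mono_left nhdsWithin_le_nhds
    filter_upwards [t1 (Metric.ball_mem_nhds _ hδ), t2 (Metric.ball_mem_nhds _ hδ)] with η m1 m2
    intro _ _ r hr0 hr1 hmem
    have h4 : g p e r ∈ Metric.ball (g p i r₁) δ :=
      (convex_ball (g p i r₁) δ).segment_subset m1 m2 hmem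
    apply hball h4
    unfold lo at hr0
    unfold hi at hr1
    rw [if_neg h1] at hr0
    rw [if_neg h2] at hr1
    exact ⟨r, ⟨hr0, hr1⟩, rfl⟩
  · apply Eventually.of_forall
    intro η h4 h5
    exfalso
    apply h3
    exact ⟨lt_of_le_of_ne h4 (Ne.symm h1), lt_of_le_of_ne h5 h2⟩

/-- the choice of `η` -/
theorem exists_eta (D : Dsc p G a t) (c : Fin N) (b₀ : Bool) (hi₁ : a (c, b₀) = i)
    (hk₁ : a (c, !b₀) = k) (ht₁ : t (c, b₀) = r₁) (ht₂ : t (c, !b₀) = r₂) (hik : i < k) :
    ∃ η : ℝ, 0 < η ∧ η < r₁ ∧ r₂ + η < 1 ∧ (∀ x, r₂ < t x → r₂ + η < t x) ∧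
      (∀ x, t x < r₁ → t x < r₁ - η) ∧
      ∀ e : Fin n, i ≤ e → e ≤ k → ∀ r, lo i r₁ e ≤ r → r ≤ hi k r₂ e →
      g p e r ∉ segment ℝ (g p i (r₁ - η)) (g p k (r₂ + η)) := by
  have hr1p : 0 < r₁ := by rw [← ht₁]; exact D.pos _
  have hr2l : r₂ < 1 := by rw [← ht₂]; exact D.lt _
  have hlt : ∀ d : ℝ, 0 < d → ∀ᶠ η in 𝓝[>] (0 : ℝ), η < d := fun d hd =>
    nhdsWithin_le_nhds (Iio_mem_nhds hd)
  have c1 : ∀ᶠ η in 𝓝[>] (0 : ℝ), ∀ x, r₂ < t x → r₂ + η < t x := by
    rw [eventually_all]
    intro x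
    by_cases hx : r₂ < t x
    · filter_upwards [hlt (t x - r₂) (by linarith)] with η hη _
      linarith
    · exact Eventually.of_forall fun η h => absurd h hx
  have c2 : ∀ᶠ η in 𝓝[>] (0 : ℝ), ∀ x, t x < r₁ → t x < r₁ - η := by
    rw [eventually_all]
    intro x
    by_cases hx : t x < r₁
    · filter_upwards [hlt (r₁ - t x) (by linarith)] with η hη _
      linarith
    · exact Eventually.of_forall fun η h => absurd h hx
  have hpos : ∀ᶠ η in 𝓝[>] (0 : ℝ), 0 < η := self_mem_nhdsWithin
  have hall := hpos.and ((hlt r₁ hr1p).and ((hlt (1 - r₂) (by linarith)).and (c1.and (c2.and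
    (corner D c b₀ hi₁ hk₁ ht₁ ht₂ hik)))))
  obtain ⟨η, h1, h2, h3, h4, h5, h6⟩ := hall.exists
  exact ⟨η, h1, h2, by linarith, h4, h5, h6⟩

/-! ### the two permutations -/

theorem nx_lt {e : Fin n} (h : e < k) : ((nx e : Fin n) : ℕ) = (e : ℕ) + 1 := by
  rw [nx_val, if_pos]
  have := k.2
  have h' : (e : ℕ) < k := h
  omega

/-- the edges of the loop -/
abbrev IL (i k : Fin n) : Type := {e : Fin n // i ≤ e ∧ e ≤ k}

/-- the edges of the rest -/
abbrev IR (i k : Fin n) : Type := Option {e : Fin n // e ≤ i ∨ k ≤ e}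

open Classical in
/-- the next edge of the loop -/
noncomputable def sf (hik : i < k) (e : IL i k) : IL i k :=
  if h : e.1 = k then ⟨i, le_rfl, hik.le⟩ else
    ⟨nx e.1, by
      have h1 : e.1 < k := lt_of_le_of_ne e.2.2 h
      have h2 := nx_lt h1
      have h3 : (i : ℕ) ≤ e.1 := e.2.1
      have h4 : (e.1 : ℕ) < k := h1
      constructor
      · show (i : ℕ) ≤ (nx e.1 : Fin n)
        omega
      · show ((nx e.1 : Fin n) : ℕ) ≤ k
        omega⟩

theorem sf_inj (hik : i < k) : Function.Injective (sf hik) := by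
  intro e e' h
  have h0 := congrArg Subtype.val h
  unfold sf at h0
  by_cases h1 : e.1 = k
  · by_cases h2 : e'.1 = k
    · exact Subtype.ext (h1.trans h2.symm)
    · rw [dif_pos h1, dif_neg h2] at h0
      exfalso
      have h3 := nx_lt (lt_of_le_of_ne e'.2.2 h2)
      have h4 : (i : ℕ) ≤ e'.1 := e'.2.1
      have h5 : (i : ℕ) = (nx e'.1 : Fin n) := congrArg Fin.val h0
      omega
  · by_cases h2 : e'.1 = k
    · rw [dif_neg h1, dif_pos h2] at h0
      exfalso
      have h3 := nx_lt (lt_of_le_of_ne e.2.2 h1)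
      have h4 : (i : ℕ) ≤ e.1 := e.2.1
      have h5 : ((nx e.1 : Fin n) : ℕ) = i := congrArg Fin.val h0
      omega
    · rw [dif_neg h1, dif_neg h2] at h0
      exact Subtype.ext (nx_inj h0)

theorem nx_rest (hik : i < k) {e : Fin n} (he : e ≤ i ∨ k ≤ e) (hne : e ≠ i) :
    nx e ≤ i ∨ k ≤ nx e := by
  rcases he with h | h
  · left
    have h1 : e < i := lt_of_le_of_ne h hne
    have h2 := nx_lt h1
    have h3 : (e : ℕ) < i := h1
    show ((nx e : Fin n) : ℕ) ≤ i
    omega
  · have h2 := nx_val e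
    have h3 : (k : ℕ) ≤ e := h
    by_cases h4 : (e : ℕ) + 1 < n
    · right
      rw [if_pos h4] at h2
      show (k : ℕ) ≤ (nx e : Fin n)
      omega
    · left
      rw [if_neg h4] at h2
      show ((nx e : Fin n) : ℕ) ≤ i
      omega

open Classical in
/-- the next edge of the rest -/
noncomputable def tf (hik : i < k) : IR i k → IR i k
  | none => some ⟨k, Or.inr le_rfl⟩
  | some e => if h : e.1 = i then none else some ⟨nx e.1, nx_rest hik e.2 h⟩

theorem nx_ne_k (hik : i < k) {e : Fin n} (he : e ≤ i ∨ k ≤ e) (hne : e ≠ i) : nx e ≠ k := by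
  intro h
  have h1 : ((nx e : Fin n) : ℕ) = k := by rw [h]
  have h0 : (i : ℕ) < k := hik
  rw [nx_val] at h1
  split_ifs at h1 with h2
  · rcases he with h3 | h3
    · have h4 : (e : ℕ) ≤ i := h3
      have h5 : (e : ℕ) ≠ i := fun h6 => hne (Fin.ext h6)
      omega
    · have h4 : (k : ℕ) ≤ e := h3
      omega
  · omega

theorem tf_none (hik : i < k) : tf hik none = some ⟨k, Or.inr le_rfl⟩ := rfl

theorem tf_i (hik : i < k) (e : {e : Fin n // e ≤ i ∨ k ≤ e}) (h : e.1 = i) :
    tf hik (some e) = none := dif_pos h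

theorem tf_ne (hik : i < k) (e : {e : Fin n // e ≤ i ∨ k ≤ e}) (h : e.1 ≠ i) :
    tf hik (some e) = some ⟨nx e.1, nx_rest hik e.2 h⟩ := dif_neg h

theorem tf_inj (hik : i < k) : Function.Injective (tf hik) := by
  intro y y' h
  rcases y with _ | e
  · rcases y' with _ | e'
    · rfl
    · exfalso
      by_cases h2 : e'.1 = i
      · rw [tf_none, tf_i hik e' h2] at h
        exact Option.some_ne_none _ h
      · rw [tf_none, tf_ne hik e' h2] at h
        have h3 := congrArg Subtype.val (Option.some.inj h)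
        exact nx_ne_k hik e'.2 h2 h3.symm
  · rcases y' with _ | e'
    · exfalso
      by_cases h2 : e.1 = i
      · rw [tf_none, tf_i hik e h2] at h
        exact Option.some_ne_none _ h.symm
      · rw [tf_none, tf_ne hik e h2] at h
        have h3 := congrArg Subtype.val (Option.some.inj h)
        exact nx_ne_k hik e.2 h2 h3
    · by_cases h1 : e.1 = i
      · by_cases h2 : e'.1 = i
        · rw [Subtype.ext (h1.trans h2.symm)]
        · rw [tf_i hik e h1, tf_ne hik e' h2] at h
          exact absurd h.symm (Option.some_ne_none _)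
      · by_cases h2 : e'.1 = i
        · rw [tf_ne hik e h1, tf_i hik e' h2] at h
          exact absurd h (Option.some_ne_none _)
        · rw [tf_ne hik e h1, tf_ne hik e' h2] at h
          have h3 := congrArg Subtype.val (Option.some.inj h)
          rw [Subtype.ext (nx_inj h3)]

/-- the vertices of the loop -/
noncomputable def vA (p : Fin n → Pt) (r₁ : ℝ) (e : IL i k) : ℝ × ℝ := g p e.1 (lo i r₁ e.1)

/-- the vertices of the rest -/
noncomputable def vB (p : Fin n → Pt) (r₁ r₂ η : ℝ) : IR i k → ℝ × ℝ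
  | none => g p i (r₁ - η)
  | some e => g p e.1 (lo' k r₂ η e.1)

theorem vA_sf (hC : g p i r₁ = g p k r₂) (hik : i < k) (e : IL i k) :
    vA p r₁ (sf hik e) = g p e.1 (hi k r₂ e.1) := by
  unfold vA sf lo hi
  by_cases h : e.1 = k
  · rw [dif_pos h, if_pos rfl, if_pos h, hC, h]
  · rw [dif_neg h, if_neg h, g_one]
    have h1 : nx e.1 ≠ i := by
      intro h2
      have h3 := nx_lt (lt_of_le_of_ne e.2.2 h)
      have h4 : (i : ℕ) ≤ e.1 := e.2.1
      have h5 : ((nx e.1 : Fin n) : ℕ) = i := by rw [h2]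
      omega
    rw [if_neg h1]

theorem vB_some (e : {e : Fin n // e ≤ i ∨ k ≤ e}) :
    vB p r₁ r₂ η (some e) = g p e.1 (lo' k r₂ η e.1) := rfl

theorem vB_tf (hik : i < k) (e : {e : Fin n // e ≤ i ∨ k ≤ e}) :
    vB p r₁ r₂ η (tf hik (some e)) = g p e.1 (hi' i r₁ η e.1) := by
  unfold hi'
  by_cases h : e.1 = i
  · rw [tf_i hik e h, if_pos h, h]
    rfl
  · rw [tf_ne hik e h, if_neg h, g_one, vB_some]
    unfold lo'
    rw [if_neg (nx_ne_k hik e.2 h)]

theorem vB_none (hik : i < k) : vB p r₁ r₂ η (tf hik (none : IR i k)) = g p k (r₂ + η) := by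
  rw [tf_none, vB_some]
  unfold lo'
  rw [if_pos rfl]

open Classical in
theorem main (D : Dsc p G a t) (c : Fin N) (b₀ : Bool) (hi₁ : a (c, b₀) = i) (hk₁ : a (c, !b₀) = k)
    (ht₁ : t (c, b₀) = r₁) (ht₂ : t (c, !b₀) = r₂) (hik : i < k) : Even (deg G c) := by
  obtain ⟨η, hη, hη1, hη2, hη3, hη4, hcor⟩ := exists_eta D c b₀ hi₁ hk₁ ht₁ ht₂ hik
  have hr1p : 0 < r₁ := by rw [← ht₁]; exact D.pos _
  have hr1l : r₁ < 1 := by rw [← ht₁]; exact D.lt _
  have hr2p : 0 < r₂ := by rw [← ht₂]; exact D.pos _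
  have hr2l : r₂ < 1 := by rw [← ht₂]; exact D.lt _
  have hC : g p i r₁ = g p k r₂ := by
    have := D.same c b₀
    rwa [hi₁, hk₁, ht₁, ht₂] at this
  have hle : ∀ e : Fin n, lo i r₁ e ≤ hi k r₂ e := by
    intro e
    unfold lo hi
    by_cases h1 : e = i
    · rw [if_pos h1, if_neg (by rw [h1]; exact hik.ne)]
      exact hr1l.le
    · rw [if_neg h1]
      split_ifs
      · exact hr2p.le
      · exact zero_le_one
  have hle' : ∀ e : Fin n, lo' k r₂ η e ≤ hi' i r₁ η e := by
    intro e
    unfold lo' hi'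
    by_cases h1 : e = i
    · rw [if_pos h1, if_neg (by rw [h1]; exact hik.ne)]
      linarith
    · rw [if_neg h1]
      split_ifs
      · linarith
      · exact zero_le_one
  obtain ⟨s, hs⟩ : ∃ s : Equiv.Perm (IL i k), ∀ e, s e = sf hik e :=
    ⟨Equiv.ofBijective _ (Finite.injective_iff_bijective.1 (sf_inj hik)), fun _ => rfl⟩
  obtain ⟨u, hu⟩ : ∃ u : Equiv.Perm (IR i k), ∀ y, u y = tf hik y :=
    ⟨Equiv.ofBijective _ (Finite.injective_iff_bijective.1 (tf_inj hik)), fun _ => rfl⟩
  have hsegA : ∀ e : IL i k, segment ℝ (vA p r₁ e) (vA p r₁ (s e)) =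
      g p e.1 '' Icc (lo i r₁ e.1) (hi k r₂ e.1) := by
    intro e
    rw [hs, vA_sf hC hik e]
    exact seg p e.1 (hle _)
  have hsegB : ∀ e : {e : Fin n // e ≤ i ∨ k ≤ e},
      segment ℝ (vB p r₁ r₂ η (some e)) (vB p r₁ r₂ η (u (some e))) =
      g p e.1 '' Icc (lo' k r₂ η e.1) (hi' i r₁ η e.1) := by
    intro e
    rw [hu, vB_tf hik e]
    exact seg p e.1 (hle' _)
  have hsegN : segment ℝ (vB p r₁ r₂ η (none : IR i k)) (vB p r₁ r₂ η (u none)) =
      segment ℝ (g p i (r₁ - η)) (g p k (r₂ + η)) := by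
    rw [hu, vB_none hik]
    rfl
  have heven := even_cross s u (vA p r₁) (vB p r₁ r₂ η) (by
    intro e y hmem
    rcases y with _ | e'
    · rw [hsegN] at hmem
      exact hcor e.1 e.2.1 e.2.2 _ le_rfl (hle _) hmem
    · rw [hsegB] at hmem
      obtain ⟨r', hr', h1⟩ := hmem
      obtain ⟨j, b, h2, h3, h4, h5, h6, h7⟩ := common D c b₀ hi₁ hk₁ ht₁ ht₂ hik hη e.2 e'.2
        ⟨le_rfl, hle _⟩ hr' h1.symm
      by_cases h8 : e.1 = i
      · have h9 : lo i r₁ e.1 = r₁ := by unfold lo; rw [if_pos h8]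
        rw [h9, h8] at h6
        rcases h6.1 with h10 | h10
        · exact lt_irrefl _ h10
        · exact lt_irrefl _ h10.2
      · have h9 : lo i r₁ e.1 = 0 := by unfold lo; rw [if_neg h8]
        rw [h9] at h3
        exact (D.pos _).ne' h3) (by
    intro e y hmem
    rw [hsegA] at hmem
    obtain ⟨r, hr, h1⟩ := hmem
    rcases y with _ | e'
    · apply hcor e.1 e.2.1 e.2.2 r hr.1 hr.2
      rw [h1]
      exact left_mem_segment ℝ _ _
    · by_cases h8 : e'.1 = k
      · apply hcor e.1 e.2.1 e.2.2 r hr.1 hr.2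
        rw [h1]
        have h9 : vB p r₁ r₂ η (some e') = g p k (r₂ + η) := by
          rw [vB_some]
          unfold lo'
          rw [if_pos h8, h8]
        rw [h9]
        exact right_mem_segment ℝ _ _
      · obtain ⟨j, b, h2, h3, h4, h5, h6, h7⟩ := common D c b₀ hi₁ hk₁ ht₁ ht₂ hik hη e.2 e'.2
          hr ⟨le_rfl, hle' _⟩ h1
        have h9 : lo' k r₂ η e'.1 = 0 := by unfold lo'; rw [if_neg h8]
        rw [h9] at h5
        exact (D.pos _).ne' h5)
  -- the passages between
  obtain ⟨M, hM⟩ : ∃ M : Fin N × Bool → Prop, M = fun x => Mid i k r₁ r₂ (a x) (t x) := ⟨_, rfl⟩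
  have hMb : ∀ x, Pool.Agent.H832R2.JR.Btw (G (c, false)) (G (c, true)) (G x) ↔ M x := by
    intro x
    have h1 : Pool.Agent.H832R2.JR.Btw (G (c, false)) (G (c, true)) (G x) ↔
        Pool.Agent.H832R2.JR.Btw (G (c, b₀)) (G (c, !b₀)) (G x) := by
      cases b₀
      · exact Iff.rfl
      · exact btw_swap
    have h2 : G (c, b₀) < G (c, !b₀) := by
      rw [D.ord, hi₁, hk₁]
      exact Or.inl hik
    rw [h1, hM]
    unfold Pool.Agent.H832R2.JR.Btw
    constructor
    · rintro (h | h)
      · have h3 : G (c, b₀) < G x := h.1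
        have h4 : G x < G (c, !b₀) := h.2
        rw [D.ord, hi₁, ht₁] at h3
        rw [D.ord, hk₁, ht₂] at h4
        exact ⟨h3, h4⟩
      · exfalso
        have h3 : G (c, !b₀) < G x := h.1
        have h4 : G x < G (c, b₀) := h.2
        exact lt_asymm h2 (h3.trans h4)
    · rintro ⟨h3, h4⟩
      left
      rw [← hi₁, ← ht₁, ← D.ord] at h3
      rw [← hk₁, ← ht₂, ← D.ord] at h4
      exact ⟨h3, h4⟩
  have hcr : ∀ j, Pool.Agent.H832R2.JR.Crosses G c j ↔ ¬ (M (j, false) ↔ M (j, true)) := by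
    intro j
    unfold Pool.Agent.H832R2.JR.Crosses
    rw [hMb, hMb]
  obtain ⟨bb, hbb⟩ : ∃ bb : Fin N → Bool, bb = fun j => decide (M (j, true)) := ⟨_, rfl⟩
  have hb1 : ∀ j, Pool.Agent.H832R2.JR.Crosses G c j → M (j, bb j) ∧ ¬ M (j, !bb j) := by
    intro j hj
    rw [hcr] at hj
    rw [hbb]
    by_cases h : M (j, true)
    · simp only [h, decide_true, Bool.not_true]
      tauto
    · simp only [h, decide_false, Bool.not_false]
      tauto
  have hb2 : ∀ j b, M (j, b) → ¬ M (j, !b) → Pool.Agent.H832R2.JR.Crosses G c j ∧ bb j = b := by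
    intro j b h1 h2
    rw [hcr, hbb]
    cases b
    · rw [Bool.not_false] at h2
      exact ⟨by tauto, by simp [h2]⟩
    · rw [Bool.not_true] at h2
      exact ⟨by tauto, by simp [h1]⟩
  have hL : ∀ x, M x → i ≤ a x ∧ a x ≤ k := by
    intro x hx
    rw [hM] at hx
    obtain ⟨h1, h2⟩ := hx
    constructor
    · rcases h1 with h1 | h1
      · exact h1.le
      · exact h1.1.le
    · rcases h2 with h2 | h2
      · exact h2.le
      · exact h2.1.le
  have hR : ∀ x, ¬ M x → a x ≤ i ∨ k ≤ a x := by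
    intro x hx
    by_contra hc
    push Not at hc
    apply hx
    rw [hM]
    exact ⟨Or.inl hc.1, Or.inl hc.2⟩
  have hLr : ∀ x, M x → t x ∈ Icc (lo i r₁ (a x)) (hi k r₂ (a x)) := by
    intro x hx
    rw [hM] at hx
    obtain ⟨h1, h2⟩ := hx
    unfold lo hi
    constructor
    · split_ifs with h3
      · rcases h1 with h1 | h1
        · exact absurd h3 h1.ne'
        · exact h1.2.le
      · exact (D.pos x).le
    · split_ifs with h3
      · rcases h2 with h2 | h2
        · exact absurd h3 h2.ne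
        · exact h2.2.le
      · exact (D.lt x).le
  have hnc : ∀ j b, M (j, b) → ¬ M (j, !b) → j ≠ c := by
    intro j b h1 _ h3
    rw [h3] at h1
    rw [hM] at h1
    have h4 : b = b₀ ∨ b = !b₀ := by cases b <;> cases b₀ <;> simp
    rcases h4 with h4 | h4
    · rw [h4] at h1
      have h5 := h1.1
      rw [hi₁, ht₁] at h5
      rcases h5 with h5 | h5
      · exact lt_irrefl _ h5
      · exact lt_irrefl _ h5.2
    · rw [h4] at h1
      have h5 := h1.2
      rw [hk₁, ht₂] at h5
      rcases h5 with h5 | h5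
      · exact lt_irrefl _ h5
      · exact lt_irrefl _ h5.2
  have hRr : ∀ j b, j ≠ c → ¬ M (j, b) →
      t (j, b) ∈ Icc (lo' k r₂ η (a (j, b))) (hi' i r₁ η (a (j, b))) := by
    intro j b hj hx
    rw [hM] at hx
    unfold lo' hi'
    constructor
    · split_ifs with h3
      · apply le_of_lt
        apply hη3
        by_contra hc
        rw [not_lt] at hc
        rcases hc.lt_or_eq with h4 | h4
        · apply hx
          exact ⟨Or.inl (by rw [h3]; exact hik), Or.inr ⟨h3, h4⟩⟩
        · have h5 : (j, b) = (c, !b₀) := D.inj (by rw [h3, hk₁]) (by rw [h4, ht₂])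
          rw [Prod.mk.injEq] at h5
          exact hj h5.1
      · exact (D.pos _).le
    · split_ifs with h3
      · apply le_of_lt
        apply hη4
        by_contra hc
        rw [not_lt] at hc
        rcases hc.lt_or_eq with h4 | h4
        · apply hx
          exact ⟨Or.inr ⟨h3.symm, h4⟩, Or.inl (by rw [h3]; exact hik)⟩
        · have h5 : (j, b) = (c, b₀) := D.inj (by rw [h3, hi₁]) (by rw [← h4, ht₁])
          rw [Prod.mk.injEq] at h5
          exact hj h5.1
      · exact (D.lt _).le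
  have hcard : deg G c = (Finset.univ.filter fun x : IL i k × IR i k =>
      (segment ℝ (vA p r₁ x.1) (vA p r₁ (s x.1)) ∩
        segment ℝ (vB p r₁ r₂ η x.2) (vB p r₁ r₂ η (u x.2))).Nonempty).card := by
    unfold deg
    refine Finset.card_bij (fun j hj => (⟨a (j, bb j), hL _ (hb1 j (Finset.mem_filter.1 hj).2).1⟩,
      some ⟨a (j, !bb j), hR _ (hb1 j (Finset.mem_filter.1 hj).2).2⟩)) ?_ ?_ ?_
    · intro j hj
      rw [Finset.mem_filter] at hj ⊢
      obtain ⟨h1, h2⟩ := hb1 j hj.2
      refine ⟨Finset.mem_univ _, ?_⟩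
      refine ⟨g p (a (j, bb j)) (t (j, bb j)), ?_, ?_⟩
      · rw [hsegA]
        exact ⟨_, hLr _ h1, rfl⟩
      · rw [hsegB]
        refine ⟨t (j, !bb j), hRr j _ (hnc j _ h1 h2) h2, ?_⟩
        exact (D.same j (bb j)).symm
    · intro j hj j' hj' h
      rw [Prod.mk.injEq] at h
      have h1 : a (j, bb j) = a (j', bb j') := congrArg Subtype.val h.1
      have h2 : a (j, !bb j) = a (j', !bb j') := congrArg Subtype.val (Option.some.inj h.2)
      have h3 := (meet (D.det j (bb j)) (t (j, bb j)) (t (j, !bb j))).1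
        ((g_eq _ _ _ _ _).1 (D.same j (bb j)))
      have h4 := (meet (D.det j' (bb j')) (t (j', bb j')) (t (j', !bb j'))).1
        ((g_eq _ _ _ _ _).1 (D.same j' (bb j')))
      have h5 : t (j, bb j) = t (j', bb j') := by rw [h3.1, h4.1, h1, h2]
      have h6 := D.inj h1 h5
      rw [Prod.mk.injEq] at h6
      exact h6.1
    · rintro ⟨e, y⟩ hx
      rw [Finset.mem_filter] at hx
      obtain ⟨Z, hZ1, hZ2⟩ := hx.2
      rw [hsegA] at hZ1
      obtain ⟨r, hr, hr'⟩ := hZ1
      rcases y with _ | e'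
      · exfalso
        have hZ3 : Z ∈ segment ℝ (vB p r₁ r₂ η (none : IR i k)) (vB p r₁ r₂ η (u none)) := hZ2
        rw [hsegN, ← hr'] at hZ3
        exact hcor e.1 e.2.1 e.2.2 r hr.1 hr.2 hZ3
      · have hZ3 : Z ∈ segment ℝ (vB p r₁ r₂ η (some e')) (vB p r₁ r₂ η (u (some e'))) := hZ2
        rw [hsegB] at hZ3
        obtain ⟨r', hr'', hr3⟩ := hZ3
        obtain ⟨j, b, h2, h3, h4, h5, h6, h7⟩ := common D c b₀ hi₁ hk₁ ht₁ ht₂ hik hη e.2 e'.2
          hr hr'' (hr'.trans hr3.symm)
        have h8 : M (j, b) := by rw [hM]; show Mid i k r₁ r₂ (a (j, b)) (t (j, b)); rw [h2, h3]; exact h6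
        have h9 : ¬ M (j, !b) := by
          rw [hM]; show ¬ Mid i k r₁ r₂ (a (j, !b)) (t (j, !b)); rw [h4, h5]; exact h7
        obtain ⟨h10, h11⟩ := hb2 j b h8 h9
        refine ⟨j, Finset.mem_filter.2 ⟨Finset.mem_univ _, h10⟩, ?_⟩
        rw [Prod.mk.injEq]
        constructor
        · apply Subtype.ext
          show a (j, bb j) = e.1
          rw [h11, h2]
        · apply congrArg some
          apply Subtype.ext
          show a (j, !bb j) = e'.1
          rw [h11, h4]
  rw [hcard]
  exact heven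

end loop

end GB

theorem even_of_describes {n N : ℕ} {p : Fin n → Pt} {G : GaussWord N} {w : Fin N → Bool}
    (h : Describes p G w) (c : Fin N) : Even (deg G c) := by
  obtain ⟨a, t, D⟩ := GB.dsc h
  have hne : a (c, false) ≠ a (c, true) := by
    intro h1
    have h2 := D.det c false
    rw [Bool.not_false, ← h1] at h2
    apply h2
    unfold det
    ring
  rcases lt_or_gt_of_ne hne with h1 | h1
  · exact GB.main D c false rfl rfl rfl rfl h1
  · exact GB.main D c true rfl rfl rfl rfl h1

end Pool.Agent.H756.RW
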