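import Pool.Agent.H756.RW.DefsW
import Pool.Agent.H756.RP.Desc

set_option autoImplicit false

/-!
# The parity of the number of interlaced crossings and the position of one vertex

STATEMENT (checked by computer).  The chain `p 0, p 1, …, p (n - 1)` is changed at the vertex `j`
(`u = j - 1`, `nx j = j + 1`).  Then the parity of `degP p i k` changes by
`W (p 0) + W (p (n - 1))` if the vertex `j` is on the loop of the crossing `(i, k)` (`i < j < k`), and it does
not change otherwise; here `W z = [z in the triangle p u, p j, p (nx j)] + [z in the triangle p u, y, p (nx j)]`.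

Paper proof.
(0) Write `O a b c` for the bit `[0 < orient a b c] ∈ ZMod 2`.  For segments `ab`, `uv` in general position let
`X a b u v = (O a b u + O a b v) * (O u v a + O u v b)`; this is `1` iff they cross.  For edges `e ≠ f` of a polygon
with `Gen p` and without a common vertex `Cr p e f` iff `X (p e) (p (nx e)) (p f) (p (nx f)) = 1` (`par p e f` is the
quotient of `± orient (p f) (p (nx f)) (p e)` by `det p e f`, and
`det p e f = orient (p f) (p (nx f)) (p e) - orient (p f) (p (nx f)) (p (nx e))` up to sign).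
(1) TRIANGLE LEMMA.  If no three of the points `a, b, u`; …; `u, v, w` involved are collinear then
`X a b u v + X a b v w + X a b w u = tri u v w a + tri u v w b` in `ZMod 2`.
Identities (`ring`): `orient v w a * orient a b u + orient w u a * orient a b v + orient u v a * orient a b w = 0`,
the same with `b` in the places `orient v w b …` (`orient a b · ` unchanged), and
`orient u v a + orient v w a + orient w u a = orient u v w`.
 * If `O a b u = O a b v = O a b w` the left side is `0`, and by the first identity `orient v w a`,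
   `orient w u a`, `orient u v a` cannot have the same sign: `tri u v w a = 0`, and the same for `b`.
 * Otherwise one of them, say `O a b w`, is different from the other two.  By the first identity
   if `orient v w a` and `orient w u a` have the same sign then `orient u v a` has this sign, too.  So
   `tri u v w a = 1 + O v w a + O w u a`, and the same for `b`; the sum is
   `O v w a + O v w b + O w u a + O w u b`, which is the left side.  (Same with the roles of `u, v, w` permuted.)
(2) CUTTING A SEGMENT.  If `c = a + t (b - a)`, `0 < t < 1`, then `X a b u v = X a c u v + X c b u v`: indeed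
`O a c u = O a b u = O c b u` (positive multiples), and the second factors add up.  For `Cr p e f` the passage of
`e` is before the parameter `t` (`par p e f < t`) iff `X (p e) c (p f) (p (nx f)) = 1`, `c = ept p e t`, and after it
iff `X c (p (nx e)) (p f) (p (nx f)) = 1` (if `c` is not on the line of the edge `f`).
(3) Let `q = update p j y`, `c = ept p i (par p i k)`; the crossing `(i, k)` and `c` are the same for `p` and `q`, as
`j ∉ {i, i + 1, k, k + 1}`.  In the set counted by `degP` the pairs which do not contain one of the edges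
`u = j - 1` and `j` are the same for `p` and `q`.
 (a) `i + 2 < j`, `j + 1 < k`: the edges `u` and `j` are inside the loop, so they occur only as first
 components, and the second component runs over the passages outside of the loop: the edges
 `0, …, i - 1`, the part of `i` before `c`, the part of `k` after `c`, the edges `k + 1, …, n - 2`.  Hence
 `degP q i k + degP p i k = ∑ over these segments ab of X a b (p u) y + X a b y (p (nx j)) + X a b (p u) (p j) +
 X a b (p j) (p (nx j))`, and as `2 X a b (p (nx j)) (p u) = 0` this is by (1) `∑ (W a + W b)`, a telescoping sum: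
 `W (p 0) + W c + W c + W (p (n - 1))`.
 (b) `j + 1 < i` or `k + 2 < j`: the edges `u` and `j` are outside and occur only as second components; the first
 components run over the loop: the part of `i` after `c`, the edges `i + 1, …, k - 1`, the part of `k` before `c`;
 the telescoping sum is `W c + W c = 0`.
 All the points are in general position: three different vertices of `p` or of `q` are not collinear (`Gen`), and
 `c` is not on the lines of the five pairs of points in `hc`; `O` of `a`, `c` (or `c`, `b`) and a vertex is as in (2).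
-/

namespace Pool.Agent.H756.RW

open Function Pool.Agent.H756.RP

variable {n : ℕ}

open Classical in
/-- the bit of a proposition -/
noncomputable def bt (P : Prop) : ZMod 2 := if P then 1 else 0

theorem bt_congr {P Q : Prop} (h : P ↔ Q) : bt P = bt Q := by rw [propext h]

theorem bt_false {P : Prop} (h : ¬ P) : bt P = 0 := if_neg h

theorem bt_true {P : Prop} (h : P) : bt P = 1 := if_pos h

theorem zadd (x : ZMod 2) : x + x = 0 := CharTwo.add_self_eq_zero x

theorem bt_and (P Q : Prop) : bt (P ∧ Q) = bt P * bt Q := by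
  unfold bt
  by_cases hP : P <;> by_cases hQ : Q <;> simp [hP, hQ]

theorem bt_not_iff (P Q : Prop) : bt (¬ (P ↔ Q)) = bt P + bt Q := by
  unfold bt
  by_cases hP : P <;> by_cases hQ : Q <;> simp [hP, hQ] <;> decide

theorem bt_and_not (P Q : Prop) : bt (P ∧ ¬ Q) = bt P + bt (P ∧ Q) := by
  unfold bt
  by_cases hP : P <;> by_cases hQ : Q <;> simp [hP, hQ] <;> decide

/-- the orientation bit -/
noncomputable def Ob (a b c : Pt) : ZMod 2 := bt (0 < orient a b c)

/-- the crossing bit -/
noncomputable def Xb (a b u v : Pt) : ZMod 2 := (Ob a b u + Ob a b v) * (Ob u v a + Ob u v b)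

theorem tri_aux {A B C α β γ : ℝ} (hA : A ≠ 0) (hB : B ≠ 0) (hC : C ≠ 0) (hα : α ≠ 0)
    (hβ : β ≠ 0) (hγ : γ ≠ 0) (h : α * A + β * B + γ * C = 0) :
    (bt (0 < A) + bt (0 < B)) * bt (0 < γ) + (bt (0 < B) + bt (0 < C)) * bt (0 < α) +
      (bt (0 < C) + bt (0 < A)) * bt (0 < β) =
    bt ((0 < γ ↔ 0 < α) ∧ (0 < α ↔ 0 < β)) + bt (¬ ((0 < A ↔ 0 < B) ∧ (0 < B ↔ 0 < C))) := by
  have e1 := sign_iff hα hA
  have e2 := sign_iff hβ hB
  have e3 := sign_iff hγ hC
  have n1 : ¬ (0 < α * A ∧ 0 < β * B ∧ 0 < γ * C) := by
    rintro ⟨h1, h2, h3⟩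
    linarith
  have n2 : ¬ (¬ 0 < α * A ∧ ¬ 0 < β * B ∧ ¬ 0 < γ * C) := by
    rintro ⟨h1, h2, h3⟩
    have h1' : α * A < 0 := lt_of_le_of_ne (not_lt.mp h1) (mul_ne_zero hα hA)
    have h2' := not_lt.mp h2
    have h3' := not_lt.mp h3
    linarith
  rw [e1, e2, e3] at n1 n2
  clear e1 e2 e3 h hA hB hC hα hβ hγ
  generalize (0 < A) = a1 at *
  generalize (0 < B) = a2 at *
  generalize (0 < C) = a3 at *
  generalize (0 < α) = b1 at *
  generalize (0 < β) = b2 at *
  generalize (0 < γ) = b3 at *
  unfold bt
  by_cases h1 : a1 <;> by_cases h2 : a2 <;> by_cases h3 : a3 <;> by_cases h4 : b1 <;>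
    by_cases h5 : b2 <;> by_cases h6 : b3 <;> simp [h1, h2, h3, h4, h5, h6] at n1 n2 ⊢ <;> decide

/-- the triangle lemma -/
theorem triangle {a b u v w : Pt} (h1 : orient a b u ≠ 0) (h2 : orient a b v ≠ 0)
    (h3 : orient a b w ≠ 0) (ha1 : orient u v a ≠ 0) (ha2 : orient v w a ≠ 0)
    (ha3 : orient w u a ≠ 0) (hb1 : orient u v b ≠ 0) (hb2 : orient v w b ≠ 0)
    (hb3 : orient w u b ≠ 0) :
    Xb a b u v + Xb a b v w + Xb a b w u = tri u v w a + tri u v w b := by
  have k1 := tri_aux h1 h2 h3 ha2 ha3 ha1 (by unfold orient; ring)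
  have k2 := tri_aux h1 h2 h3 hb2 hb3 hb1 (by unfold orient; ring)
  have t1 : tri u v w a = bt ((0 < orient u v a ↔ 0 < orient v w a) ∧
    (0 < orient v w a ↔ 0 < orient w u a)) := by unfold tri bt; congr
  have t2 : tri u v w b = bt ((0 < orient u v b ↔ 0 < orient v w b) ∧
    (0 < orient v w b ↔ 0 < orient w u b)) := by unfold tri bt; congr
  have k3 := zadd (bt (¬ ((0 < orient a b u ↔ 0 < orient a b v) ∧
    (0 < orient a b v ↔ 0 < orient a b w))))
  rw [t1, t2]
  unfold Xb Ob
  linear_combination k1 + k2 + k3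

theorem cut_aux {A0 A1 t : ℝ} (h0 : A0 ≠ 0) (ht : 0 < t) (hc : (1 - t) * A0 + t * A1 ≠ 0) :
    (A0 - A1 ≠ 0 ∧ 0 < A0 / (A0 - A1) ∧ A0 / (A0 - A1) < t) ↔
      ¬ (0 < A0 ↔ 0 < (1 - t) * A0 + t * A1) := by
  rcases lt_or_gt_of_ne h0 with h | h
  · have e1 : ¬ (0 < A0) := not_lt.mpr h.le
    rw [iff_false_left e1, not_not]
    constructor
    · rintro ⟨g1, g2, g3⟩
      have g4 : A0 - A1 < 0 := by
        rcases lt_or_gt_of_ne g1 with g | g
        · exact g
        · exact absurd g2 (not_lt.mpr (div_neg_of_neg_of_pos h g).le)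
      rw [div_lt_iff_of_neg g4] at g3
      linarith
    · intro g
      have g4 : A0 - A1 < 0 := by
        by_contra g5
        have := mul_nonneg ht.le (not_lt.mp g5)
        linarith
      refine ⟨g4.ne, div_pos_of_neg_of_neg h g4, ?_⟩
      rw [div_lt_iff_of_neg g4]
      linarith
  · rw [iff_true_left h]
    constructor
    · rintro ⟨g1, g2, g3⟩
      have g4 : 0 < A0 - A1 := by
        rcases lt_or_gt_of_ne g1 with g | g
        · exact absurd g2 (not_lt.mpr (div_neg_of_pos_of_neg h g).le)
        · exact g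
      rw [div_lt_iff₀ g4] at g3
      rw [not_lt]
      linarith
    · intro g
      have g6 : (1 - t) * A0 + t * A1 < 0 := lt_of_le_of_ne (not_lt.mp g) hc
      have g4 : 0 < A0 - A1 := by
        by_contra g5
        have := mul_nonneg ht.le (neg_nonneg.mpr (not_lt.mp g5))
        linarith
      refine ⟨g4.ne', div_pos h g4, ?_⟩
      rw [div_lt_iff₀ g4]
      linarith

theorem det_orient (p : Fin n → Pt) (e f : Fin n) :
    det p e f = orient (p f) (p (nx f)) (p e) - orient (p f) (p (nx f)) (p (nx e)) := by
  unfold det orient; ring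

theorem par_orient (p : Fin n → Pt) (e f : Fin n) :
    par p e f = orient (p f) (p (nx f)) (p e) /
      (orient (p f) (p (nx f)) (p e) - orient (p f) (p (nx f)) (p (nx e))) := by
  rw [← det_orient]
  unfold par
  congr 1
  unfold orient; ring

theorem orient_ept (p : Fin n → Pt) (e : Fin n) (a b : Pt) (t : ℝ) :
    orient a b (ept p e t) = (1 - t) * orient a b (p e) + t * orient a b (p (nx e)) := by
  unfold orient
  rw [ept_x, ept_y]
  ring

theorem orient_ept' (p : Fin n → Pt) (e : Fin n) (z : Pt) (t : ℝ) :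
    orient (p e) (ept p e t) z = t * orient (p e) (p (nx e)) z := by
  unfold orient
  rw [ept_x, ept_y]
  ring

theorem Ob_ept (p : Fin n → Pt) (e : Fin n) (z : Pt) {t : ℝ} (ht : 0 < t) :
    Ob (p e) (ept p e t) z = Ob (p e) (p (nx e)) z := by
  unfold Ob
  rw [orient_ept']
  exact bt_congr (mul_pos_iff_of_pos_left ht)

/-- the crossing bit of a part of an edge -/
theorem bit_cut {p : Fin n → Pt} {e f : Fin n} {t : ℝ} (ht : 0 < t) (ht1 : t ≤ 1)
    (h1 : orient (p f) (p (nx f)) (p e) ≠ 0) (h2 : orient (p f) (p (nx f)) (ept p e t) ≠ 0)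
    (h3 : orient (p e) (p (nx e)) (p f) ≠ 0) (h4 : orient (p e) (p (nx e)) (p (nx f)) ≠ 0) :
    bt (Cr p e f ∧ par p e f < t) = Xb (p e) (ept p e t) (p f) (p (nx f)) := by
  have h2' := h2
  rw [orient_ept] at h2'
  have k1 := cut_aux h1 ht h2'
  rw [← par_orient, ← det_orient, ← orient_ept] at k1
  have h4' : (1 - (1 : ℝ)) * orient (p e) (p (nx e)) (p f) +
      1 * orient (p e) (p (nx e)) (p (nx f)) ≠ 0 := by
    intro h; apply h4; linarith
  have k2 := cut_aux h3 one_pos h4'
  rw [← par_orient, ← det_orient] at k2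
  have e1 : (1 - (1 : ℝ)) * orient (p e) (p (nx e)) (p f) +
      1 * orient (p e) (p (nx e)) (p (nx f)) = orient (p e) (p (nx e)) (p (nx f)) := by ring
  rw [e1] at k2
  have k3 : (Cr p e f ∧ par p e f < t) ↔ ((det p e f ≠ 0 ∧ 0 < par p e f ∧ par p e f < t) ∧
      (det p f e ≠ 0 ∧ 0 < par p f e ∧ par p f e < 1)) := by
    unfold Cr
    constructor
    · rintro ⟨⟨g1, ⟨g2, g3⟩, g4, g5⟩, g6⟩
      refine ⟨⟨g1, g2, g6⟩, ?_, g4, g5⟩
      rw [det_swap]
      exact neg_ne_zero.mpr g1
    · rintro ⟨⟨g1, g2, g6⟩, g7, g4, g5⟩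
      exact ⟨⟨g1, ⟨g2, g6.trans_le ht1⟩, g4, g5⟩, g6⟩
  rw [bt_congr k3, k1, k2, bt_and, bt_not_iff, bt_not_iff]
  unfold Xb
  rw [Ob_ept p e (p f) ht, Ob_ept p e (p (nx f)) ht]
  unfold Ob
  ring

theorem tele (Φ : ℕ → ZMod 2) : ∀ m : ℕ,
    ∑ x ∈ Finset.range m, (Φ x + Φ (x + 1)) = Φ 0 + Φ m := by
  intro m
  induction m with
  | zero => simp [zadd]
  | succ m ih =>
    rw [Finset.sum_range_succ, ih]
    linear_combination zadd (Φ m)

theorem tele_fin (hn : 3 ≤ n) (Φ : ℕ → ZMod 2) (D : Fin n → ZMod 2)
    (h1 : ∀ f : Fin n, (f : ℕ) + 1 < n → D f = Φ f + Φ ((f : ℕ) + 1))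
    (h2 : ∀ f : Fin n, ¬ ((f : ℕ) + 1 < n) → D f = 0) :
    ∑ f, D f = Φ 0 + Φ (n - 1) := by
  have e1 : ∑ f, D f = ∑ f : Fin n, (fun m : ℕ => if m + 1 < n then Φ m + Φ (m + 1) else 0) f := by
    refine Finset.sum_congr rfl fun f _ => ?_
    by_cases h : (f : ℕ) + 1 < n
    · rw [h1 f h]; simp [h]
    · rw [h2 f h]; simp [h]
  rw [e1, Fin.sum_univ_eq_sum_range (fun m : ℕ => if m + 1 < n then Φ m + Φ (m + 1) else 0) n]
  obtain ⟨m, rfl⟩ : ∃ m, n = m + 1 := ⟨n - 1, by omega⟩
  rw [Finset.sum_range_succ]
  have e2 : (if m + 1 < m + 1 then Φ m + Φ (m + 1) else 0) = 0 := if_neg (lt_irrefl _)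
  rw [e2, add_zero, Nat.add_sub_cancel]
  rw [← tele Φ m]
  refine Finset.sum_congr rfl fun x hx => ?_
  have := Finset.mem_range.mp hx
  rw [if_pos (by omega)]

theorem nx_val {i : Fin n} (h : (i : ℕ) + 1 < n) : (nx i : ℕ) = i + 1 := by
  obtain ⟨m, rfl⟩ : ∃ m, n = m + 1 := ⟨n - 1, by omega⟩
  unfold nx
  rw [finRotate_apply, Fin.val_add_one]
  split_ifs with h3
  · exfalso
    have h4 := congrArg Fin.val h3
    simp at h4
    omega
  · rfl

theorem nx_inj {i j : Fin n} (h : nx i = nx j) : i = j := (finRotate n).injective h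

theorem gp {p : Fin n → Pt} (hp : Gen p) {a b c : Fin n} (h1 : a ≠ b) (h2 : b ≠ c) (h3 : a ≠ c) :
    orient (p a) (p b) (p c) ≠ 0 := hp.noncol a b c h1 h2 h3

/-- the number of the triangles in which a point is -/
noncomputable def Wt (u v y w z : Pt) : ZMod 2 := tri u v w z + tri u y w z

/-- the four crossing bits, part of the edge `f` before the parameter `t` -/
theorem before {p : Fin n → Pt} {y : Pt} {u j f : Fin n} {t : ℝ} (hu : nx u = j)
    (hp : Gen p) (hq : Gen (update p j y)) (huj : u ≠ j) (hjn : nx j ≠ j) (hun : nx j ≠ u)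
    (f1 : f ≠ u) (f2 : f ≠ j) (f3 : f ≠ nx j) (g1 : nx f ≠ u) (g2 : nx f ≠ j) (g3 : nx f ≠ nx j)
    (hf : nx f ≠ f) (ht : 0 < t) (ht1 : t ≤ 1)
    (hc1 : orient (p u) (p j) (ept p f t) ≠ 0)
    (hc2 : orient (p j) (p (nx j)) (ept p f t) ≠ 0)
    (hc3 : orient (p (nx j)) (p u) (ept p f t) ≠ 0)
    (hc4 : orient (p u) y (ept p f t) ≠ 0)
    (hc5 : orient y (p (nx j)) (ept p f t) ≠ 0) :
    bt (Cr p u f ∧ par p f u < t) + bt (Cr p j f ∧ par p f j < t) +
      (bt (Cr (update p j y) u f ∧ par (update p j y) f u < t) +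
        bt (Cr (update p j y) j f ∧ par (update p j y) f j < t)) =
      Wt (p u) (p j) y (p (nx j)) (p f) + Wt (p u) (p j) y (p (nx j)) (ept p f t) := by
  have qu : update p j y u = p u := update_of_ne huj _ _
  have qj : update p j y j = y := update_self _ _ _
  have qn : update p j y (nx j) = p (nx j) := update_of_ne hjn _ _
  have qf : update p j y f = p f := update_of_ne f2 _ _
  have qg : update p j y (nx f) = p (nx f) := update_of_ne g2 _ _
  have qe : ept (update p j y) f t = ept p f t := by
    unfold ept; rw [qf, qg]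
  have k1 : bt (Cr p u f ∧ par p f u < t) = Xb (p f) (ept p f t) (p u) (p j) := by
    rw [Cr_comm p u f, bit_cut ht ht1, hu]
    · rw [hu]; exact gp hp huj f2.symm f1.symm
    · rw [hu]; exact hc1
    · exact gp hp hf.symm g1 f1
    · rw [hu]; exact gp hp hf.symm g2 f2
  have k2 : bt (Cr p j f ∧ par p f j < t) = Xb (p f) (ept p f t) (p j) (p (nx j)) := by
    rw [Cr_comm p j f, bit_cut ht ht1]
    · exact gp hp hjn.symm f3.symm f2.symm
    · exact hc2
    · exact gp hp hf.symm g2 f2
    · exact gp hp hf.symm g3 f3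
  have k3 : bt (Cr (update p j y) u f ∧ par (update p j y) f u < t) =
      Xb (p f) (ept p f t) (p u) y := by
    rw [Cr_comm _ u f, bit_cut ht ht1, hu, qe, qf, qu, qj]
    · rw [hu]; exact gp hq huj f2.symm f1.symm
    · rw [hu, qe, qu, qj]; exact hc4
    · exact gp hq hf.symm g1 f1
    · rw [hu]; exact gp hq hf.symm g2 f2
  have k4 : bt (Cr (update p j y) j f ∧ par (update p j y) f j < t) =
      Xb (p f) (ept p f t) y (p (nx j)) := by
    rw [Cr_comm _ j f, bit_cut ht ht1, qe, qf, qn, qj]
    · exact gp hq hjn.symm f3.symm f2.symm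
    · rw [qe, qj, qn]; exact hc5
    · exact gp hq hf.symm g2 f2
    · exact gp hq hf.symm g3 f3
  have o1 : orient (p f) (ept p f t) (p u) ≠ 0 := by
    rw [orient_ept']; exact mul_ne_zero ht.ne' (gp hp hf.symm g1 f1)
  have o2 : orient (p f) (ept p f t) (p j) ≠ 0 := by
    rw [orient_ept']; exact mul_ne_zero ht.ne' (gp hp hf.symm g2 f2)
  have o3 : orient (p f) (ept p f t) (p (nx j)) ≠ 0 := by
    rw [orient_ept']; exact mul_ne_zero ht.ne' (gp hp hf.symm g3 f3)
  have o4 : orient (p f) (ept p f t) y ≠ 0 := by
    have := gp hq hf.symm g2 f2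
    rw [qf, qg, qj] at this
    rw [orient_ept']; exact mul_ne_zero ht.ne' this
  have T1 := triangle o1 o2 o3 (gp hp huj f2.symm f1.symm) (gp hp hjn.symm f3.symm f2.symm)
    (gp hp hun f1.symm f3.symm) hc1 hc2 hc3
  have a1 : orient (p u) y (p f) ≠ 0 := by
    have := gp hq huj f2.symm f1.symm
    rwa [qu, qj, qf] at this
  have a2 : orient y (p (nx j)) (p f) ≠ 0 := by
    have := gp hq hjn.symm f3.symm f2.symm
    rwa [qj, qn, qf] at this
  have T2 := triangle o1 o4 o3 a1 a2 (gp hp hun f1.symm f3.symm) hc4 hc5 hc3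
  rw [k1, k2, k3, k4]
  unfold Wt
  linear_combination T1 + T2 - zadd (Xb (p f) (ept p f t) (p (nx j)) (p u))

/-- the sum of four bits -/
noncomputable def S4 (p q : Fin n → Pt) (u j : Fin n) (R : (Fin n → Pt) → Fin n → Prop) : ZMod 2 :=
  bt (R p u) + bt (R p j) + (bt (R q u) + bt (R q j))

theorem S4_congr {p q : Fin n → Pt} {u j : Fin n} {R R' : (Fin n → Pt) → Fin n → Prop}
    (h : ∀ q' g, (q' = p ∨ q' = q) → (g = u ∨ g = j) → (R q' g ↔ R' q' g)) :
    S4 p q u j R = S4 p q u j R' := by
  unfold S4
  rw [bt_congr (h p u (Or.inl rfl) (Or.inl rfl)), bt_congr (h p j (Or.inl rfl) (Or.inr rfl)),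
    bt_congr (h q u (Or.inr rfl) (Or.inl rfl)), bt_congr (h q j (Or.inr rfl) (Or.inr rfl))]

theorem S4_zero {p q : Fin n → Pt} {u j : Fin n} {R : (Fin n → Pt) → Fin n → Prop}
    (h : ∀ q' g, (q' = p ∨ q' = q) → (g = u ∨ g = j) → ¬ R q' g) :
    S4 p q u j R = 0 := by
  unfold S4
  rw [bt_false (h p u (Or.inl rfl) (Or.inl rfl)), bt_false (h p j (Or.inl rfl) (Or.inr rfl)),
    bt_false (h q u (Or.inr rfl) (Or.inl rfl)), bt_false (h q j (Or.inr rfl) (Or.inr rfl))]
  simp

theorem S4_not {p q : Fin n → Pt} {u j : Fin n} {C Q : (Fin n → Pt) → Fin n → Prop} :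
    S4 p q u j (fun q' g => C q' g ∧ ¬ Q q' g) =
      S4 p q u j C + S4 p q u j (fun q' g => C q' g ∧ Q q' g) := by
  unfold S4
  simp only [bt_and_not]
  ring

/-- the condition in `degP` -/
def Cd (i k : Fin n) (q : Fin n → Pt) (e f : Fin n) : Prop :=
  (e : ℕ) + 1 < n ∧ (f : ℕ) + 1 < n ∧ Cr q e f ∧ Inn q i k e (par q e f) ∧ ¬ Inn q i k f (par q f e)

theorem degP_bt (q : Fin n → Pt) (i k : Fin n) :
    (degP q i k : ZMod 2) = ∑ x : Fin n × Fin n, bt (Cd i k q x.1 x.2) := by
  unfold degP
  rw [Finset.card_filter]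
  push_cast
  refine Finset.sum_congr rfl fun x _ => ?_
  unfold bt Cd
  congr

theorem par_congr {p q : Fin n → Pt} {e f : Fin n} (h1 : q e = p e) (h2 : q (nx e) = p (nx e))
    (h3 : q f = p f) (h4 : q (nx f) = p (nx f)) : par q e f = par p e f := by
  unfold par det; rw [h1, h2, h3, h4]

theorem Cr_congr {p q : Fin n → Pt} {e f : Fin n} (h1 : q e = p e) (h2 : q (nx e) = p (nx e))
    (h3 : q f = p f) (h4 : q (nx f) = p (nx f)) : Cr q e f ↔ Cr p e f := by
  unfold Cr par det; rw [h1, h2, h3, h4]

theorem Inn_congr {p q : Fin n → Pt} {i k : Fin n} (h1 : par q i k = par p i k)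
    (h2 : par q k i = par p k i) (e : Fin n) (t : ℝ) : Inn q i k e t ↔ Inn p i k e t := by
  unfold Inn; rw [h1, h2]

theorem Wt_congr {u v y w z z' : Pt} (h1 : z.1 = z'.1) (h2 : z.2.1 = z'.2.1) :
    Wt u v y w z = Wt u v y w z' := by
  unfold Wt tri orient; rw [h1, h2]

theorem degP_update (hn : 3 ≤ n) {p : Fin n → Pt} {y : Pt} {j i k u z0 zl : Fin n}
    (h0 : (z0 : ℕ) = 0) (hl : (zl : ℕ) + 1 = n) (hu : (u : ℕ) + 1 = j) (hj : (j : ℕ) + 1 < n)
    (hp : Gen p) (hp' : Gen (update p j y)) (hC : Cr p i k) (hik : i < k) (hk : (k : ℕ) + 1 < n)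
    (hpos : (j : ℕ) + 1 < i ∨ ((i : ℕ) + 2 < j ∧ (j : ℕ) + 1 < k) ∨ (k : ℕ) + 2 < j)
    (hc1 : orient (p u) (p j) (ept p i (par p i k)) ≠ 0)
    (hc2 : orient (p j) (p (nx j)) (ept p i (par p i k)) ≠ 0)
    (hc3 : orient (p (nx j)) (p u) (ept p i (par p i k)) ≠ 0)
    (hc4 : orient (p u) y (ept p i (par p i k)) ≠ 0)
    (hc5 : orient y (p (nx j)) (ept p i (par p i k)) ≠ 0) :
    (degP (update p j y) i k : ZMod 2) =
      degP p i k + if i < j ∧ j < k then theta (p z0) (p zl) (p u) (p j) y (p (nx j)) else 0 := by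
  have hik' : (i : ℕ) < k := hik
  have hnu : nx u = j := Fin.ext (by rw [nx_val (by omega), hu])
  have hnj : (nx j : ℕ) = j + 1 := nx_val hj
  have huj : u ≠ j := by intro h; rw [h] at hu; omega
  have hjn : nx j ≠ j := nx_ne hn j
  have hun : nx j ≠ u := by intro h; rw [h] at hnj; omega
  have hni : (nx i : ℕ) = i + 1 := nx_val (by omega)
  have hnk : (nx k : ℕ) = k + 1 := nx_val hk
  have ne_of : ∀ {a b : Fin n}, (a : ℕ) ≠ b → a ≠ b := fun h h' => h (congrArg Fin.val h')
  set q := update p j y with hq
  have qv : ∀ v, v ≠ j → q v = p v := fun v hv => update_of_ne hv _ _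
  have qn : ∀ v, v ≠ u → q (nx v) = p (nx v) := fun v hv =>
    qv _ (fun h => hv (nx_inj (h.trans hnu.symm)))
  have iu : i ≠ u := ne_of (by omega)
  have ij : i ≠ j := ne_of (by omega)
  have ku : k ≠ u := ne_of (by omega)
  have kj : k ≠ j := ne_of (by omega)
  have ene : ∀ e, e ≠ u ∧ e ≠ j → q e = p e ∧ q (nx e) = p (nx e) := fun e he =>
    ⟨qv e he.2, qn e he.1⟩
  have pik : par q i k = par p i k :=
    par_congr (qv _ ij) (qn _ iu) (qv _ kj) (qn _ ku)
  have pki : par q k i = par p k i :=
    par_congr (qv _ kj) (qn _ ku) (qv _ ij) (qn _ iu)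
  have hCq : Cr q i k := (Cr_congr (qv _ ij) (qn _ iu) (qv _ kj) (qn _ ku)).2 hC
  -- the value `W`
  set W : Pt → ZMod 2 := Wt (p u) (p j) y (p (nx j)) with hW
  -- full edges
  have hfull : ∀ f : Fin n, f ≠ u → f ≠ j → f ≠ nx j → nx f ≠ u →
      S4 p q u j (fun q' g => Cr q' g f) = W (p f) + W (p (nx f)) := by
    intro f f1 f2 f3 g1
    have g2 : nx f ≠ j := fun h => f1 (nx_inj (h.trans hnu.symm))
    have g3 : nx f ≠ nx j := fun h => f2 (nx_inj h)
    have e1 : ept p f 1 = p (nx f) := by simp [ept]
    have a1 : orient (p u) y (p (nx f)) ≠ 0 := by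
      have := gp hp' huj g2.symm g1.symm
      rwa [qv _ huj, qv _ g2, hq, update_self] at this
    have a2 : orient y (p (nx j)) (p (nx f)) ≠ 0 := by
      have := gp hp' hjn.symm g3.symm g2.symm
      rwa [qv _ hjn, qv _ g2, hq, update_self] at this
    have := before (t := 1) hnu hp hp' huj hjn hun f1 f2 f3 g1 g2 g3 (nx_ne hn f) one_pos le_rfl
      (by rw [e1]; exact gp hp huj g2.symm g1.symm)
      (by rw [e1]; exact gp hp hjn.symm g3.symm g2.symm)
      (by rw [e1]; exact gp hp hun g1.symm g3.symm)
      (by rw [e1]; exact a1) (by rw [e1]; exact a2)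
    rw [e1] at this
    rw [← this]
    have c1 : S4 p q u j (fun q' g => Cr q' g f) =
        S4 p q u j (fun q' g => Cr q' g f ∧ par q' f g < 1) :=
      S4_congr (fun q' g _ _ => ⟨fun h => ⟨h, h.2.2.2⟩, fun h => h.1⟩)
    rw [c1]
    rfl
  -- the first part of the edge `i`
  have hbi : S4 p q u j (fun q' g => Cr q' g i ∧ par q' i g < par p i k) =
      W (p i) + W (ept p i (par p i k)) :=
    before hnu hp hp' huj hjn hun iu ij (ne_of (by omega)) (ne_of (by omega)) (ne_of (by omega))
      (ne_of (by omega)) (nx_ne hn i) hC.2.1.1 hC.2.1.2.le hc1 hc2 hc3 hc4 hc5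
  -- the first part of the edge `k`
  have hm := (meet hC.1 (par p i k) (par p k i)).2 ⟨rfl, rfl⟩
  have ho : ∀ a b : Pt, orient a b (ept p k (par p k i)) = orient a b (ept p i (par p i k)) := by
    intro a b
    unfold orient
    rw [hm.1, hm.2]
  have hbk : S4 p q u j (fun q' g => Cr q' g k ∧ par q' k g < par p k i) =
      W (p k) + W (ept p i (par p i k)) := by
    rw [hW, Wt_congr hm.1 hm.2]
    exact before hnu hp hp' huj hjn hun ku kj (ne_of (by omega)) (ne_of (by omega))
      (ne_of (by omega)) (ne_of (by omega)) (nx_ne hn k) hC.2.2.1 hC.2.2.2.le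
      (by rw [ho]; exact hc1) (by rw [ho]; exact hc2) (by rw [ho]; exact hc3)
      (by rw [ho]; exact hc4) (by rw [ho]; exact hc5)
  have hfi := hfull i iu ij (ne_of (by omega)) (ne_of (by omega))
  have hfk := hfull k ku kj (ne_of (by omega)) (ne_of (by omega))
  set wc := W (ept p i (par p i k)) with hwc
  -- both polygons
  have hPIK : ∀ q', (q' = p ∨ q' = q) → par q' i k = par p i k := by
    rintro q' (rfl | rfl)
    · rfl
    · exact pik
  have hPKI : ∀ q', (q' = p ∨ q' = q) → par q' k i = par p k i := by
    rintro q' (rfl | rfl)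
    · rfl
    · exact pki
  have hne : ∀ q' g, (q' = p ∨ q' = q) → (g = u ∨ g = j) → Cr q' g i →
      par q' i g ≠ par p i k := by
    rintro q' g hq' hg hcr
    have hgk : g ≠ k := by
      rcases hg with rfl | rfl
      · exact ku.symm
      · exact kj.symm
    rw [← hPIK q' hq']
    rcases hq' with rfl | rfl
    · exact hp.notrip i g k (Cr_symm hcr) hC hgk
    · exact hp'.notrip i g k (Cr_symm hcr) hCq hgk
  -- same conditions
  have hsame : ∀ e f, e ≠ u ∧ e ≠ j → f ≠ u ∧ f ≠ j → (Cd i k q e f ↔ Cd i k p e f) := by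
    intro e f he hf
    unfold Cd
    obtain ⟨e1, e2⟩ := ene e he
    obtain ⟨f1, f2⟩ := ene f hf
    rw [Cr_congr e1 e2 f1 f2, Inn_congr pik pki, Inn_congr pik pki, par_congr e1 e2 f1 f2,
      par_congr f1 f2 e1 e2]
  -- the points
  obtain ⟨P', hP'⟩ : ∃ P' : ℕ → Pt, ∀ f : Fin n, P' f = p f :=
    ⟨fun m => if h : m < n then p ⟨m, h⟩ else p z0, fun f => by simp [f.2]⟩
  have hP'1 : ∀ f : Fin n, (f : ℕ) + 1 < n → P' ((f : ℕ) + 1) = p (nx f) := by
    intro f hf
    rw [← nx_val hf, hP']
  have hgoal : (degP q i k : ZMod 2) + degP p i k =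
      if i < j ∧ j < k then theta (p z0) (p zl) (p u) (p j) y (p (nx j)) else 0 := by
    rw [degP_bt, degP_bt, ← Finset.sum_add_distrib]
    by_cases hcase : (i : ℕ) + 2 < j ∧ (j : ℕ) + 1 < k
    · -- the vertex `j` is on the loop
      have hin : ∀ g, (g = u ∨ g = j) → ∀ q' t, Inn q' i k g t := by
        intro g hg q' t
        have : (i : ℕ) < g ∧ (g : ℕ) < k := by
          rcases hg with rfl | rfl <;> constructor <;> omega
        exact ⟨Or.inl this.1, Or.inl this.2⟩
      have hij : i < j ∧ j < k := by
        constructor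
        · show (i : ℕ) < j
          omega
        · show (j : ℕ) < k
          omega
      rw [if_pos hij, Fintype.sum_prod_type, Fintype.sum_eq_add u j huj]
      · rw [← Finset.sum_add_distrib]
        have key := tele_fin hn (fun m => if m ≤ (i : ℕ) ∨ (k : ℕ) < m then W (P' m) else wc)
          (fun f => bt (Cd i k q u f) + bt (Cd i k p u f) +
            (bt (Cd i k q j f) + bt (Cd i k p j f))) ?_ ?_
        · refine key.trans ?_
          rw [if_pos (Or.inl (Nat.zero_le _)), if_pos (Or.inr (by omega))]
          have e1 : P' 0 = p z0 := by rw [← h0, hP']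
          have e2 : P' (n - 1) = p zl := by
            rw [← hP']; congr 1; omega
          rw [e1, e2, hW]
          unfold theta Wt
          ring
        · intro f hf
          have e1 : bt (Cd i k q u f) + bt (Cd i k p u f) +
              (bt (Cd i k q j f) + bt (Cd i k p j f)) =
              S4 p q u j (fun q' g => Cr q' g f ∧ ¬ Inn q' i k f (par q' f g)) := by
            have e2 : S4 p q u j (fun q' g => Cr q' g f ∧ ¬ Inn q' i k f (par q' f g)) =
                S4 p q u j (fun q' g => Cd i k q' g f) := by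
              refine S4_congr fun q' g _ hg => ?_
              have hg1 : (g : ℕ) + 1 < n := by rcases hg with rfl | rfl <;> omega
              exact ⟨fun h => ⟨hg1, hf, h.1, hin g hg q' _, h.2⟩, fun h => ⟨h.2.2.1, h.2.2.2.2⟩⟩
            rw [e2]
            unfold S4
            ring
          rw [e1, hP', hP'1 f hf]
          rcases lt_trichotomy (f : ℕ) i with h | h | h
          · -- before the edge i
            rw [if_pos (Or.inl h.le), if_pos (Or.inl (by omega))]
            rw [← hfull f (ne_of (by omega)) (ne_of (by omega)) (ne_of (by omega))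
              (ne_of (by rw [nx_val hf]; omega))]
            refine S4_congr fun q' g _ _ => ⟨fun h => h.1, fun h' => ⟨h', ?_⟩⟩
            rintro ⟨g1 | g1, -⟩
            · have : (i : ℕ) < f := g1
              omega
            · rw [g1.1] at h; omega
          · -- the edge i
            obtain rfl : f = i := Fin.ext h
            rw [if_pos (Or.inl le_rfl), if_neg (by omega), ← hbi]
            refine S4_congr fun q' g hq' hg => ?_
            constructor
            · rintro ⟨g1, g2⟩
              refine ⟨g1, lt_of_le_of_ne ?_ (hne q' g hq' hg g1)⟩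
              rw [← hPIK q' hq']
              by_contra g3
              exact g2 ⟨Or.inr ⟨rfl, not_le.mp g3⟩, Or.inl hik⟩
            · rintro ⟨g1, g2⟩
              refine ⟨g1, ?_⟩
              rintro ⟨g3 | g3, -⟩
              · exact lt_irrefl _ g3
              · rw [hPIK q' hq'] at g3
                exact lt_asymm g2 g3.2
          · rcases lt_trichotomy (f : ℕ) k with h' | h' | h'
            · -- inside
              rw [if_neg (by omega), if_neg (by omega), zadd]
              refine S4_zero fun q' g _ _ => ?_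
              rintro ⟨-, g2⟩
              exact g2 ⟨Or.inl h, Or.inl h'⟩
            · -- the edge k
              obtain rfl : f = k := Fin.ext h'
              rw [if_neg (by omega), if_pos (Or.inr (by omega))]
              have e3 : S4 p q u j (fun q' g => Cr q' g f ∧ ¬ Inn q' i f f (par q' f g)) =
                  S4 p q u j (fun q' g => Cr q' g f ∧ ¬ par q' f g < par p f i) := by
                refine S4_congr fun q' g hq' hg => ?_
                rw [← hPKI q' hq']
                constructor
                · rintro ⟨g1, g2⟩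
                  exact ⟨g1, fun g3 => g2 ⟨Or.inl hik, Or.inr ⟨rfl, g3⟩⟩⟩
                · rintro ⟨g1, g2⟩
                  refine ⟨g1, ?_⟩
                  rintro ⟨-, g3 | g3⟩
                  · exact lt_irrefl _ g3
                  · exact g2 g3.2
              rw [e3, S4_not, hfk, hbk]
              linear_combination zadd (W (p f))
            · -- after the edge k
              rw [if_pos (Or.inr h'), if_pos (Or.inr (by omega))]
              rw [← hfull f (ne_of (by omega)) (ne_of (by omega)) (ne_of (by omega))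
                (ne_of (by rw [nx_val hf]; omega))]
              refine S4_congr fun q' g _ _ => ⟨fun h => h.1, fun h'' => ⟨h'', ?_⟩⟩
              rintro ⟨-, g1 | g1⟩
              · have : (f : ℕ) < k := g1
                omega
              · rw [g1.1] at h'; omega
        · intro f hf
          have : ∀ q' g, ¬ Cd i k q' g f := fun q' g h => hf h.2.1
          rw [bt_false (this _ _), bt_false (this _ _), bt_false (this _ _), bt_false (this _ _)]
          simp
      · intro e he
        refine Finset.sum_eq_zero fun f _ => ?_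
        by_cases hf : f = u ∨ f = j
        · have : ∀ q', ¬ Cd i k q' e f := fun q' h => h.2.2.2.2 (hin f hf q' _)
          rw [bt_false (this _), bt_false (this _), add_zero]
        · rw [bt_congr (hsame e f he (not_or.mp hf)), zadd]
    · -- the vertex `j` is not on the loop
      have hcase' : (j : ℕ) + 1 < i ∨ (k : ℕ) + 2 < j := by tauto
      have hout : ∀ g, (g = u ∨ g = j) → ∀ q' t, ¬ Inn q' i k g t := by
        intro g hg q' t
        have : (g : ℕ) < i ∨ (k : ℕ) < g := by
          rcases hg with rfl | rfl <;> omega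
        rintro ⟨g1, g2⟩
        rcases this with h | h
        · rcases g1 with g1 | g1
          · have : (i : ℕ) < g := g1
            omega
          · rw [g1.1] at h; omega
        · rcases g2 with g2 | g2
          · have : (g : ℕ) < k := g2
            omega
          · rw [g2.1] at h; omega
      have hij : ¬ (i < j ∧ j < k) := by
        rintro ⟨h1, h2⟩
        have h1' : (i : ℕ) < j := h1
        have h2' : (j : ℕ) < k := h2
        omega
      rw [if_neg hij, Fintype.sum_prod_type_right, Fintype.sum_eq_add u j huj]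
      · rw [← Finset.sum_add_distrib]
        have key := tele_fin hn (fun m => if (i : ℕ) < m ∧ m ≤ (k : ℕ) then W (P' m) else wc)
          (fun f => bt (Cd i k q f u) + bt (Cd i k p f u) +
            (bt (Cd i k q f j) + bt (Cd i k p f j))) ?_ ?_
        · refine key.trans ?_
          rw [if_neg (by omega), if_neg (by omega), zadd]
        · intro f hf
          have e1 : bt (Cd i k q f u) + bt (Cd i k p f u) +
              (bt (Cd i k q f j) + bt (Cd i k p f j)) =
              S4 p q u j (fun q' g => Cr q' g f ∧ Inn q' i k f (par q' f g)) := by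
            have e2 : S4 p q u j (fun q' g => Cr q' g f ∧ Inn q' i k f (par q' f g)) =
                S4 p q u j (fun q' g => Cd i k q' f g) := by
              refine S4_congr fun q' g _ hg => ?_
              have hg1 : (g : ℕ) + 1 < n := by rcases hg with rfl | rfl <;> omega
              exact ⟨fun h => ⟨hf, hg1, Cr_symm h.1, h.2, hout g hg q' _⟩,
                fun h => ⟨Cr_symm h.2.2.1, h.2.2.2.1⟩⟩
            rw [e2]
            unfold S4
            ring
          rw [e1, hP', hP'1 f hf]
          rcases lt_trichotomy (f : ℕ) i with h | h | h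
          · -- before the edge i
            rw [if_neg (by omega), if_neg (by omega), zadd]
            refine S4_zero fun q' g _ _ => ?_
            rintro ⟨-, g1 | g1, -⟩
            · have : (i : ℕ) < f := g1
              omega
            · rw [g1.1] at h; omega
          · -- the edge i
            obtain rfl : f = i := Fin.ext h
            rw [if_neg (by omega), if_pos (by omega)]
            have e3 : S4 p q u j (fun q' g => Cr q' g f ∧ Inn q' f k f (par q' f g)) =
                S4 p q u j (fun q' g => Cr q' g f ∧ ¬ par q' f g < par p f k) := by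
              refine S4_congr fun q' g hq' hg => ?_
              constructor
              · rintro ⟨g1, g3 | g3, -⟩
                · exact absurd g3 (lt_irrefl _)
                · rw [hPIK q' hq'] at g3
                  exact ⟨g1, not_lt.mpr g3.2.le⟩
              · rintro ⟨g1, g2⟩
                refine ⟨g1, Or.inr ⟨rfl, ?_⟩, Or.inl hik⟩
                rw [hPIK q' hq']
                exact lt_of_le_of_ne (not_lt.mp g2) (hne q' g hq' hg g1).symm
            rw [e3, S4_not, hfi, hbi]
            linear_combination zadd (W (p f))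
          · rcases lt_trichotomy (f : ℕ) k with h' | h' | h'
            · -- inside
              rw [if_pos (by omega), if_pos (by omega)]
              rw [← hfull f (ne_of (by omega)) (ne_of (by omega)) (ne_of (by omega))
                (ne_of (by rw [nx_val hf]; omega))]
              exact S4_congr fun q' g _ _ => ⟨fun h => h.1, fun h'' => ⟨h'', Or.inl h, Or.inl h'⟩⟩
            · -- the edge k
              obtain rfl : f = k := Fin.ext h'
              rw [if_pos (by omega), if_neg (by omega), ← hbk]
              refine S4_congr fun q' g hq' hg => ?_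
              rw [← hPKI q' hq']
              constructor
              · rintro ⟨g1, -, g3 | g3⟩
                · exact absurd g3 (lt_irrefl _)
                · exact ⟨g1, g3.2⟩
              · rintro ⟨g1, g2⟩
                exact ⟨g1, Or.inl hik, Or.inr ⟨rfl, g2⟩⟩
            · -- after the edge k
              rw [if_neg (by omega), if_neg (by omega), zadd]
              refine S4_zero fun q' g _ _ => ?_
              rintro ⟨-, -, g1 | g1⟩
              · have : (f : ℕ) < k := g1
                omega
              · rw [g1.1] at h'; omega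
        · intro f hf
          have : ∀ q' g, ¬ Cd i k q' f g := fun q' g h => hf h.1
          rw [bt_false (this _ _), bt_false (this _ _), bt_false (this _ _), bt_false (this _ _)]
          simp
      · intro f hf
        refine Finset.sum_eq_zero fun e _ => ?_
        by_cases he : e = u ∨ e = j
        · have : ∀ q', ¬ Cd i k q' e f := fun q' h => hout e he q' _ h.2.2.2.1
          rw [bt_false (this _), bt_false (this _), add_zero]
        · rw [bt_congr (hsame e f (not_or.mp he) hf), zadd]
  linear_combination hgoal - zadd (degP p i k : ZMod 2)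

end Pool.Agent.H756.RW
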