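import Pool.Agent.H756.RW.Sw1

set_option autoImplicit false

/-!
# It is unlikely that there is no switch

Pairs of independent vertices `ζ i = (ζ i).1, (ζ i).2`, `i : Fin n`.  For every `j ∈ S` the indices `pr j`, `j`,
`su j` are different, the sets `{pr j, j, su j}` are pairwise disjoint and do not contain `z0` or `zl`.  The
claim: the probability that for all `j ∈ S`
`theta (ζ z0).1 (ζ zl).1 (ζ (pr j)).1 (ζ j).1 (ζ j).2 (ζ (su j)).1 = 0` is at most `ε + (1 - q) ^ #S`, if
`Q (a, b) < q` has probability at most `ε` for two independent vertices `a`, `b`.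

Paper proof.  For fixed `a = ζ z0`, `b = ζ zl` the events `theta = 0`, `j ∈ S`, depend on disjoint sets of
coordinates, so they are independent, and each of them has the probability `1 - Q (a, b)` (`theta` has only the
values `0` and `1` in `ZMod 2`; `Q` is the measure of `theta = 1` for independent `u = (ζ (pr j)).1`, `y = (ζ j).1`,
`y' = (ζ j).2`, `v = (ζ (su j)).1`).  Hence the conditional probability is `(1 - Q (a, b)) ^ #S`, which is at
most `(1 - q) ^ #S` outside of `{Q < q}`.  (For the Lean proof: `Measure.pi` and `lmarginal`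
(`Mathlib.MeasureTheory.Integral.Marginal`), or induction on `S`, integrating out the coordinates
`pr j`, `j`, `su j` of one `j ∈ S` at a time; or `iIndepFun` with `iIndepFun_pi` and `finsets_comp`.)
`measurable_theta` is in `Sw1.lean` (it may be used although it is still a `sorry` there).
-/

namespace Pool.Agent.H756.RW

open MeasureTheory Finset
open scoped ENNReal
open Pool.Agent.H756.RP

namespace Sw2Aux

section
variable {Y : Type*} [MeasurableSpace Y] {n : ℕ}

/-- a factor which does not depend on the coordinates in `s` can be pulled out of `lmarginal` -/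
theorem lmarginal_const_mul (ν : Measure Y) [SigmaFinite ν] (s : Finset (Fin n))
    (h f : (Fin n → Y) → ℝ≥0∞) (hf : Measurable f)
    (hh : ∀ x y : Fin n → Y, (∀ i, i ∉ s → x i = y i) → h x = h y) :
    (∫⋯∫⁻_s, (fun x => h x * f x) ∂(fun _ => ν)) = fun x => h x * (∫⋯∫⁻_s, f ∂(fun _ => ν)) x := by
  ext x
  have e : ∀ y : (∀ _ : s, Y), h (Function.updateFinset x s y) * f (Function.updateFinset x s y) =
      h x * f (Function.updateFinset x s y) := by
    intro y
    have : h (Function.updateFinset x s y) = h x := by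
      apply hh
      intro i hi
      simp [Function.updateFinset_def, hi]
    rw [this]
  have e2 := lintegral_congr (μ := Measure.pi fun _ : s => ν) e
  exact e2.trans (lintegral_const_mul _ (hf.comp measurable_updateFinset))

theorem lmarginal_indep (ν : Measure Y) [IsProbabilityMeasure ν] (s : Finset (Fin n))
    (h : (Fin n → Y) → ℝ≥0∞)
    (hh : ∀ x y : Fin n → Y, (∀ i, i ∉ s → x i = y i) → h x = h y) :
    (∫⋯∫⁻_s, h ∂(fun _ => ν)) = h := by
  have := lmarginal_const_mul ν s h (fun _ => 1) measurable_const hh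
  simp only [mul_one] at this
  rw [this]
  ext x
  simp [lmarginal]

/-- three coordinates -/
theorem lmarginal_three (ν : Measure Y) [IsProbabilityMeasure ν] (i j k : Fin n) (hij : i ≠ j)
    (hik : i ≠ k) (hjk : j ≠ k) (f : (Fin n → Y) → ℝ≥0∞) (hf : Measurable f) :
    (∫⋯∫⁻_({i, j, k} : Finset (Fin n)), f ∂(fun _ => ν)) = fun x =>
      ∫⁻ u, ∫⁻ y, ∫⁻ v, f (Function.update (Function.update (Function.update x i u) j y) k v)
        ∂ν ∂ν ∂ν := by
  ext x
  rw [lmarginal_insert f hf (by simp [hij, hik])]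
  refine lintegral_congr fun u => ?_
  rw [lmarginal_insert f hf (by simp [hjk])]
  refine lintegral_congr fun y => ?_
  rw [lmarginal_singleton]

theorem lmarginal_blocks (ν : Measure Y) [IsProbabilityMeasure ν]
    (F : Y × Y → Y → Y → Y → ℝ≥0∞)
    (hF : Measurable (fun z : (Y × Y) × Y × Y × Y => F z.1 z.2.1 z.2.2.1 z.2.2.2))
    (z0 zl : Fin n) (pr su : Fin n → Fin n) (S : Finset (Fin n))
    (hd : ∀ j ∈ S, pr j ≠ j ∧ j ≠ su j ∧ pr j ≠ su j)
    (h0 : ∀ j ∈ S, z0 ≠ pr j ∧ z0 ≠ j ∧ z0 ≠ su j)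
    (hl : ∀ j ∈ S, zl ≠ pr j ∧ zl ≠ j ∧ zl ≠ su j)
    (hdis : ∀ j ∈ S, ∀ j' ∈ S, j ≠ j' →
      Disjoint ({pr j, j, su j} : Finset (Fin n)) {pr j', j', su j'}) :
    (∫⋯∫⁻_(S.biUnion fun j => ({pr j, j, su j} : Finset (Fin n))),
      (fun x => ∏ j ∈ S, F (x z0, x zl) (x (pr j)) (x j) (x (su j))) ∂(fun _ => ν)) =
    fun x => (∫⁻ u, ∫⁻ y, ∫⁻ v, F (x z0, x zl) u y v ∂ν ∂ν ∂ν) ^ S.card := by
  have hFj : ∀ j : Fin n, Measurable
      (fun x : Fin n → Y => F (x z0, x zl) (x (pr j)) (x j) (x (su j))) := by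
    intro j
    exact hF.comp (by fun_prop : Measurable
      (fun x : Fin n → Y => ((x z0, x zl), x (pr j), x j, x (su j))))
  induction S using Finset.induction with
  | empty => simp
  | insert a S ha ih =>
    have ih' := ih (fun j hj => hd j (mem_insert_of_mem hj)) (fun j hj => h0 j (mem_insert_of_mem hj))
      (fun j hj => hl j (mem_insert_of_mem hj))
      (fun j hj j' hj' => hdis j (mem_insert_of_mem hj) j' (mem_insert_of_mem hj'))
    have hda := hd a (mem_insert_self a S)
    have h0a := h0 a (mem_insert_self a S)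
    have hla := hl a (mem_insert_self a S)
    have hdj : Disjoint ({pr a, a, su a} : Finset (Fin n))
        (S.biUnion fun j => ({pr j, j, su j} : Finset (Fin n))) := by
      rw [Finset.disjoint_biUnion_right]
      intro j hj
      exact hdis a (mem_insert_self a S) j (mem_insert_of_mem hj) (by rintro rfl; exact ha hj)
    have hmS : Measurable (fun x : Fin n → Y => ∏ j ∈ S, F (x z0, x zl) (x (pr j)) (x j) (x (su j))) :=
      Finset.measurable_prod S fun j _ => hFj j
    have hmG : Measurable (fun x : Fin n → Y => ∏ j ∈ insert a S,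
        F (x z0, x zl) (x (pr j)) (x j) (x (su j))) :=
      Finset.measurable_prod _ fun j _ => hFj j
    rw [Finset.biUnion_insert, lmarginal_union (fun _ => ν) _ hmG hdj]
    have e1 : (∫⋯∫⁻_(S.biUnion fun j => ({pr j, j, su j} : Finset (Fin n))),
        (fun x => ∏ j ∈ insert a S, F (x z0, x zl) (x (pr j)) (x j) (x (su j))) ∂(fun _ => ν)) =
        fun x => (∫⁻ u, ∫⁻ y, ∫⁻ v, F (x z0, x zl) u y v ∂ν ∂ν ∂ν) ^ S.card *
          F (x z0, x zl) (x (pr a)) (x a) (x (su a)) := by
      have e2 : (fun x : Fin n → Y => ∏ j ∈ insert a S, F (x z0, x zl) (x (pr j)) (x j) (x (su j))) =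
          fun x => F (x z0, x zl) (x (pr a)) (x a) (x (su a)) *
            ∏ j ∈ S, F (x z0, x zl) (x (pr j)) (x j) (x (su j)) := by
        ext x; rw [Finset.prod_insert ha]
      rw [e2, lmarginal_const_mul ν _ _ _ hmS, ih']
      · ext x; rw [mul_comm]
      · intro x y hxy
        have hn : ∀ i, i = z0 ∨ i = zl ∨ i ∈ ({pr a, a, su a} : Finset (Fin n)) →
            i ∉ (S.biUnion fun j => ({pr j, j, su j} : Finset (Fin n))) := by
          intro i hi hi2
          rcases hi with rfl | rfl | hi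
          · rw [mem_biUnion] at hi2
            obtain ⟨j, hj, hj2⟩ := hi2
            have := h0 j (mem_insert_of_mem hj)
            simp only [mem_insert, mem_singleton] at hj2
            tauto
          · rw [mem_biUnion] at hi2
            obtain ⟨j, hj, hj2⟩ := hi2
            have := hl j (mem_insert_of_mem hj)
            simp only [mem_insert, mem_singleton] at hj2
            tauto
          · exact (Finset.disjoint_left.mp hdj) hi hi2
        rw [hxy z0 (hn _ (Or.inl rfl)), hxy zl (hn _ (Or.inr (Or.inl rfl))),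
          hxy (pr a) (hn _ (Or.inr (Or.inr (by simp)))), hxy a (hn _ (Or.inr (Or.inr (by simp)))),
          hxy (su a) (hn _ (Or.inr (Or.inr (by simp))))]
    rw [e1, lmarginal_const_mul ν _ _ _ (hFj a), lmarginal_three ν _ _ _ hda.1 hda.2.2 hda.2.1 _ (hFj a)]
    · ext x
      rw [Finset.card_insert_of_notMem ha, pow_succ]
      congr 1
      refine lintegral_congr fun u => lintegral_congr fun y => lintegral_congr fun v => ?_
      simp only [Function.update_self, Function.update_of_ne h0a.1, Function.update_of_ne h0a.2.1,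
        Function.update_of_ne h0a.2.2, Function.update_of_ne hla.1, Function.update_of_ne hla.2.1,
        Function.update_of_ne hla.2.2, Function.update_of_ne hda.1, Function.update_of_ne hda.2.1,
        Function.update_of_ne hda.2.2]
    · intro x y hxy
      rw [hxy z0 (by simp [h0a.1, h0a.2.1, h0a.2.2]), hxy zl (by simp [hla.1, hla.2.1, hla.2.2])]

end

end Sw2Aux

namespace Sw2Aux

theorem zmod_two (x : ZMod 2) : x = 0 ∨ x = 1 := by
  revert x; decide

theorem zmod_one_ne : (1 : ZMod 2) ≠ 0 := by decide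

theorem lint_fst {X : Type*} [MeasurableSpace X] (κ : Measure X) [IsProbabilityMeasure κ]
    (φ : X → ℝ≥0∞) (hφ : Measurable φ) :
    ∫⁻ v, φ v.1 ∂(κ.prod κ) = ∫⁻ v, φ v ∂κ := by
  have hm : Measurable fun v : X × X => φ v.1 := hφ.comp measurable_fst
  rw [lintegral_prod _ hm.aemeasurable]
  simp

theorem map_two {X : Type*} [MeasurableSpace X] (κ : Measure X) [IsProbabilityMeasure κ] {n : ℕ}
    (z0 zl : Fin n) (hz : z0 ≠ zl) :
    (Measure.pi fun _ : Fin n => κ.prod κ).map (fun x => ((x z0).1, (x zl).1)) = κ.prod κ := by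
  have hi := ProbabilityTheory.iIndepFun_pi (μ := fun _ : Fin n => κ.prod κ)
    (X := fun (_ : Fin n) (y : X × X) => y.1) (fun i => measurable_fst.aemeasurable)
  have h2 := hi.indepFun hz
  have hm : ∀ i : Fin n, Measurable (fun x : Fin n → X × X => (x i).1) := fun i => by fun_prop
  rw [ProbabilityTheory.indepFun_iff_map_prod_eq_prod_map_map (hm z0).aemeasurable
    (hm zl).aemeasurable] at h2
  rw [h2]
  have hmap : ∀ i : Fin n, (Measure.pi fun _ : Fin n => κ.prod κ).map (fun x => (x i).1) = κ := by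
    intro i
    have e1 : (fun x : Fin n → X × X => (x i).1) = Prod.fst ∘ (Function.eval i) := rfl
    rw [e1, ← Measure.map_map measurable_fst (measurable_pi_apply i),
      (measurePreserving_eval (fun _ : Fin n => κ.prod κ) i).map_eq]
    simp
  rw [hmap, hmap]

section
variable {X : Type*} [MeasurableSpace X] (θ : (X × X) × X × X × X × X → ZMod 2)

open Classical in
/-- the indicator function of the set where `θ` vanishes -/
noncomputable def ind (z : (X × X) × X × X × X × X) : ℝ≥0∞ := if θ z = 0 then 1 else 0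

variable {θ}

theorem measurable_ind (hθ : Measurable θ) : Measurable (ind θ) := by
  classical
  exact Measurable.ite (hθ (MeasurableSet.singleton (0 : ZMod 2))) measurable_const
    measurable_const

/-- the probability that `θ = 0` -/
theorem G_eq (hθ : Measurable θ) (κ : Measure X) [IsProbabilityMeasure κ] (a b : X) :
    ∫⁻ u, ∫⁻ y, ∫⁻ v, ind θ ((a, b), u.1, y.1, y.2, v.1)
      ∂(κ.prod κ) ∂(κ.prod κ) ∂(κ.prod κ) =
      1 - (κ.prod (κ.prod (κ.prod κ))) {z | θ ((a, b), z) = 1} := by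
  have hm1 : Measurable fun z : X × X × X × X => ind θ ((a, b), z) :=
    (measurable_ind hθ).comp (by fun_prop)
  have hS1 : MeasurableSet {z : X × X × X × X | θ ((a, b), z) = 1} := by
    have h1 : Measurable fun z : X × X × X × X => θ ((a, b), z) := hθ.comp (by fun_prop)
    exact h1 (MeasurableSet.singleton (1 : ZMod 2))
  have e1 : 1 - (κ.prod (κ.prod (κ.prod κ))) {z | θ ((a, b), z) = 1} =
      ∫⁻ z, ind θ ((a, b), z) ∂(κ.prod (κ.prod (κ.prod κ))) := by
    rw [← prob_compl_eq_one_sub hS1, ← lintegral_indicator_one hS1.compl]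
    refine lintegral_congr fun z => ?_
    by_cases hz : θ ((a, b), z) = 1
    · have h0 : θ ((a, b), z) ≠ 0 := by rw [hz]; exact zmod_one_ne
      rw [Set.indicator_of_notMem (by simpa using hz)]
      simp [ind, h0]
    · have h0 : θ ((a, b), z) = 0 := (zmod_two _).resolve_right hz
      rw [Set.indicator_of_mem (by simpa using hz)]
      simp [ind, h0]
  rw [e1, lintegral_prod _ hm1.aemeasurable]
  have hmu : Measurable fun u : X => ∫⁻ z, ind θ
      ((a, b), u, z) ∂(κ.prod (κ.prod κ)) :=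
    Measurable.lintegral_prod_right hm1
  rw [← lint_fst κ _ hmu]
  refine lintegral_congr fun u => ?_
  have hm2 : Measurable fun z : X × X × X => ind θ ((a, b), u.1, z) :=
    (measurable_ind hθ).comp (by fun_prop)
  rw [lintegral_prod _ hm2.aemeasurable]
  have hm3 : Measurable fun y : X × X => ∫⁻ v : X × X,
      ind θ ((a, b), u.1, y.1, y.2, v.1) ∂(κ.prod κ) := by
    apply Measurable.lintegral_prod_right
    exact (measurable_ind hθ).comp (by fun_prop)
  rw [lintegral_prod _ hm3.aemeasurable]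
  refine lintegral_congr fun y => ?_
  have hm4 : Measurable fun z : X × X => ind θ ((a, b), u.1, y, z) :=
    (measurable_ind hθ).comp (by fun_prop)
  rw [lintegral_prod _ hm4.aemeasurable]
  refine lintegral_congr fun y' => ?_
  exact lint_fst κ (fun v => ind θ ((a, b), u.1, y, y', v))
    ((measurable_ind hθ).comp (by fun_prop))

/-- the probability of a switch -/
noncomputable def QQ (θ : (X × X) × X × X × X × X → ZMod 2) (κ : Measure X) (a b : X) : ℝ≥0∞ :=
  (κ.prod (κ.prod (κ.prod κ))) {z | θ ((a, b), z) = 1}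

theorem measurable_QQ (hθ : Measurable θ) (κ : Measure X) [IsProbabilityMeasure κ] :
    Measurable fun ab : X × X => QQ θ κ ab.1 ab.2 :=
  measurable_measure_prodMk_left (hθ (MeasurableSet.singleton (1 : ZMod 2)))

theorem no_switch_abs (hθ : Measurable θ) (κ : Measure X) [IsProbabilityMeasure κ] {q ε : ℝ}
    (hq : 0 < q) (hq1 : q ≤ 1) (hε : 0 ≤ ε)
    (h : (κ.prod κ) {ab | QQ θ κ ab.1 ab.2 < ENNReal.ofReal q} ≤ ENNReal.ofReal ε)
    {n : ℕ} (z0 zl : Fin n) (hz : z0 ≠ zl) (S : Finset (Fin n)) (pr su : Fin n → Fin n)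
    (hd : ∀ j ∈ S, pr j ≠ j ∧ j ≠ su j ∧ pr j ≠ su j)
    (h0 : ∀ j ∈ S, z0 ≠ pr j ∧ z0 ≠ j ∧ z0 ≠ su j)
    (hl : ∀ j ∈ S, zl ≠ pr j ∧ zl ≠ j ∧ zl ≠ su j)
    (hdis : ∀ j ∈ S, ∀ j' ∈ S, j ≠ j' →
      Disjoint ({pr j, j, su j} : Finset (Fin n)) {pr j', j', su j'}) :
    (Measure.pi fun _ : Fin n => κ.prod κ) {ζ | ∀ j ∈ S,
      θ (((ζ z0).1, (ζ zl).1), (ζ (pr j)).1, (ζ j).1, (ζ j).2, (ζ (su j)).1) = 0} ≤
      ENNReal.ofReal (ε + (1 - q) ^ S.card) := by
  classical
  set P : Measure (Fin n → X × X) := Measure.pi fun _ : Fin n => κ.prod κ with hP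
  let F : (X × X) × (X × X) → (X × X) → (X × X) → (X × X) → ℝ≥0∞ := fun ab u y v =>
    ind θ ((ab.1.1, ab.2.1), u.1, y.1, y.2, v.1)
  have hF : Measurable (fun z : ((X × X) × (X × X)) × (X × X) × (X × X) × (X × X) =>
      F z.1 z.2.1 z.2.2.1 z.2.2.2) := (measurable_ind hθ).comp (by fun_prop)
  have hFj : ∀ j : Fin n, Measurable
      (fun x : Fin n → X × X => F (x z0, x zl) (x (pr j)) (x j) (x (su j))) := by
    intro j
    exact hF.comp (by fun_prop : Measurable
      (fun x : Fin n → X × X => ((x z0, x zl), x (pr j), x j, x (su j))))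
  -- step 1: the event as an integral
  have s1 : P {ζ | ∀ j ∈ S,
      θ (((ζ z0).1, (ζ zl).1), (ζ (pr j)).1, (ζ j).1, (ζ j).2, (ζ (su j)).1) = 0} ≤
      ∫⁻ x, ∏ j ∈ S, F (x z0, x zl) (x (pr j)) (x j) (x (su j)) ∂P := by
    have hmE : MeasurableSet {ζ : Fin n → X × X | ∀ j ∈ S,
      θ (((ζ z0).1, (ζ zl).1), (ζ (pr j)).1, (ζ j).1, (ζ j).2, (ζ (su j)).1) = 0} := by
      have : {ζ : Fin n → X × X | ∀ j ∈ S,
          θ (((ζ z0).1, (ζ zl).1), (ζ (pr j)).1, (ζ j).1, (ζ j).2, (ζ (su j)).1) = 0} =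
          ⋂ j ∈ S, {ζ : Fin n → X × X |
            θ (((ζ z0).1, (ζ zl).1), (ζ (pr j)).1, (ζ j).1, (ζ j).2, (ζ (su j)).1) = 0} := by
        ext ζ; simp
      rw [this]
      refine Finset.measurableSet_biInter S fun j _ => ?_
      have h2 : Measurable (fun ζ : Fin n → X × X =>
          θ (((ζ z0).1, (ζ zl).1), (ζ (pr j)).1, (ζ j).1, (ζ j).2, (ζ (su j)).1)) :=
        hθ.comp (by fun_prop)
      exact h2 (MeasurableSet.singleton (0 : ZMod 2))
    rw [← lintegral_indicator_one hmE]
    refine lintegral_mono fun x => ?_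
    by_cases hx : x ∈ {ζ : Fin n → X × X | ∀ j ∈ S,
      θ (((ζ z0).1, (ζ zl).1), (ζ (pr j)).1, (ζ j).1, (ζ j).2, (ζ (su j)).1) = 0}
    · rw [Set.indicator_of_mem hx]
      have : ∏ j ∈ S, F (x z0, x zl) (x (pr j)) (x j) (x (su j)) = 1 := by
        refine Finset.prod_eq_one fun j hj => ?_
        have hj2 := hx j hj
        simp [F, ind, hj2]
      simp only [this]
      exact le_rfl
    · rw [Set.indicator_of_notMem hx]; exact zero_le
  -- step 2: integrate out the blocks
  have hQm : Measurable fun x : Fin n → X × X => QQ θ κ (x z0).1 (x zl).1 :=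
    (measurable_QQ hθ κ).comp (by fun_prop : Measurable
      fun x : Fin n → X × X => ((x z0).1, (x zl).1))
  have s2 : ∫⁻ x, ∏ j ∈ S, F (x z0, x zl) (x (pr j)) (x j) (x (su j)) ∂P =
      ∫⁻ x, (1 - QQ θ κ (x z0).1 (x zl).1) ^ S.card ∂P := by
    refine lintegral_eq_of_lmarginal_eq (S.biUnion fun j => ({pr j, j, su j} : Finset (Fin n)))
      (Finset.measurable_prod S fun j _ => hFj j) ((measurable_const.sub hQm).pow_const _) ?_
    rw [lmarginal_blocks (κ.prod κ) F hF z0 zl pr su S hd h0 hl hdis, lmarginal_indep]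
    · ext x
      congr 1
      exact G_eq hθ κ _ _
    · intro x y hxy
      have hn : ∀ i, i = z0 ∨ i = zl →
          i ∉ (S.biUnion fun j => ({pr j, j, su j} : Finset (Fin n))) := by
        intro i hi hi2
        rw [mem_biUnion] at hi2
        obtain ⟨j, hj, hj2⟩ := hi2
        simp only [mem_insert, mem_singleton] at hj2
        rcases hi with rfl | rfl
        · have := h0 j hj
          tauto
        · have := hl j hj
          tauto
      rw [hxy z0 (hn _ (Or.inl rfl)), hxy zl (hn _ (Or.inr rfl))]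
  -- step 3
  have hW : MeasurableSet {x : Fin n → X × X | QQ θ κ (x z0).1 (x zl).1 < ENNReal.ofReal q} :=
    measurableSet_lt hQm measurable_const
  have hW2 : MeasurableSet {ab : X × X | QQ θ κ ab.1 ab.2 < ENNReal.ofReal q} :=
    measurableSet_lt (measurable_QQ hθ κ) measurable_const
  have s3 : ∫⁻ x, (1 - QQ θ κ (x z0).1 (x zl).1) ^ S.card ∂P ≤
      ∫⁻ x, ({x : Fin n → X × X |
        QQ θ κ (x z0).1 (x zl).1 < ENNReal.ofReal q}.indicator (1 : (Fin n → X × X) → ℝ≥0∞) x +
        ENNReal.ofReal ((1 - q) ^ S.card)) ∂P := by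
    refine lintegral_mono fun x => ?_
    by_cases hx : QQ θ κ (x z0).1 (x zl).1 < ENNReal.ofReal q
    · rw [Set.indicator_of_mem (by exact hx)]
      refine le_trans ?_ (le_add_of_nonneg_right zero_le)
      exact pow_le_one₀ zero_le tsub_le_self
    · rw [Set.indicator_of_notMem (by exact hx), zero_add, ENNReal.ofReal_pow (by linarith)]
      refine pow_le_pow_left₀ zero_le ?_ _
      rw [ENNReal.ofReal_sub _ hq.le, ENNReal.ofReal_one]
      exact tsub_le_tsub_left (not_lt.mp hx) _
  have s4 : P {x : Fin n → X × X |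
      QQ θ κ (x z0).1 (x zl).1 < ENNReal.ofReal q} ≤ ENNReal.ofReal ε := by
    refine le_trans (le_of_eq ?_) h
    have hmp := map_two κ z0 zl hz
    rw [← hP] at hmp
    conv_rhs => rw [← hmp]
    rw [Measure.map_apply (by fun_prop) hW2]
    rfl
  calc _ ≤ _ := s1
    _ = _ := s2
    _ ≤ _ := s3
    _ = P {x : Fin n → X × X |
        QQ θ κ (x z0).1 (x zl).1 < ENNReal.ofReal q} + ENNReal.ofReal ((1 - q) ^ S.card) := by
      rw [lintegral_add_right _ measurable_const, lintegral_indicator_one hW]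
      simp [hP]
    _ ≤ ENNReal.ofReal ε + ENNReal.ofReal ((1 - q) ^ S.card) := by gcongr
    _ = _ := (ENNReal.ofReal_add hε (pow_nonneg (by linarith) _)).symm

end

/-- `theta` as a function of marked points -/
noncomputable def th (z : ((Pt × Bool) × (Pt × Bool)) × (Pt × Bool) × (Pt × Bool) × (Pt × Bool) ×
    (Pt × Bool)) : ZMod 2 :=
  theta z.1.1.1 z.1.2.1 z.2.1.1 z.2.2.1.1 z.2.2.2.1.1 z.2.2.2.2.1

theorem measurable_th : Measurable th := by
  have h1 : Measurable fun z : ((Pt × Bool) × (Pt × Bool)) × (Pt × Bool) × (Pt × Bool) ×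
      (Pt × Bool) × (Pt × Bool) =>
      (((z.1.1.1, z.1.2.1), z.2.1.1, z.2.2.1.1, z.2.2.2.1.1, z.2.2.2.2.1) :
        (Pt × Pt) × Pt × Pt × Pt × Pt) := by fun_prop
  have h2 := measurable_theta.comp h1
  simp only [Function.comp_def] at h2
  exact h2

end Sw2Aux

open Sw2Aux

theorem no_switch {κ : Measure (Pt × Bool)} {c₀ H : ℝ} (hκ : Law κ c₀ H) {q ε : ℝ}
    (hq : 0 < q) (hq1 : q ≤ 1) (hε : 0 ≤ ε)
    (h : (κ.prod κ) {ab | Q κ ab.1.1 ab.2.1 < ENNReal.ofReal q} ≤ ENNReal.ofReal ε)
    {n : ℕ} (z0 zl : Fin n) (hz : z0 ≠ zl) (S : Finset (Fin n)) (pr su : Fin n → Fin n)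
    (hd : ∀ j ∈ S, pr j ≠ j ∧ j ≠ su j ∧ pr j ≠ su j)
    (h0 : ∀ j ∈ S, z0 ≠ pr j ∧ z0 ≠ j ∧ z0 ≠ su j)
    (hl : ∀ j ∈ S, zl ≠ pr j ∧ zl ≠ j ∧ zl ≠ su j)
    (hdis : ∀ j ∈ S, ∀ j' ∈ S, j ≠ j' →
      Disjoint ({pr j, j, su j} : Finset (Fin n)) {pr j', j', su j'}) :
    (Measure.pi fun _ : Fin n => κ.prod κ) {ζ | ∀ j ∈ S,
      theta (ζ z0).1.1 (ζ zl).1.1 (ζ (pr j)).1.1 (ζ j).1.1 (ζ j).2.1 (ζ (su j)).1.1 = 0} ≤
      ENNReal.ofReal (ε + (1 - q) ^ S.card) := by
  have := hκ.prob
  exact no_switch_abs measurable_th κ hq hq1 hε h z0 zl hz S pr su hd h0 hl hdis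

end Pool.Agent.H756.RW
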