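import Pool.Agent.H756.RW.Odd
import Pool.Agent.H756.RW.ParG
import Pool.Agent.H756.RW.Sw2
import Pool.Agent.H756.RV.Arr

set_option autoImplicit false

/-!
Mixtures of two configurations: the vertices in `S` are taken from the second one.
-/

namespace Pool.Agent.H756.RW

open Finset Function
open Pool.Agent.H756.RP (Pt nx ept det par Cr hgt gap Gen Dat dat shift Sharp act pts Av blk mem_blk
  nx_inj Av_box Av_lt gap_of_Av cnt cnt_eq pol)
open Pool.Agent.H756.RV (actv mem_actv nowr blk_lt blk_ne_of blk_odd blk_far prs qds)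

variable {n : ℕ}

theorem nxv (i : Fin n) : ((nx i : Fin n) : ℕ) = if (i : ℕ) + 1 = n then 0 else (i : ℕ) + 1 :=
  Pool.Agent.H756.RP.nx_val i

/-- pairs of marked vertices -/
abbrev PP : Type := (Pt × Bool) × (Pt × Bool)

/-- the mixture of the two configurations -/
def mix (S : Finset (Fin n)) (ζ : Fin n → PP) : Fin n → Pt × Bool :=
  fun i => if i ∈ S then (ζ i).2 else (ζ i).1

theorem mix_mem {S : Finset (Fin n)} {ζ : Fin n → PP} {i : Fin n} (h : i ∈ S) :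
    mix S ζ i = (ζ i).2 := if_pos h

theorem mix_not {S : Finset (Fin n)} {ζ : Fin n → PP} {i : Fin n} (h : i ∉ S) :
    mix S ζ i = (ζ i).1 := if_neg h

theorem mix_empty (ζ : Fin n → PP) : mix ∅ ζ = fun i => (ζ i).1 := by
  funext i
  exact mix_not (notMem_empty i)

/-! ## Locality -/

theorem det_loc {p q : Fin n → Pt} {e f : Fin n} (h1 : p e = q e) (h2 : p (nx e) = q (nx e))
    (h3 : p f = q f) (h4 : p (nx f) = q (nx f)) : det p e f = det q e f := by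
  unfold det
  rw [h1, h2, h3, h4]

theorem par_loc {p q : Fin n → Pt} {e f : Fin n} (h1 : p e = q e) (h2 : p (nx e) = q (nx e))
    (h3 : p f = q f) (h4 : p (nx f) = q (nx f)) : par p e f = par q e f := by
  unfold par
  rw [det_loc h1 h2 h3 h4, h1, h3, h4]

theorem Cr_loc {p q : Fin n → Pt} {e f : Fin n} (h1 : p e = q e) (h2 : p (nx e) = q (nx e))
    (h3 : p f = q f) (h4 : p (nx f) = q (nx f)) : Cr p e f ↔ Cr q e f := by
  unfold Cr
  rw [det_loc h1 h2 h3 h4, par_loc h1 h2 h3 h4, par_loc h3 h4 h1 h2]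

theorem gap_loc {p q : Fin n → Pt} {e f : Fin n} (h1 : p e = q e) (h2 : p (nx e) = q (nx e))
    (h3 : p f = q f) (h4 : p (nx f) = q (nx f)) : gap p e f = gap q e f := by
  unfold gap hgt
  rw [par_loc h1 h2 h3 h4, par_loc h3 h4 h1 h2, h1, h2, h3, h4]

theorem ept_loc {p q : Fin n → Pt} {e f : Fin n} (h1 : p e = q e) (h2 : p (nx e) = q (nx e))
    (h3 : p f = q f) (h4 : p (nx f) = q (nx f)) : ept p e (par p e f) = ept q e (par q e f) := by
  unfold ept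
  rw [par_loc h1 h2 h3 h4, h1, h2]

theorem Av_loc {ω ω' : Fin n → Pt × Bool} {i k : Fin n} {δ : ℝ} (h1 : ω i = ω' i)
    (h2 : ω (nx i) = ω' (nx i)) (h3 : ω k = ω' k) (h4 : ω (nx k) = ω' (nx k)) :
    ω ∈ Av i k δ ↔ ω' ∈ Av i k δ := by
  have e1 : pts ω i = pts ω' i := by unfold pts; rw [h1]
  have e2 : pts ω (nx i) = pts ω' (nx i) := by unfold pts; rw [h2]
  have e3 : pts ω k = pts ω' k := by unfold pts; rw [h3]
  have e4 : pts ω (nx k) = pts ω' (nx k) := by unfold pts; rw [h4]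
  unfold Av
  simp only [Set.mem_ofPred_eq]
  rw [h1, h2, h3, h4, gap_loc e1 e2 e3 e4, par_loc e1 e2 e3 e4]

/-! ## Good vertices for two configurations -/

/-- the robustness of a crossing -/
def Rob (δ : ℝ) (ω : Fin n → Pt × Bool) (i k : Fin n) : Prop :=
  ∀ e f, (e = i ∨ nx e = i) → Cr (pts ω) e f → (e, f) ≠ (i, k) → 2 * δ < |gap (pts ω) e f|

open Classical in
/-- the vertices which are good for two configurations -/
noncomputable def good2 (n m a b : ℕ) (δ : ℝ) (ω ω' : Fin n → Pt × Bool) : Finset (Fin n) :=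
  (blk n m a).filter fun i => ∃ k ∈ blk n m b, ω ∈ Av i k δ ∧ Rob δ ω i k ∧ Rob δ ω' i k

theorem mem_good2 {m a b : ℕ} {δ : ℝ} {ω ω' : Fin n → Pt × Bool} {i : Fin n} :
    i ∈ good2 n m a b δ ω ω' ↔ i ∈ blk n m a ∧ ∃ k ∈ blk n m b, ω ∈ Av i k δ ∧ Rob δ ω i k ∧
      Rob δ ω' i k := by
  classical
  unfold good2
  rw [mem_filter]

theorem not_rob {m a b : ℕ} {δ : ℝ} {ω : Fin n → Pt × Bool} {z : Fin n × Fin n}
    (hz : z ∈ prs n m a b) (hA : ω ∈ Av z.1 z.2 δ) (h : ¬ Rob δ ω z.1 z.2) :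
    ∃ y ∈ qds n m a b, ω ∈ Pool.Agent.H756.RP.Bv δ y ∧ y.1 = z := by
  classical
  unfold Rob at h
  push Not at h
  obtain ⟨e, f, he, hc, hne, hg⟩ := h
  refine ⟨(z, (e, f)), ?_, ⟨hA, hc, hg⟩, rfl⟩
  unfold qds
  rw [mem_filter, mem_product]
  exact ⟨⟨hz, mem_univ _⟩, he, hne⟩

/-- the number of the good vertices -/
theorem card_good2 {m a b : ℕ} {δ : ℝ} (hδ : 0 < δ) (ω ω' : Fin n → Pt × Bool)
    (hAv : ∀ z ∈ prs n m a b, ω ∈ Av z.1 z.2 δ → ω' ∈ Av z.1 z.2 δ) :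
    cnt (prs n m a b) (fun z => Av z.1 z.2 δ) ω - cnt (qds n m a b) (Pool.Agent.H756.RP.Bv δ) ω -
        cnt (qds n m a b) (Pool.Agent.H756.RP.Bv δ) ω' ≤
      (good2 n m a b δ ω ω').card := by
  classical
  have hcr : ∀ i k, ω ∈ Av i k δ → Cr (pts ω) i k := fun i k h => (Av_box h).1
  rw [cnt_eq, cnt_eq, cnt_eq]
  set X := (prs n m a b).filter fun z => ω ∈ Av z.1 z.2 δ with hX
  set Y := (qds n m a b).filter fun y => ω ∈ Pool.Agent.H756.RP.Bv δ y with hY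
  set Y' := (qds n m a b).filter fun y => ω' ∈ Pool.Agent.H756.RP.Bv δ y with hY'
  set W := X.filter fun z => Rob δ ω z.1 z.2 ∧ Rob δ ω' z.1 z.2 with hW
  have h1 : (X.filter fun z => ¬ (Rob δ ω z.1 z.2 ∧ Rob δ ω' z.1 z.2)).card ≤
      Y.card + Y'.card := by
    have e1 : (X.filter fun z => ¬ (Rob δ ω z.1 z.2 ∧ Rob δ ω' z.1 z.2)) ⊆
        Y.image Prod.fst ∪ Y'.image Prod.fst := by
      intro z hz
      rw [mem_filter, hX, mem_filter] at hz
      obtain ⟨⟨hz1, hz2⟩, hz3⟩ := hz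
      rw [mem_union, mem_image, mem_image]
      by_cases hr : Rob δ ω z.1 z.2
      · right
        obtain ⟨y, y1, y2, y3⟩ := not_rob hz1 (hAv z hz1 hz2) (fun h => hz3 ⟨hr, h⟩)
        exact ⟨y, mem_filter.2 ⟨y1, y2⟩, y3⟩
      · left
        obtain ⟨y, y1, y2, y3⟩ := not_rob hz1 hz2 hr
        exact ⟨y, mem_filter.2 ⟨y1, y2⟩, y3⟩
    exact (card_le_card e1).trans ((card_union_le _ _).trans
      (Nat.add_le_add card_image_le card_image_le))
  have h2 : W.card ≤ (good2 n m a b δ ω ω').card := by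
    refine card_le_card_of_injOn Prod.fst ?_ ?_
    · intro z hz
      rw [mem_coe, hW, mem_filter, hX, mem_filter] at hz
      have hz1 := hz.1.1
      unfold prs at hz1
      rw [mem_product] at hz1
      rw [mem_coe, mem_good2]
      exact ⟨hz1.1, z.2, hz1.2, hz.1.2, hz.2⟩
    · intro z hz z' hz' h
      rw [mem_coe, hW, mem_filter, hX, mem_filter] at hz hz'
      by_contra hne
      have h3 : z.2 ≠ z'.2 := fun h4 => hne (Prod.ext h h4)
      have h4 : ω ∈ Av z.1 z'.2 δ := by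
        rw [h]
        exact hz'.1.2
      have h5 := hcr _ _ h4
      have h6 := hz.2.1 z.1 z'.2 (Or.inl rfl) h5 (by
        intro h7
        exact h3 (Prod.ext_iff.1 h7).2.symm)
      have h7 := gap_of_Av hδ h4 h5.2.1.1
      linarith
  have h3 := card_filter_add_card_filter_not (s := X) (fun z => Rob δ ω z.1 z.2 ∧
    Rob δ ω' z.1 z.2)
  have h4 : X.card ≤ (good2 n m a b δ ω ω').card + (Y.card + Y'.card) := by
    rw [← h3]
    exact Nat.add_le_add h2 h1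
  have h5 : (X.card : ℝ) ≤ (good2 n m a b δ ω ω').card + (Y.card + Y'.card) := by exact_mod_cast h4
  linarith

/-! ## The blocks -/

/-- the special vertices of the gap `t` -/
def Sp (n m t : ℕ) : Finset (Fin n) :=
  univ.filter fun j => (j : ℕ) % 4 = 1 ∧ 2 * m * (4 * t + 2) ≤ j ∧ (j : ℕ) < 2 * m * (4 * t + 3)

theorem mem_Sp {m t : ℕ} {j : Fin n} :
    j ∈ Sp n m t ↔ (j : ℕ) % 4 = 1 ∧ 2 * m * (4 * t + 2) ≤ j ∧ (j : ℕ) < 2 * m * (4 * t + 3) := by
  unfold Sp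
  rw [mem_filter]
  simp

/-- the special vertices -/
def SpA (n m r : ℕ) : Finset (Fin n) := (range r).biUnion fun t => Sp n m t

theorem mem_SpA {m r : ℕ} {j : Fin n} : j ∈ SpA n m r ↔ ∃ t < r, j ∈ Sp n m t := by
  unfold SpA
  rw [mem_biUnion]
  simp only [mem_range]

/-- the vertices with variable heights -/
def Mv (n m r : ℕ) : Finset (Fin n) := (range r).biUnion fun s => blk n m (4 * s)

theorem mem_Mv {m r : ℕ} {j : Fin n} : j ∈ Mv n m r ↔ ∃ s < r, j ∈ blk n m (4 * s) := by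
  unfold Mv
  rw [mem_biUnion]
  simp only [mem_range]

theorem card_Sp {m t : ℕ} (hn : 2 * m * (4 * t + 3) ≤ n) : m / 2 ≤ (Sp n m t).card := by
  classical
  have e1 : 2 * m * (4 * t + 2) = 4 * (m * (2 * t + 1)) := by ring
  have e2 : 2 * m * (4 * t + 3) = 4 * (m * (2 * t + 1)) + 2 * m := by ring
  have h : (range (m / 2)).image (fun l => 2 * m * (4 * t + 2) + 4 * l + 1) ⊆
      (Sp n m t).image (fun j : Fin n => (j : ℕ)) := by
    intro x hx
    rw [mem_image] at hx ⊢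
    obtain ⟨l, hl, rfl⟩ := hx
    rw [mem_range] at hl
    refine ⟨⟨2 * m * (4 * t + 2) + 4 * l + 1, by omega⟩, ?_, rfl⟩
    rw [mem_Sp]
    refine ⟨?_, ?_, ?_⟩
    · show (2 * m * (4 * t + 2) + 4 * l + 1) % 4 = 1
      omega
    · show 2 * m * (4 * t + 2) ≤ 2 * m * (4 * t + 2) + 4 * l + 1
      omega
    · show 2 * m * (4 * t + 2) + 4 * l + 1 < 2 * m * (4 * t + 3)
      omega
  have h1 := card_le_card h
  rw [card_image_of_injective _ (by
    intro a b hab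
    simp only at hab
    omega), card_range] at h1
  exact h1.trans card_image_le

/-- special vertices and variable vertices -/
theorem sp_far {m s t : ℕ} (hm : 1 ≤ m) {i j : Fin n} (hi : i ∈ blk n m (4 * s))
    (hj : j ∈ Sp n m t) : (s ≤ t → (i : ℕ) + 2 < j) ∧ (t < s → (j : ℕ) + 2 < i) := by
  rw [mem_blk] at hi
  rw [mem_Sp] at hj
  constructor
  · intro h
    have h1 : 2 * m * (4 * s + 2) ≤ 2 * m * (4 * t + 2) := Nat.mul_le_mul_left _ (by omega)
    have h2 : 2 * m * (4 * s + 2) = 2 * m * (4 * s + 1) + 2 * m := by ring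
    omega
  · intro h
    have h1 : 2 * m * (4 * t + 4) ≤ 2 * m * (4 * s) := Nat.mul_le_mul_left _ (by omega)
    have h2 : 2 * m * (4 * t + 4) = 2 * m * (4 * t + 3) + 2 * m := by ring
    omega

theorem sp_y {m r t : ℕ} (hm : 1 ≤ m) (ht : t < r) {j k : Fin n} (hj : j ∈ Sp n m t)
    (hk : k ∈ blk n m (4 * r + 2)) : (j : ℕ) + 2 < k := by
  rw [mem_blk] at hk
  rw [mem_Sp] at hj
  have h1 : 2 * m * (4 * t + 4) ≤ 2 * m * (4 * r + 2) := Nat.mul_le_mul_left _ (by omega)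
  have h2 : 2 * m * (4 * t + 4) = 2 * m * (4 * t + 3) + 2 * m := by ring
  omega

theorem sp_end {m r t : ℕ} (hm : 1 ≤ m) (ht : t < r) (hn : 2 * m * (4 * r + 3) + 1 ≤ n)
    {j : Fin n} (hj : j ∈ Sp n m t) : 4 < (j : ℕ) ∧ (j : ℕ) + 3 < n := by
  rw [mem_Sp] at hj
  have h1 : 2 * m * (4 * t + 4) ≤ 2 * m * (4 * r + 3) := Nat.mul_le_mul_left _ (by omega)
  have h2 : 2 * m * (4 * t + 4) = 2 * m * (4 * t + 3) + 2 * m := by ring
  have h3 : 2 * m * (4 * t + 2) = 8 * (m * t) + 4 * m := by ring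
  omega

/-- the edges at a variable vertex have no special vertices -/
theorem not_SpA_e {m r s : ℕ} (hm : 1 ≤ m) (hn : 2 * m * (4 * r + 3) + 1 ≤ n)
    {i e : Fin n} (hi : i ∈ blk n m (4 * s)) (he : e = i ∨ nx e = i) :
    e ∉ SpA n m r ∧ nx e ∉ SpA n m r := by
  have ho := blk_odd hi
  have key : ∀ j : Fin n, j ∈ SpA n m r → (i : ℕ) + 2 < j ∨ (j : ℕ) + 2 < i := by
    intro j hj
    obtain ⟨t, ht, hjt⟩ := mem_SpA.1 hj
    obtain ⟨h1, h2⟩ := sp_far hm hi hjt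
    rcases le_or_gt s t with h | h
    · exact Or.inl (h1 h)
    · exact Or.inr (h2 h)
  have h4 : ∀ j : Fin n, j ∈ SpA n m r → 4 < (j : ℕ) := by
    intro j hj
    obtain ⟨t, ht, hjt⟩ := mem_SpA.1 hj
    exact (sp_end hm ht hn hjt).1
  rcases he with rfl | he
  · refine ⟨fun h => ?_, fun h => ?_⟩
    · have := key _ h
      omega
    · have h1 := key _ h
      have h2 := h4 _ h
      rw [nxv] at h1 h2
      split_ifs at h1 h2 with h3
      all_goals omega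
  · have hv := congrArg Fin.val he
    rw [nxv] at hv
    refine ⟨fun h => ?_, fun h => ?_⟩
    · have h1 := key _ h
      split_ifs at hv with h3
      all_goals omega
    · rw [he] at h
      have := key _ h
      omega

theorem not_SpA_k {m r : ℕ} (hm : 1 ≤ m) (hn : 2 * m * (4 * r + 3) + 1 ≤ n)
    {k : Fin n} (hk : k ∈ blk n m (4 * r + 2)) : k ∉ SpA n m r ∧ nx k ∉ SpA n m r := by
  have key : ∀ j : Fin n, j ∈ SpA n m r → (j : ℕ) + 2 < k ∧ 4 < (j : ℕ) := by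
    intro j hj
    obtain ⟨t, ht, hjt⟩ := mem_SpA.1 hj
    exact ⟨sp_y hm ht hjt hk, (sp_end hm ht hn hjt).1⟩
  refine ⟨fun h => ?_, fun h => ?_⟩
  · have := key _ h
    omega
  · have h1 := key _ h
    rw [nxv] at h1
    split_ifs at h1 with h3
    all_goals omega

/-- every edge agrees with the same edge of one of the two extreme configurations -/
theorem mix_edge {m r : ℕ} (hm : 1 ≤ m) (hn : 2 * m * (4 * r + 3) + 1 ≤ n)
    {S : Finset (Fin n)} (hS : S ⊆ SpA n m r) (ζ : Fin n → PP) (f : Fin n) :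
    (mix S ζ f = mix ∅ ζ f ∧ mix S ζ (nx f) = mix ∅ ζ (nx f)) ∨
    (mix S ζ f = mix (SpA n m r) ζ f ∧ mix S ζ (nx f) = mix (SpA n m r) ζ (nx f)) := by
  have h4 : ∀ j : Fin n, j ∈ SpA n m r → (j : ℕ) % 4 = 1 ∧ (j : ℕ) + 3 < n := by
    intro j hj
    obtain ⟨t, ht, hjt⟩ := mem_SpA.1 hj
    exact ⟨(mem_Sp.1 hjt).1, (sp_end hm ht hn hjt).2⟩
  by_cases hf : f ∈ S
  · right
    have h1 : nx f ∉ SpA n m r := by
      intro h
      have h2 := (h4 _ h).1
      have h3 := h4 _ (hS hf)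
      rw [nxv] at h2
      split_ifs at h2 with h5
      all_goals omega
    rw [mix_mem hf, mix_mem (hS hf), mix_not h1, mix_not (fun h => h1 (hS h))]
    exact ⟨rfl, rfl⟩
  · by_cases hf' : nx f ∈ S
    · right
      have h1 : f ∉ SpA n m r := by
        intro h
        have h2 := (h4 _ (hS hf')).1
        have h3 := h4 _ h
        rw [nxv] at h2
        split_ifs at h2 with h5
        all_goals omega
      rw [mix_mem hf', mix_mem (hS hf'), mix_not h1, mix_not hf]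
      exact ⟨rfl, rfl⟩
    · left
      rw [mix_not hf, mix_not hf', mix_not (notMem_empty _), mix_not (notMem_empty _)]
      exact ⟨rfl, rfl⟩

theorem mix_off {m r : ℕ} {S : Finset (Fin n)} (hS : S ⊆ SpA n m r) (ζ : Fin n → PP)
    {v : Fin n} (hv : v ∉ SpA n m r) : mix S ζ v = mix ∅ ζ v := by
  rw [mix_not (fun h => hv (hS h)), mix_not (notMem_empty _)]

theorem Av_mix {m r s : ℕ} (hm : 1 ≤ m) (hn : 2 * m * (4 * r + 3) + 1 ≤ n)
    {S : Finset (Fin n)} (hS : S ⊆ SpA n m r) (ζ : Fin n → PP) {i k : Fin n} {δ : ℝ}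
    (hi : i ∈ blk n m (4 * s)) (hk : k ∈ blk n m (4 * r + 2)) :
    mix S ζ ∈ Av i k δ ↔ mix ∅ ζ ∈ Av i k δ := by
  obtain ⟨h1, h2⟩ := not_SpA_e hm hn hi (Or.inl rfl)
  obtain ⟨h3, h4⟩ := not_SpA_k hm hn hk
  exact Av_loc (mix_off hS ζ h1) (mix_off hS ζ h2) (mix_off hS ζ h3) (mix_off hS ζ h4)

/-- the crossing edges -/
theorem exists_k {m r : ℕ} {δ : ℝ} (ω ω' : Fin n → Pt × Bool) :
    ∃ k : Fin n → Fin n, ∀ s, ∀ i ∈ good2 n m (4 * s) (4 * r + 2) δ ω ω',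
      k i ∈ blk n m (4 * r + 2) ∧ ω ∈ Av i (k i) δ ∧ Rob δ ω i (k i) ∧ Rob δ ω' i (k i) := by
  classical
  have hex : ∀ i, ∃ k, ∀ s, i ∈ good2 n m (4 * s) (4 * r + 2) δ ω ω' →
      k ∈ blk n m (4 * r + 2) ∧ ω ∈ Av i k δ ∧ Rob δ ω i k ∧ Rob δ ω' i k := by
    intro i
    by_cases h0 : ∃ s, i ∈ good2 n m (4 * s) (4 * r + 2) δ ω ω'
    · obtain ⟨s, hs⟩ := h0
      obtain ⟨g1, k, g2⟩ := mem_good2.1 hs
      exact ⟨k, fun _ _ => g2⟩
    · exact ⟨i, fun s hs => absurd ⟨s, hs⟩ h0⟩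
  choose k hk using hex
  exact ⟨k, fun s i hi => hk i s hi⟩

theorem sharp_mix {m r : ℕ} (hm : 1 ≤ m) (hn : 2 * m * (4 * r + 3) + 1 ≤ n) {δ : ℝ}
    (ζ : Fin n → PP) {k : Fin n → Fin n}
    (hk : ∀ s, ∀ i ∈ good2 n m (4 * s) (4 * r + 2) δ (mix ∅ ζ) (mix (SpA n m r) ζ),
      k i ∈ blk n m (4 * r + 2) ∧ mix ∅ ζ ∈ Av i (k i) δ ∧ Rob δ (mix ∅ ζ) i (k i) ∧
        Rob δ (mix (SpA n m r) ζ) i (k i))
    {S : Finset (Fin n)} (hS : S ⊆ SpA n m r) {s : ℕ} (hs : s < r) {C : Finset (Fin n)}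
    (hC : C ⊆ good2 n m (4 * s) (4 * r + 2) δ (mix ∅ ζ) (mix (SpA n m r) ζ)) :
    Sharp (pts (mix S ζ)) (actv (Mv n m r) (mix S ζ)) δ C k ∧
      (∀ i ∈ C, (i : ℕ) + 1 < n ∧ (k i : ℕ) + 1 < n) ∧ ∀ i ∈ C, i < k i := by
  have hblk : ∀ i ∈ C, i ∈ blk n m (4 * s) := fun i hi => (mem_good2.1 (hC hi)).1
  have hkb : ∀ i ∈ C, k i ∈ blk n m (4 * r + 2) := fun i hi => (hk s i (hC hi)).1
  have hav : ∀ i ∈ C, mix S ζ ∈ Av i (k i) δ := fun i hi =>
    (Av_mix hm hn hS ζ (hblk i hi) (hkb i hi)).2 (hk s i (hC hi)).2.1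
  have hfar : ∀ i ∈ C, 1 ≤ (i : ℕ) ∧ (i : ℕ) + 2 < k i ∧ (k i : ℕ) + 1 < n := fun i hi =>
    blk_far hm (by omega) (by
      have : 4 * r + 2 + 1 = 4 * r + 3 := by ring
      rw [this]
      exact hn) (hblk i hi) (hkb i hi)
  have hact : ∀ i, i ∈ actv (Mv n m r) (mix S ζ) → ∃ s', s' < r ∧ i ∈ blk n m (4 * s') :=
    fun i hi => mem_Mv.1 (mem_actv.1 hi).1
  refine ⟨⟨?_, ?_, ?_, ?_, ?_, ?_, ?_, ?_⟩, ?_, ?_⟩
  · intro i hi
    have h1 := hav i hi
    exact mem_actv.2 ⟨mem_Mv.2 ⟨s, hs, hblk i hi⟩, h1.1.1.1, h1.1.1.2.2.2.1, Av_lt h1⟩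
  · intro i hi
    exact (Av_box (hav i hi)).1
  · intro i hi
    exact (hav i hi).2.1
  · intro i hi
    exact (hav i hi).2.2
  · intro i hi hc
    obtain ⟨g1, g2, g3⟩ := hfar i hi
    have e1 := nxv i
    rw [if_neg (by omega)] at e1
    have g4 := blk_odd (hblk i hi)
    obtain ⟨j', _, h5⟩ := hact _ hc
    have g5 := blk_odd h5
    omega
  · intro i hi hc
    obtain ⟨j', h6, h5⟩ := hact _ hc
    exact blk_ne_of (by omega) h5 (hkb i hi)
  · intro i hi hc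
    obtain ⟨g1, g2, g3⟩ := hfar i hi
    have e1 := nxv (k i)
    rw [if_neg (by omega)] at e1
    have g4 := blk_odd (hkb i hi)
    obtain ⟨j', _, h5⟩ := hact _ hc
    have g5 := blk_odd h5
    omega
  · intro i hi e f he hcr hne
    obtain ⟨n1, n2⟩ := not_SpA_e hm hn (hblk i hi) he
    have q1 : ∀ S' : Finset (Fin n), S' ⊆ SpA n m r → mix S ζ f = mix S' ζ f →
        mix S ζ (nx f) = mix S' ζ (nx f) → Rob δ (mix S' ζ) i (k i) →
        2 * δ < |gap (pts (mix S ζ)) e f| := by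
      intro S' hS' a1 a2 hr
      have b1 : pts (mix S ζ) e = pts (mix S' ζ) e := by
        unfold pts
        rw [mix_off hS ζ n1, mix_off hS' ζ n1]
      have b2 : pts (mix S ζ) (nx e) = pts (mix S' ζ) (nx e) := by
        unfold pts
        rw [mix_off hS ζ n2, mix_off hS' ζ n2]
      have b3 : pts (mix S ζ) f = pts (mix S' ζ) f := by
        unfold pts
        rw [a1]
      have b4 : pts (mix S ζ) (nx f) = pts (mix S' ζ) (nx f) := by
        unfold pts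
        rw [a2]
      rw [gap_loc b1 b2 b3 b4]
      exact hr e f he ((Cr_loc b1 b2 b3 b4).1 hcr) hne
    rcases mix_edge hm hn hS ζ f with ⟨a1, a2⟩ | ⟨a1, a2⟩
    · exact q1 ∅ (empty_subset _) a1 a2 (hk s i (hC hi)).2.2.1
    · exact q1 _ (Subset.refl _) a1 a2 (hk s i (hC hi)).2.2.2
  · intro i hi
    obtain ⟨g1, g2, g3⟩ := hfar i hi
    omega
  · intro i hi
    obtain ⟨g1, g2, g3⟩ := hfar i hi
    rw [Fin.lt_def]
    omega

end Pool.Agent.H756.RW
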