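import Pool.Agent.H756.RW.Mix1

set_option autoImplicit false

/-!
The parity of a crossing in the mixtures.
-/

namespace Pool.Agent.H756.RW

open Finset Function
open Pool.Agent.H756.RP (Pt nx ept det par Cr hgt gap Gen Dat dat shift Sharp act pts Av blk mem_blk
  nx_inj Av_box Av_lt gap_of_Av cnt cnt_eq pol)
open Pool.Agent.H756.RV (actv mem_actv nowr blk_lt blk_ne_of blk_odd blk_far prs qds pts_act' cut)

variable {n : ℕ}

/-- the vertex before `j` -/
def pv (j : Fin n) : Fin n := (finRotate n).symm j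

theorem nx_pv (j : Fin n) : nx (pv j) = j := (finRotate n).apply_symm_apply j

theorem pv_val {j : Fin n} (hj : 1 ≤ (j : ℕ)) : ((pv j : Fin n) : ℕ) + 1 = j := by
  have h := congrArg Fin.val (nx_pv j)
  rw [nxv] at h
  split_ifs at h with h1
  · omega
  · exact h

/-- the change of the parity if the special vertex `j` is changed -/
noncomputable def th (z0 zl : Fin n) (ζ : Fin n → PP) (j : Fin n) : ZMod 2 :=
  theta (ζ z0).1.1 (ζ zl).1.1 (ζ (pv j)).1.1 (ζ j).1.1 (ζ j).2.1 (ζ (nx j)).1.1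

theorem pts_insert {S : Finset (Fin n)} {ζ : Fin n → PP} {j : Fin n} :
    pts (mix (insert j S) ζ) = update (pts (mix S ζ)) j (ζ j).2.1 := by
  funext i
  by_cases h : i = j
  · subst h
    rw [update_self]
    unfold pts
    rw [mix_mem (mem_insert_self _ _)]
  · rw [update_of_ne h]
    unfold pts
    by_cases h2 : i ∈ S
    · rw [mix_mem (mem_insert_of_mem h2), mix_mem h2]
    · rw [mix_not h2, mix_not]
      rw [mem_insert, not_or]
      exact ⟨h, h2⟩

/-- the assumption of general position for crossing points -/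
def Gc (p : Fin n → Pt) : Prop := ∀ i k u v : Fin n, u ≠ v →
  (u ≠ i ∧ u ≠ nx i ∧ u ≠ k ∧ u ≠ nx k) → (v ≠ i ∧ v ≠ nx i ∧ v ≠ k ∧ v ≠ nx k) →
  orient (p u) (p v) (ept p i (par p i k)) ≠ 0

theorem degP_mix {m r : ℕ} (hm : 1 ≤ m) (hn : 2 * m * (4 * r + 3) + 1 ≤ n) {z0 zl : Fin n}
    (h0 : (z0 : ℕ) = 0) (hl : (zl : ℕ) + 1 = n) (ζ : Fin n → PP)
    (hgen : ∀ S ⊆ SpA n m r, Gen (pts (mix S ζ))) (hgc : ∀ S ⊆ SpA n m r, Gc (pts (mix S ζ)))
    {s : ℕ} {i k : Fin n} (hi : i ∈ blk n m (4 * s)) (hs : s < r)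
    (hk : k ∈ blk n m (4 * r + 2)) (hC : Cr (pts (mix ∅ ζ)) i k) :
    ∀ S, S ⊆ SpA n m r → (degP (pts (mix S ζ)) i k : ZMod 2) =
      degP (pts (mix ∅ ζ)) i k + ∑ j ∈ S, if i < j then th z0 zl ζ j else 0 := by
  classical
  intro S
  induction S using Finset.induction_on with
  | empty =>
    intro _
    rw [sum_empty, add_zero]
  | insert j S hj ih =>
    intro hS
    have hS1 : S ⊆ SpA n m r := (subset_insert _ _).trans hS
    have hjA : j ∈ SpA n m r := hS (mem_insert_self _ _)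
    obtain ⟨t, ht, hjt⟩ := mem_SpA.1 hjA
    obtain ⟨e1, e2⟩ := sp_end hm ht hn hjt
    have e3 := sp_y hm ht hjt hk
    have e4 : (i : ℕ) + 2 < j ∨ (j : ℕ) + 2 < i := by
      obtain ⟨h1, h2⟩ := sp_far hm hi hjt
      rcases le_or_gt s t with h | h
      · exact Or.inl (h1 h)
      · exact Or.inr (h2 h)
    have hmod : (j : ℕ) % 4 = 1 := (mem_Sp.1 hjt).1
    have hmodA : ∀ v : Fin n, v ∈ SpA n m r → (v : ℕ) % 4 = 1 ∧ 4 < (v : ℕ) ∧ (v : ℕ) + 3 < n := by
      intro v hv
      obtain ⟨t', ht', hv'⟩ := mem_SpA.1 hv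
      exact ⟨(mem_Sp.1 hv').1, sp_end hm ht' hn hv'⟩
    have hu := pv_val (j := j) (by omega)
    have hfar := blk_far hm (show 4 * s + 2 ≤ 4 * r + 2 by omega) (by
      have : 4 * r + 2 + 1 = 4 * r + 3 := by ring
      rw [this]
      exact hn) hi hk
    have hvi : ((nx i : Fin n) : ℕ) = (i : ℕ) + 1 := by
      rw [nxv, if_neg (by omega)]
    have hvk : ((nx k : Fin n) : ℕ) = (k : ℕ) + 1 := by
      rw [nxv, if_neg (by omega)]
    have hvj : ((nx j : Fin n) : ℕ) = (j : ℕ) + 1 := by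
      rw [nxv, if_neg (by omega)]
    have hne : ∀ v : Fin n, ((v : ℕ) = j ∨ (v : ℕ) + 1 = j ∨ (v : ℕ) = j + 1) →
        v ≠ i ∧ v ≠ nx i ∧ v ≠ k ∧ v ≠ nx k := by
      intro v hv
      refine ⟨?_, ?_, ?_, ?_⟩ <;> intro h <;> have h' := congrArg Fin.val h <;> omega
    obtain ⟨a1, a2⟩ := not_SpA_e hm hn hi (Or.inl rfl)
    obtain ⟨a3, a4⟩ := not_SpA_k hm hn hk
    have hp0 : ∀ S' : Finset (Fin n), S' ⊆ SpA n m r → ∀ v : Fin n, v ∉ S' →
        pts (mix S' ζ) v = (ζ v).1.1 := by
      intro S' _ v hv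
      unfold pts
      rw [mix_not hv]
    have hoff : ∀ v : Fin n, v ∉ SpA n m r → pts (mix S ζ) v = pts (mix ∅ ζ) v := by
      intro v hv
      unfold pts
      rw [mix_off hS1 ζ hv]
    have hoffi : ∀ v : Fin n, v ∉ SpA n m r → pts (mix (insert j S) ζ) v = pts (mix S ζ) v := by
      intro v hv
      unfold pts
      rw [mix_off hS1 ζ hv, mix_off hS ζ hv]
    have hCS : Cr (pts (mix S ζ)) i k :=
      (Cr_loc (hoff _ a1) (hoff _ a2) (hoff _ a3) (hoff _ a4)).2 hC
    have hcc : ept (pts (mix (insert j S) ζ)) i (par (pts (mix (insert j S) ζ)) i k) =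
        ept (pts (mix S ζ)) i (par (pts (mix S ζ)) i k) :=
      ept_loc (hoffi _ a1) (hoffi _ a2) (hoffi _ a3) (hoffi _ a4)
    have hupd := pts_insert (S := S) (ζ := ζ) (j := j)
    have hjj : pts (mix (insert j S) ζ) j = (ζ j).2.1 := by
      rw [hupd, update_self]
    have hpvne : pv j ≠ j := fun h => by
      have := congrArg Fin.val h
      omega
    have hnxne : nx j ≠ j := fun h => by
      have := congrArg Fin.val h
      omega
    have hpvnx : nx j ≠ pv j := fun h => by
      have := congrArg Fin.val h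
      omega
    have hpvA : pv j ∉ SpA n m r := fun h => by
      have := (hmodA _ h).1
      omega
    have hnxA : nx j ∉ SpA n m r := fun h => by
      have := (hmodA _ h).1
      omega
    have hz0A : z0 ∉ SpA n m r := fun h => by
      have := (hmodA _ h).2
      omega
    have hzlA : zl ∉ SpA n m r := fun h => by
      have := (hmodA _ h).2
      omega
    have g1 := hgc S hS1
    have g2 := hgc _ hS
    have hd := degP_update (n := n) (by omega) (p := pts (mix S ζ)) (y := (ζ j).2.1) (j := j)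
      (i := i) (k := k) (u := pv j) (z0 := z0) (zl := zl) h0 hl hu (by omega) (hgen S hS1)
      (by rw [← hupd]; exact hgen _ hS) hCS (by rw [Fin.lt_def]; omega) hfar.2.2
      (by omega)
      (g1 i k (pv j) j hpvne (hne _ (Or.inr (Or.inl hu))) (hne _ (Or.inl rfl)))
      (g1 i k j (nx j) hnxne.symm (hne _ (Or.inl rfl)) (hne _ (Or.inr (Or.inr hvj))))
      (g1 i k (nx j) (pv j) hpvnx (hne _ (Or.inr (Or.inr hvj))) (hne _ (Or.inr (Or.inl hu))))
      (by
        have h := g2 i k (pv j) j hpvne (hne _ (Or.inr (Or.inl hu))) (hne _ (Or.inl rfl))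
        rw [hcc, hjj, hoffi _ hpvA] at h
        exact h)
      (by
        have h := g2 i k j (nx j) hnxne.symm (hne _ (Or.inl rfl)) (hne _ (Or.inr (Or.inr hvj)))
        rw [hcc, hjj, hoffi _ hnxA] at h
        exact h)
    rw [hupd, hd, ih hS1, sum_insert hj]
    have hij : (i < j ∧ j < k) ↔ i < j := by
      constructor
      · exact fun h => h.1
      · intro h
        refine ⟨h, ?_⟩
        rw [Fin.lt_def]
        omega
    have hth : theta (pts (mix S ζ) z0) (pts (mix S ζ) zl) (pts (mix S ζ) (pv j))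
        (pts (mix S ζ) j) (ζ j).2.1 (pts (mix S ζ) (nx j)) = th z0 zl ζ j := by
      rw [hp0 S hS1 z0 (fun h => hz0A (hS1 h)), hp0 S hS1 zl (fun h => hzlA (hS1 h)),
        hp0 S hS1 _ (fun h => hpvA (hS1 h)), hp0 S hS1 j hj, hp0 S hS1 _ (fun h => hnxA (hS1 h))]
      rfl
    rw [hth]
    simp only [hij]
    ring

/-! ## The linear map -/

/-- the special vertices which are changed -/
def Sb (n m r : ℕ) (b : Fin n → ZMod 2) : Finset (Fin n) := (SpA n m r).filter fun j => b j = 1

theorem Sb_sub {m r : ℕ} (b : Fin n → ZMod 2) : Sb n m r b ⊆ SpA n m r := filter_subset _ _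

/-- the change of the parities of the crossings of the blocks -/
noncomputable def bet (n m r : ℕ) (τ : Fin n → ZMod 2) : (Fin n → ZMod 2) →+ (Fin r → ZMod 2) where
  toFun b := fun s => ∑ j ∈ SpA n m r, if 2 * m * (4 * (s : ℕ) + 1) ≤ j then b j * τ j else 0
  map_zero' := by
    funext s
    refine sum_eq_zero fun j _ => ?_
    simp
  map_add' b b' := by
    funext s
    rw [Pi.add_apply, ← sum_add_distrib]
    refine sum_congr rfl fun j _ => ?_
    split_ifs
    · rw [Pi.add_apply, add_mul]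
    · rw [add_zero]

theorem bet_apply {m r : ℕ} (τ b : Fin n → ZMod 2) (s : Fin r) :
    bet n m r τ b s = ∑ j ∈ SpA n m r, if 2 * m * (4 * (s : ℕ) + 1) ≤ j then b j * τ j else 0 :=
  rfl

theorem lt_iff_le {m r s : ℕ} (hm : 1 ≤ m) {i j : Fin n} (hi : i ∈ blk n m (4 * s))
    (hj : j ∈ SpA n m r) : i < j ↔ 2 * m * (4 * s + 1) ≤ j := by
  obtain ⟨t, ht, hjt⟩ := mem_SpA.1 hj
  obtain ⟨h1, h2⟩ := sp_far hm hi hjt
  have hj' := mem_Sp.1 hjt
  rw [Fin.lt_def]
  rcases le_or_gt s t with h | h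
  · have h3 : 2 * m * (4 * s + 1) ≤ 2 * m * (4 * t + 2) := Nat.mul_le_mul_left _ (by omega)
    have := h1 h
    constructor
    · intro _
      omega
    · intro _
      omega
  · have h3 : 2 * m * (4 * t + 3) ≤ 2 * m * (4 * s + 1) := Nat.mul_le_mul_left _ (by omega)
    have := h2 h
    constructor
    · intro h5
      omega
    · intro h5
      omega

theorem zmod2_cases (x : ZMod 2) : x = 0 ∨ x = 1 := by
  revert x
  decide

theorem sum_Sb {m r : ℕ} (hm : 1 ≤ m) (τ b : Fin n → ZMod 2) {s : Fin r} {i : Fin n}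
    (hi : i ∈ blk n m (4 * (s : ℕ))) :
    (∑ j ∈ Sb n m r b, if i < j then τ j else 0) = bet n m r τ b s := by
  rw [bet_apply]
  unfold Sb
  rw [sum_filter]
  refine sum_congr rfl fun j hj => ?_
  simp only [lt_iff_le hm hi hj]
  rcases zmod2_cases (b j) with h | h
  · rw [h, if_neg (by decide)]
    split_ifs <;> simp
  · rw [h, if_pos rfl]
    split_ifs <;> simp

theorem bet_single {m r : ℕ} (hm : 1 ≤ m) (τ : Fin n → ZMod 2) {t : ℕ} (ht : t < r) {j : Fin n}
    (hj : j ∈ Sp n m t) (hτ : τ j ≠ 0) (s : Fin r) :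
    bet n m r τ (Pi.single j 1) s = if (s : ℕ) ≤ t then 1 else 0 := by
  classical
  rw [bet_apply]
  have hjA : j ∈ SpA n m r := mem_SpA.2 ⟨t, ht, hj⟩
  rw [sum_eq_single j]
  · have hτ1 : τ j = 1 := (zmod2_cases _).resolve_left hτ
    rw [Pi.single_eq_same, hτ1, one_mul]
    have hj' := mem_Sp.1 hj
    have h5 : 2 * m * (4 * (s : ℕ) + 1) ≤ j ↔ (s : ℕ) ≤ t := by
      constructor
      · intro h
        by_contra hcon
        have h3 : 2 * m * (4 * t + 3) ≤ 2 * m * (4 * (s : ℕ) + 1) :=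
          Nat.mul_le_mul_left _ (by omega)
        omega
      · intro h
        have h3 : 2 * m * (4 * (s : ℕ) + 1) ≤ 2 * m * (4 * t + 2) :=
          Nat.mul_le_mul_left _ (by omega)
        omega
    simp only [h5]
  · intro j' _ hne
    rw [Pi.single_eq_of_ne hne, zero_mul]
    split_ifs <;> rfl
  · intro h
    exact absurd hjA h

theorem bet_surj {m r : ℕ} (hm : 1 ≤ m) (τ : Fin n → ZMod 2)
    (h : ∀ t < r, ∃ j ∈ Sp n m t, τ j ≠ 0) : Surjective (bet n m r τ) := by
  classical
  have key : ∀ t : Fin r, Pi.single t (1 : ZMod 2) ∈ (bet n m r τ).range := by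
    intro t
    obtain ⟨j, hj, hτ⟩ := h t t.2
    rcases Nat.eq_zero_or_pos (t : ℕ) with h0 | h0
    · refine ⟨Pi.single j 1, ?_⟩
      funext s
      rw [bet_single hm τ t.2 hj hτ, Pi.single_apply]
      have : (s : ℕ) ≤ t ↔ s = t := by
        rw [Fin.ext_iff]
        omega
      simp only [this]
    · obtain ⟨j', hj', hτ'⟩ := h ((t : ℕ) - 1) (by omega)
      refine ⟨Pi.single j 1 - Pi.single j' 1, ?_⟩
      rw [map_sub]
      funext s
      rw [Pi.sub_apply, bet_single hm τ t.2 hj hτ, bet_single hm τ (by omega) hj' hτ',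
        Pi.single_apply]
      by_cases h1 : (s : ℕ) ≤ t
      · by_cases h2 : (s : ℕ) ≤ (t : ℕ) - 1
        · rw [if_pos h1, if_pos h2, if_neg, sub_self]
          intro h3
          rw [h3] at h2
          omega
        · rw [if_pos h1, if_neg h2, if_pos, sub_zero]
          apply Fin.ext
          omega
      · rw [if_neg h1, if_neg (by omega), if_neg, sub_self]
        intro h3
        exact h1 (by rw [h3])
  intro v
  have h1 : v ∈ (bet n m r τ).range := by
    refine AddSubgroup.pi_mem_of_single_mem v fun t => ?_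
    rcases zmod2_cases (v t) with h2 | h2
    · rw [h2, Pi.single_zero]
      exact AddSubgroup.zero_mem _
    · rw [h2]
      exact key t
  exact h1

theorem card_fiber {m r : ℕ} (τ : Fin n → ZMod 2) (hs : Surjective (bet n m r τ))
    (v : Fin r → ZMod 2) :
    (univ.filter fun b : Fin n → ZMod 2 => bet n m r τ b = v).card * 2 ^ r =
      Fintype.card (Fin n → ZMod 2) := by
  classical
  have h1 : (univ : Finset (Fin n → ZMod 2)).card = ∑ w : Fin r → ZMod 2,
      (univ.filter fun b : Fin n → ZMod 2 => bet n m r τ b = w).card :=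
    card_eq_sum_card_fiberwise fun _ _ => mem_coe.2 (mem_univ _)
  have h2 : ∀ w ∈ (univ : Finset (Fin r → ZMod 2)),
      (univ.filter fun b : Fin n → ZMod 2 => bet n m r τ b = w).card =
      (univ.filter fun b : Fin n → ZMod 2 => bet n m r τ b = v).card := by
    intro w _
    exact AddMonoidHom.card_fiber_eq_of_mem_range (bet n m r τ) (hs w) (hs v)
  rw [sum_congr rfl h2, sum_const, card_univ, card_univ, smul_eq_mul, mul_comm] at h1
  rw [h1]
  congr 1
  simp

end Pool.Agent.H756.RW
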