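import Pool.Agent.H756.RW.Mix2

set_option autoImplicit false

/-!
The number of the choices for which the odd writhe has a given value.
-/

namespace Pool.Agent.H756.RW

open Finset Function
open Pool.Agent.H756.RP (Pt nx ept det par Cr hgt gap Gen Dat dat shift Sharp act pts Av blk mem_blk
  nx_inj Av_box Av_lt gap_of_Av cnt cnt_eq pol)
open Pool.Agent.H756.RV (actv mem_actv nowr blk_lt blk_ne_of blk_odd blk_far prs qds pts_act' cut)

variable {n : ℕ}

theorem majority {M : ℕ} (C : Finset (Fin n)) (f : Fin n → ZMod 2) (h : 2 * M ≤ C.card) :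
    ∃ x : ZMod 2, M ≤ (C.filter fun i => f i = x).card := by
  classical
  by_contra hcon
  push Not at hcon
  have h0 := hcon 0
  have h1 := hcon 1
  have h2 : C ⊆ (C.filter fun i => f i = 0) ∪ (C.filter fun i => f i = 1) := by
    intro i hi
    rw [mem_union, mem_filter, mem_filter]
    rcases zmod2_cases (f i) with h3 | h3
    · exact Or.inl ⟨hi, h3⟩
    · exact Or.inr ⟨hi, h3⟩
  have h3 := (card_le_card h2).trans (card_union_le _ _)
  omega

theorem act_false (I : Finset (Fin n)) (δ : ℝ) (ω : Fin n → Pt × Bool) :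
    act I δ (fun _ => false) ω = ω := by
  funext i
  unfold act
  rw [if_neg (by simp)]

open Classical in
/-- the number of the heights for one mixture -/
theorem count_one {m r : ℕ} (hm : 1 ≤ m) (hn : 2 * m * (4 * r + 3) + 1 ≤ n) {δ : ℝ} (hδ : 0 < δ)
    {z0 zl : Fin n} (h0 : (z0 : ℕ) = 0) (hl : (zl : ℕ) + 1 = n) (ζ : Fin n → PP)
    (hgen : ∀ S ⊆ SpA n m r, ∀ ε, Gen (pts (act (Mv n m r) δ ε (mix S ζ))))
    (hgc : ∀ S ⊆ SpA n m r, Gc (pts (mix S ζ))) (hw : nowr (Mv n m r) δ (mix ∅ ζ))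
    {k : Fin n → Fin n}
    (hk : ∀ s, ∀ i ∈ good2 n m (4 * s) (4 * r + 2) δ (mix ∅ ζ) (mix (SpA n m r) ζ),
      k i ∈ blk n m (4 * r + 2) ∧ mix ∅ ζ ∈ Av i (k i) δ ∧ Rob δ (mix ∅ ζ) i (k i) ∧
        Rob δ (mix (SpA n m r) ζ) i (k i)) {M : ℕ} (hM : 0 < M) (π : Fin r → ZMod 2)
    (hπ : ∀ s : Fin r, M ≤ ((good2 n m (4 * (s : ℕ)) (4 * r + 2) δ (mix ∅ ζ)
      (mix (SpA n m r) ζ)).filter fun i => (degP (pts (mix ∅ ζ)) i (k i) : ZMod 2) = π s).card)
    (b : Fin n → ZMod 2) (hb : bet n m r (th z0 zl ζ) b ≠ π) (c : ℤ) :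
    ((univ.filter fun ε : Fin n → Bool =>
      tw (pol (cut (dat (pts (act (Mv n m r) δ ε (mix (Sb n m r b) ζ)))))) = c).card : ℝ) ≤
      (4 / (M : ℝ)) ^ (1 / 2 : ℝ) * Fintype.card (Fin n → Bool) := by
  have hgen' : ∀ S ⊆ SpA n m r, Gen (pts (mix S ζ)) := by
    intro S hS
    have h := hgen S hS (fun _ => false)
    rwa [act_false] at h
  obtain ⟨s, hs⟩ : ∃ s, bet n m r (th z0 zl ζ) b s ≠ π s := by
    by_contra hcon
    push Not at hcon
    exact hb (funext hcon)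
  set C := (good2 n m (4 * (s : ℕ)) (4 * r + 2) δ (mix ∅ ζ)
      (mix (SpA n m r) ζ)).filter fun i => (degP (pts (mix ∅ ζ)) i (k i) : ZMod 2) = π s with hC
  have hsub : C ⊆ good2 n m (4 * (s : ℕ)) (4 * r + 2) δ (mix ∅ ζ) (mix (SpA n m r) ζ) :=
    filter_subset _ _
  have hS := Sb_sub (n := n) (m := m) (r := r) b
  obtain ⟨h1, h2, h3⟩ := sharp_mix hm hn ζ hk hS s.2 hsub
  have hodd : ∀ i ∈ C, Odd (degP (pts (mix (Sb n m r b) ζ)) i (k i)) := by
    intro i hi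
    have g1 := hsub hi
    obtain ⟨g2, g3, g4, g5⟩ := hk _ i g1
    have g6 := (mem_good2.1 g1).1
    have g7 := degP_mix hm hn h0 hl ζ hgen' hgc g6 s.2 g2 (Av_box g3).1 _ hS
    rw [sum_Sb hm (th z0 zl ζ) b g6, (mem_filter.1 hi).2] at g7
    rw [← ZMod.natCast_eq_one_iff_odd, g7]
    revert hs
    generalize bet n m r (th z0 zl ζ) b s = x
    generalize π s = y
    revert x y
    decide
  have hw' : nowr (Mv n m r) δ (mix (Sb n m r b) ζ) := by
    intro i hi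
    have g1 := mem_actv.1 hi
    obtain ⟨s', _, g2⟩ := mem_Mv.1 g1.1
    have g3 := (not_SpA_e hm hn g2 (Or.inl rfl)).1
    rw [mix_off hS ζ g3]
    refine hw i (mem_actv.2 ⟨g1.1, ?_⟩)
    rw [← mix_off hS ζ g3]
    exact g1.2
  have h4 := count_odd hδ (hgen' _ hS) h1 h2 h3 hodd hM (hπ s) c
  simp only [pts_act' _ _ hw']
  exact h4

open Classical in
theorem count_mix {m r : ℕ} (hm : 1 ≤ m) (hn : 2 * m * (4 * r + 3) + 1 ≤ n) {δ : ℝ} (hδ : 0 < δ)
    {z0 zl : Fin n} (h0 : (z0 : ℕ) = 0) (hl : (zl : ℕ) + 1 = n) (ζ : Fin n → PP)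
    (hgen : ∀ S ⊆ SpA n m r, ∀ ε, Gen (pts (act (Mv n m r) δ ε (mix S ζ))))
    (hgc : ∀ S ⊆ SpA n m r, Gc (pts (mix S ζ))) (hw : nowr (Mv n m r) δ (mix ∅ ζ))
    (hsw : ∀ t < r, ∃ j ∈ Sp n m t, th z0 zl ζ j ≠ 0) {M : ℕ} (hM : 0 < M)
    (hM1 : ∀ s < r, 2 * M ≤ (good2 n m (4 * s) (4 * r + 2) δ (mix ∅ ζ)
      (mix (SpA n m r) ζ)).card) (c : ℤ) :
    ((univ.filter fun z : (Fin n → ZMod 2) × (Fin n → Bool) =>
      tw (pol (cut (dat (pts (act (Mv n m r) δ z.2 (mix (Sb n m r z.1) ζ)))))) = c).card : ℝ) ≤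
      ((1 / 2) ^ r + (4 / (M : ℝ)) ^ (1 / 2 : ℝ)) *
        Fintype.card ((Fin n → ZMod 2) × (Fin n → Bool)) := by
  obtain ⟨k, hk⟩ := exists_k (n := n) (m := m) (r := r) (δ := δ) (mix ∅ ζ) (mix (SpA n m r) ζ)
  have hmaj : ∀ s : Fin r, ∃ x : ZMod 2, M ≤ ((good2 n m (4 * (s : ℕ)) (4 * r + 2) δ (mix ∅ ζ)
      (mix (SpA n m r) ζ)).filter fun i => (degP (pts (mix ∅ ζ)) i (k i) : ZMod 2) = x).card :=
    fun s => majority _ _ (hM1 s s.2)
  choose π hπ using hmaj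
  set τ := th z0 zl ζ with hτ
  set F : (Fin n → ZMod 2) → (Fin n → Bool) → Prop := fun b ε =>
    tw (pol (cut (dat (pts (act (Mv n m r) δ ε (mix (Sb n m r b) ζ)))))) = c with hF
  have e1 : ((univ.filter fun z : (Fin n → ZMod 2) × (Fin n → Bool) => F z.1 z.2).card : ℝ) =
      ∑ b : Fin n → ZMod 2, ((univ.filter fun ε : Fin n → Bool => F b ε).card : ℝ) := by
    rw [card_filter]
    push_cast
    rw [Fintype.sum_prod_type]
    refine sum_congr rfl fun b _ => ?_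
    rw [card_filter]
    push_cast
    rfl
  set L : ℝ := (Fintype.card (Fin n → Bool) : ℝ) with hL
  set D : ℝ := (4 / (M : ℝ)) ^ (1 / 2 : ℝ) with hD
  have hD0 : 0 ≤ D := by positivity
  have hL0 : 0 ≤ L := by positivity
  have e2 : ∀ b : Fin n → ZMod 2, ((univ.filter fun ε : Fin n → Bool => F b ε).card : ℝ) ≤
      (if bet n m r τ b = π then L else 0) + D * L := by
    intro b
    by_cases hb : bet n m r τ b = π
    · rw [if_pos hb]
      have h1 : ((univ.filter fun ε : Fin n → Bool => F b ε).card : ℝ) ≤ L := by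
        rw [hL]
        exact_mod_cast card_le_univ _
      have := mul_nonneg hD0 hL0
      linarith
    · rw [if_neg hb, zero_add]
      exact count_one hm hn hδ h0 hl ζ hgen hgc hw hk hM π hπ b hb c
  have hfib := card_fiber τ (bet_surj hm τ hsw) π
  have hfib' : ((univ.filter fun b : Fin n → ZMod 2 => bet n m r τ b = π).card : ℝ) =
      (1 / 2) ^ r * Fintype.card (Fin n → ZMod 2) := by
    rw [← hfib]
    push_cast
    rw [one_div, inv_pow]
    field_simp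
  show ((univ.filter fun z : (Fin n → ZMod 2) × (Fin n → Bool) => F z.1 z.2).card : ℝ) ≤ _
  rw [e1]
  refine (sum_le_sum fun b _ => e2 b).trans ?_
  rw [sum_add_distrib, ← sum_filter, sum_const, sum_const, nsmul_eq_mul, nsmul_eq_mul, hfib',
    Fintype.card_prod, card_univ]
  push_cast
  rw [← hL]
  apply le_of_eq
  ring

end Pool.Agent.H756.RW
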