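import Pool.Agent.H756.RW.Alg
import Pool.Agent.H756.RW.Deg
import Pool.Agent.H756.RK.FlipK

set_option autoImplicit false

/-!
The change of an odd crossing of a chain changes the odd writhe.
-/

namespace Pool.Agent.H756.RW

open Finset Function LaurentPolynomial
open Pool.Agent.H756.RP
open Pool.Agent.H756.RV (cut cutX cutX_iff word_cut word_injK Tr difs dif sg dS wS IsLab
  exists_labK wS_updateK tr_of anti rootq)
open Pool.Agent.H832R2.JR (GaussWord fPoly Crosses sgn)

variable {n N : ℕ}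

theorem dif_odd (G : GaussWord N) (c : Fin N) (hc : Odd (deg G c)) (w : Fin N → Bool) :
    tw (fPoly G (update w c true)) - tw (fPoly G (update w c false)) = 4 := by
  classical
  rw [tw_fPoly, tw_fPoly]
  unfold oddWrithe
  have h : ∀ b : Bool, ∑ i, (if Odd (deg G i) then sgn (update w c b i) else 0) =
      sgn b + ∑ i ∈ univ.erase c, (if Odd (deg G i) then sgn (w i) else 0) := by
    intro b
    rw [← add_sum_erase _ _ (mem_univ c), if_pos hc, update_self]
    congr 1
    refine sum_congr rfl fun i hi => ?_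
    rw [update_of_ne (ne_of_mem_erase hi)]
  rw [h, h]
  unfold sgn
  simp only [if_true, Bool.false_eq_true, if_false]
  ring

open Classical in
theorem tr_odd {p : Fin n → Pt} {J : Finset (Fin n)} {δ : ℝ} (hδ : 0 < δ)
    (hp : Gen p) {C : Finset (Fin n)} {k : Fin n → Fin n} (h : Sharp p J δ C k)
    (hfar : ∀ i ∈ C, (i : ℕ) + 1 < n ∧ (k i : ℕ) + 1 < n) (hlt : ∀ i ∈ C, i < k i)
    (hodd : ∀ i ∈ C, Odd (degP p i (k i))) (hne : C.Nonempty) :
    ∃ σ : Fin n → ℤ, (∀ i, σ i = 1 ∨ σ i = -1) ∧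
      Tr σ [C] (fun ε => tw (pol (cut (dat (shift p J δ ε))))) 4 := by
  obtain ⟨N, G, e, hW, hpol⟩ := pol_eq _ _ (word_cut hp)
  have hX : ∀ i j, cutX (dat p).1 i j = true → Cr p i j := fun i j hij => ((cutX_iff p i j).1 hij).1
  obtain ⟨z, hz⟩ := exists_labK h (fun i hi =>
    (cutX_iff p i (k i)).2 ⟨h.cross i hi, (hfar i hi).1, (hfar i hi).2⟩) hW hne
  refine ⟨fun i => sg (dS p k i), fun i => ?_, ?_⟩
  · cases h0 : dS p k i
    · right
      simp only [h0]
      rfl
    · left
      simp only [h0]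
      rfl
  have hV : (fun ε => tw (pol (cut (dat (shift p J δ ε))))) =
      fun ε => (1 : ℤ) • (fun w => tw (fPoly G w)) (wS p J δ e ε) := by
    funext ε
    rw [one_smul, dat_shift]
    show tw (pol (cutX (dat p).1, (dat p).2.1, _)) = _
    rw [hpol]
    rfl
  rw [hV, show (4 : ℤ) = (1 : ℤ) • (4 : ℤ) from (one_smul _ _).symm]
  refine tr_of (dS p k) (fun i => (z i).1) (wS p J δ e) 4 [C] (fun w => tw (fPoly G w)) 1 ?_ ?_
  · intro C' hC' i hi ε b
    rw [List.mem_singleton] at hC'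
    subst hC'
    exact wS_updateK hδ h hX hW hz ε i hi b
  · intro l hl w'
    obtain ⟨i, l', hi, hl', rfl⟩ := List.forall₂_cons_right_iff.1 hl
    rw [List.forall₂_nil_right_iff] at hl'
    subst hl'
    show difs [] (dif (z i).1 (fun w => tw (fPoly G w))) w' = 4
    show tw (fPoly G (update w' (z i).1 true)) - tw (fPoly G (update w' (z i).1 false)) = 4
    apply dif_odd
    have h1 := deg_eq hW (hz.fst i hi) (hlt i hi)
    unfold deg
    rw [h1]
    exact hodd i hi

open Classical in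
/-- the number of the choices of the heights for which `tw` of the normalised bracket has a given value -/
theorem count_odd {p : Fin n → Pt} {J : Finset (Fin n)} {δ : ℝ} (hδ : 0 < δ)
    (hp : Gen p) {C : Finset (Fin n)} {k : Fin n → Fin n} (h : Sharp p J δ C k)
    (hfar : ∀ i ∈ C, (i : ℕ) + 1 < n ∧ (k i : ℕ) + 1 < n) (hlt : ∀ i ∈ C, i < k i)
    (hodd : ∀ i ∈ C, Odd (degP p i (k i))) {M : ℕ} (hM : 0 < M) (hMC : M ≤ C.card) (c : ℤ) :
    ((univ.filter fun ε : Fin n → Bool => tw (pol (cut (dat (shift p J δ ε)))) = c).card : ℝ) ≤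
      (4 / (M : ℝ)) ^ (1 / 2 : ℝ) * Fintype.card (Fin n → Bool) := by
  have hne : C.Nonempty := card_pos.1 (by omega)
  obtain ⟨σ, hσ, hT⟩ := tr_odd hδ hp h hfar hlt hodd hne
  have h4 := anti σ hσ M [C] (List.cons_ne_nil _ _) (List.pairwise_singleton _ _) (by
    intro C' hC'
    rw [List.mem_singleton] at hC'
    subst hC'
    exact hMC) _ 4 (fun k hk => by
      rw [smul_eq_mul] at hk
      omega) hT c
  have h5 := rootq 2 (by norm_num) hM (K := 4) (L := 2 ^ n) (by
    simpa using h4)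
  have e : (Fintype.card (Fin n → Bool) : ℝ) = ((2 ^ n : ℕ) : ℝ) := by
    simp
  rw [e]
  have e2 : (((4 : ℕ) : ℝ) / (M : ℝ)) ^ (1 / ((2 : ℕ) : ℝ)) = (4 / (M : ℝ)) ^ (1 / 2 : ℝ) := by
    norm_num
  rw [e2] at h5
  convert h5 using 3
  ext ε
  simp only [mem_filter]

end Pool.Agent.H756.RW
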