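import Pool.Agent.H756.RW.DefsW
import Pool.Agent.H756.RP.Geo

set_option autoImplicit false

/-!
# Switches have positive probability

`Law κ c₀ H` (see `RP/Geo.lean`) contains that `κ` is a probability measure and that vertical planes
are null sets (`wall`).  `hac`: the law of the point is absolutely continuous with respect to the volume of
`Pt = ℝ × ℝ × ℝ`.  All of `orient`, `tri`, `theta` depend only on the first two coordinates.

Paper proof.  Let `μ` be the image of `κ` in the plane `ℝ × ℝ` (first two coordinates); it is absolutely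
continuous.  Let `g` be its density and `E = {g > 0}`; `μ (Eᶜ) = 0`.  By Lebesgue's density theorem (Mathlib:
`IsUnifLocDoublingMeasure.ae_tendsto_measure_inter_div` or `Besicovitch.ae_tendsto_measure_inter_div`, closed
balls of the sup norm of `ℝ × ℝ` are squares) almost every point `a` of `E` has
`volume (E ∩ closedBall a r) / volume (closedBall a r) → 1` for `r → 0`.  For such `a` and small `r` every one
of the four squares with the centres `a + r (-1/2, -1/4)`, `a + r (1/2, -1/4)`, `a + r (0, 1/2)`,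
`a + r (0, -3/4)` and the radius `r / 100` (contained in `closedBall a r`, a fixed proportion of its area)
meets `E` in a set of positive volume, so it has positive `μ`-measure.  If `u`, `v`, `y`, `y'` are in the four
squares (in this order) then `a` is in the triangle `u y v` and not in the triangle `u y' v`, and a point `b` with
`‖b - a‖ > r` (sup norm) is in neither of them.  So `theta a b u y y' v = 1`.  Hence for `μ`-almost all `a` and all
`b` with `b ≠ a` (projections) the probability `Q (a, b)` of `theta = 1` is positive, and `b ≠ a` almost surely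
(`wall`).  As `{Q < q}` decreases to `{Q = 0}` for `q → 0`, the measure of `{Q < q}` tends to `0`.
-/

namespace Pool.Agent.H756.RW

open MeasureTheory
open scoped ENNReal
open Pool.Agent.H756.RP

/-! ### measurability -/

theorem measurable_orient {X : Type} [MeasurableSpace X] {f g h : X → Pt} (hf : Measurable f)
    (hg : Measurable g) (hh : Measurable h) : Measurable fun x => orient (f x) (g x) (h x) := by
  unfold orient
  have f1 := hf.fst
  have f2 := hf.snd.fst
  have g1 := hg.fst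
  have g2 := hg.snd.fst
  have h1 := hh.fst
  have h2 := hh.snd.fst
  exact ((g1.sub f1).mul (h2.sub f2)).sub ((g2.sub f2).mul (h1.sub f1))

theorem measurable_tri {X : Type} [MeasurableSpace X] {f g h k : X → Pt} (hf : Measurable f)
    (hg : Measurable g) (hh : Measurable h) (hk : Measurable k) :
    Measurable fun x => tri (f x) (g x) (h x) (k x) := by
  unfold tri
  refine Measurable.ite ?_ measurable_const measurable_const
  have m1 : MeasurableSet {x | 0 < orient (f x) (g x) (k x)} :=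
    measurableSet_lt measurable_const (measurable_orient hf hg hk)
  have m2 : MeasurableSet {x | 0 < orient (g x) (h x) (k x)} :=
    measurableSet_lt measurable_const (measurable_orient hg hh hk)
  have m3 : MeasurableSet {x | 0 < orient (h x) (f x) (k x)} :=
    measurableSet_lt measurable_const (measurable_orient hh hf hk)
  have e : {a | (0 < orient (f a) (g a) (k a) ↔ 0 < orient (g a) (h a) (k a)) ∧
      (0 < orient (g a) (h a) (k a) ↔ 0 < orient (h a) (f a) (k a))} =
      (({x | 0 < orient (f x) (g x) (k x)} ∩ {x | 0 < orient (g x) (h x) (k x)}) ∩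
        {x | 0 < orient (h x) (f x) (k x)}) ∪
      (({x | 0 < orient (f x) (g x) (k x)}ᶜ ∩ {x | 0 < orient (g x) (h x) (k x)}ᶜ) ∩
        {x | 0 < orient (h x) (f x) (k x)}ᶜ) := by
    ext x
    simp only [Set.mem_setOf_eq, Set.mem_union, Set.mem_inter_iff, Set.mem_compl_iff]
    tauto
  rw [e]
  exact ((m1.inter m2).inter m3).union ((m1.compl.inter m2.compl).inter m3.compl)

theorem measurable_theta :
    Measurable fun z : (Pt × Pt) × Pt × Pt × Pt × Pt =>
      theta z.1.1 z.1.2 z.2.1 z.2.2.1 z.2.2.2.1 z.2.2.2.2 := by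
  unfold theta
  have ha : Measurable fun z : (Pt × Pt) × Pt × Pt × Pt × Pt => z.1.1 := measurable_fst.fst
  have hb : Measurable fun z : (Pt × Pt) × Pt × Pt × Pt × Pt => z.1.2 := measurable_fst.snd
  have hu : Measurable fun z : (Pt × Pt) × Pt × Pt × Pt × Pt => z.2.1 := measurable_snd.fst
  have hy : Measurable fun z : (Pt × Pt) × Pt × Pt × Pt × Pt => z.2.2.1 := measurable_snd.snd.fst
  have hy' : Measurable fun z : (Pt × Pt) × Pt × Pt × Pt × Pt => z.2.2.2.1 :=
    measurable_snd.snd.snd.fst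
  have hv : Measurable fun z : (Pt × Pt) × Pt × Pt × Pt × Pt => z.2.2.2.2 :=
    measurable_snd.snd.snd.snd
  exact (((measurable_tri hu hy hv ha).add (measurable_tri hu hy' hv ha)).add
    (measurable_tri hu hy hv hb)).add (measurable_tri hu hy' hv hb)

/-- the probability that two vertices `y`, `y'` are a switch for the ends `a`, `b` of the chain -/
noncomputable def Q (κ : Measure (Pt × Bool)) (a b : Pt) : ℝ≥0∞ :=
  (κ.prod (κ.prod (κ.prod κ))) {z | theta a b z.1.1 z.2.1.1 z.2.2.1.1 z.2.2.2.1 = 1}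

/-! ### geometry -/

/-- the projection to the plane -/
def pr (a : Pt) : ℝ × ℝ := (a.1, a.2.1)

/-- a point with nonpositive orientations is in the box -/
theorem in_box {o₁ o₂ o₃ x y z t M : ℝ} (h₁ : o₁ ≤ 0) (h₂ : o₂ ≤ 0) (h₃ : o₃ ≤ 0)
    (hs : o₁ + o₂ + o₃ < 0) (ht : (o₁ + o₂ + o₃) * t = o₁ * x + o₂ * y + o₃ * z)
    (hx : |x| ≤ M) (hy : |y| ≤ M) (hz : |z| ≤ M) : |t| ≤ M := by
  rw [abs_le] at hx hy hz ⊢
  constructor
  · by_contra hc
    push Not at hc
    nlinarith [mul_nonneg (neg_nonneg.2 h₁) (sub_nonneg.2 hx.1),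
      mul_nonneg (neg_nonneg.2 h₂) (sub_nonneg.2 hy.1),
      mul_nonneg (neg_nonneg.2 h₃) (sub_nonneg.2 hz.1)]
  · by_contra hc
    push Not at hc
    nlinarith [mul_nonneg (neg_nonneg.2 h₁) (sub_nonneg.2 hx.2),
      mul_nonneg (neg_nonneg.2 h₂) (sub_nonneg.2 hy.2),
      mul_nonneg (neg_nonneg.2 h₃) (sub_nonneg.2 hz.2)]

/-- outside of the box a point is not in a triangle whose vertices are in the box -/
theorem tri_eq_zero {u y v b : Pt} {a₁ a₂ M : ℝ} (hD : orient u y v ≠ 0)
    (hu₁ : |u.1 - a₁| ≤ M) (hu₂ : |u.2.1 - a₂| ≤ M) (hy₁ : |y.1 - a₁| ≤ M)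
    (hy₂ : |y.2.1 - a₂| ≤ M) (hv₁ : |v.1 - a₁| ≤ M) (hv₂ : |v.2.1 - a₂| ≤ M)
    (hb : M < |b.1 - a₁| ∨ M < |b.2.1 - a₂|) : tri u y v b = 0 := by
  have hsum : orient u y b + orient y v b + orient v u b = orient u y v := by
    unfold orient; ring
  have e1 : (orient y v b + orient v u b + orient u y b) * (b.1 - a₁) =
      orient y v b * (u.1 - a₁) + orient v u b * (y.1 - a₁) + orient u y b * (v.1 - a₁) := by
    unfold orient; ring
  have e2 : (orient y v b + orient v u b + orient u y b) * (b.2.1 - a₂) =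
      orient y v b * (u.2.1 - a₂) + orient v u b * (y.2.1 - a₂) +
        orient u y b * (v.2.1 - a₂) := by
    unfold orient; ring
  unfold tri
  rw [if_neg]
  rintro ⟨h1, h2⟩
  by_cases hp : 0 < orient u y b
  · have hp2 := h1.1 hp
    have hp3 := h2.1 hp2
    rcases hb with hb | hb
    · refine absurd (in_box (o₁ := -orient y v b) (o₂ := -orient v u b) (o₃ := -orient u y b)
        (by linarith) (by linarith) (by linarith) (by linarith)
        (t := b.1 - a₁) (x := u.1 - a₁) (y := y.1 - a₁) (z := v.1 - a₁) (by linarith)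
        hu₁ hy₁ hv₁) (not_le.2 hb)
    · refine absurd (in_box (o₁ := -orient y v b) (o₂ := -orient v u b) (o₃ := -orient u y b)
        (by linarith) (by linarith) (by linarith) (by linarith)
        (t := b.2.1 - a₂) (x := u.2.1 - a₂) (y := y.2.1 - a₂) (z := v.2.1 - a₂) (by linarith)
        hu₂ hy₂ hv₂) (not_le.2 hb)
  · have hp2 : ¬ 0 < orient y v b := fun h => hp (h1.2 h)
    have hp3 : ¬ 0 < orient v u b := fun h => hp2 (h2.2 h)
    push Not at hp hp2 hp3
    have hlt : orient y v b + orient v u b + orient u y b < 0 := by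
      rcases lt_or_eq_of_le (by linarith : orient y v b + orient v u b + orient u y b ≤ 0)
        with h | h
      · exact h
      · exact absurd (by linarith : orient u y v = 0) hD
    rcases hb with hb | hb
    · exact absurd (in_box hp2 hp3 hp hlt e1 hu₁ hy₁ hv₁) (not_le.2 hb)
    · exact absurd (in_box hp2 hp3 hp hlt e2 hu₂ hy₂ hv₂) (not_le.2 hb)

theorem ub {x y X Y : ℝ} (hx0 : 0 ≤ x) (hx : x ≤ X) (hy0 : 0 ≤ y) (hy : y ≤ Y) :
    x * y ≤ X * Y := mul_le_mul hx hy hy0 (hx0.trans hx)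

theorem lb {x y X Y : ℝ} (hX : 0 ≤ X) (hx : X ≤ x) (hY : 0 ≤ Y) (hy : Y ≤ y) :
    X * Y ≤ x * y := mul_le_mul hx hy hY (hX.trans hx)

/-- the centres of the four squares -/
noncomputable def cen (a : ℝ × ℝ) (r : ℝ) (i : Fin 4) : ℝ × ℝ :=
  match i with
  | 0 => (a.1 - r / 2, a.2 - r / 4)
  | 1 => (a.1, a.2 + r / 2)
  | 2 => (a.1, a.2 - 3 * r / 4)
  | 3 => (a.1 + r / 2, a.2 - r / 4)

theorem mem_cb {p q : ℝ × ℝ} {s : ℝ} : p ∈ Metric.closedBall q s ↔
    |p.1 - q.1| ≤ s ∧ |p.2 - q.2| ≤ s := by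
  rw [Metric.mem_closedBall, Prod.dist_eq, max_le_iff, Real.dist_eq, Real.dist_eq]

theorem theta_eq_one {a b u y y' v : Pt} {r : ℝ} (hr : 0 < r)
    (hb : r < |b.1 - a.1| ∨ r < |b.2.1 - a.2.1|)
    (hu : pr u ∈ Metric.closedBall (cen (pr a) r 0) (r / 100))
    (hy : pr y ∈ Metric.closedBall (cen (pr a) r 1) (r / 100))
    (hy' : pr y' ∈ Metric.closedBall (cen (pr a) r 2) (r / 100))
    (hv : pr v ∈ Metric.closedBall (cen (pr a) r 3) (r / 100)) :
    theta a b u y y' v = 1 := by
  rw [mem_cb] at hu hy hy' hv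
  simp only [cen, pr, abs_le] at hu hy hy' hv
  obtain ⟨⟨u1, u2⟩, u3, u4⟩ := hu
  obtain ⟨⟨y1, y2⟩, y3, y4⟩ := hy
  obtain ⟨⟨z1, z2⟩, z3, z4⟩ := hy'
  obtain ⟨⟨v1, v2⟩, v3, v4⟩ := hv
  -- the coordinates relative to `a` divided by `r`
  obtain ⟨ux, hux⟩ : ∃ t, u.1 = a.1 + r * t := ⟨(u.1 - a.1) / r, by field_simp; ring⟩
  obtain ⟨uy, huy⟩ : ∃ t, u.2.1 = a.2.1 + r * t := ⟨(u.2.1 - a.2.1) / r, by field_simp; ring⟩
  obtain ⟨yx, hyx⟩ : ∃ t, y.1 = a.1 + r * t := ⟨(y.1 - a.1) / r, by field_simp; ring⟩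
  obtain ⟨yy, hyy⟩ : ∃ t, y.2.1 = a.2.1 + r * t := ⟨(y.2.1 - a.2.1) / r, by field_simp; ring⟩
  obtain ⟨zx, hzx⟩ : ∃ t, y'.1 = a.1 + r * t := ⟨(y'.1 - a.1) / r, by field_simp; ring⟩
  obtain ⟨zy, hzy⟩ : ∃ t, y'.2.1 = a.2.1 + r * t :=
    ⟨(y'.2.1 - a.2.1) / r, by field_simp; ring⟩
  obtain ⟨vx, hvx⟩ : ∃ t, v.1 = a.1 + r * t := ⟨(v.1 - a.1) / r, by field_simp; ring⟩
  obtain ⟨vy, hvy⟩ : ∃ t, v.2.1 = a.2.1 + r * t := ⟨(v.2.1 - a.2.1) / r, by field_simp; ring⟩
  rw [hux] at u1 u2
  rw [huy] at u3 u4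
  rw [hyx] at y1 y2
  rw [hyy] at y3 y4
  rw [hzx] at z1 z2
  rw [hzy] at z3 z4
  rw [hvx] at v1 v2
  rw [hvy] at v3 v4
  have c1 : -(1 / 100) ≤ ux + 1 / 2 := le_of_mul_le_mul_left (by linarith) hr
  have c2 : ux + 1 / 2 ≤ 1 / 100 := le_of_mul_le_mul_left (by linarith) hr
  have c3 : -(1 / 100) ≤ uy + 1 / 4 := le_of_mul_le_mul_left (by linarith) hr
  have c4 : uy + 1 / 4 ≤ 1 / 100 := le_of_mul_le_mul_left (by linarith) hr
  have d1 : -(1 / 100) ≤ yx := le_of_mul_le_mul_left (by linarith) hr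
  have d2 : yx ≤ 1 / 100 := le_of_mul_le_mul_left (by linarith) hr
  have d3 : -(1 / 100) ≤ yy - 1 / 2 := le_of_mul_le_mul_left (by linarith) hr
  have d4 : yy - 1 / 2 ≤ 1 / 100 := le_of_mul_le_mul_left (by linarith) hr
  have e1 : -(1 / 100) ≤ zx := le_of_mul_le_mul_left (by linarith) hr
  have e2 : zx ≤ 1 / 100 := le_of_mul_le_mul_left (by linarith) hr
  have e3 : -(1 / 100) ≤ zy + 3 / 4 := le_of_mul_le_mul_left (by linarith) hr
  have e4 : zy + 3 / 4 ≤ 1 / 100 := le_of_mul_le_mul_left (by linarith) hr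
  have f1 : -(1 / 100) ≤ vx - 1 / 2 := le_of_mul_le_mul_left (by linarith) hr
  have f2 : vx - 1 / 2 ≤ 1 / 100 := le_of_mul_le_mul_left (by linarith) hr
  have f3 : -(1 / 100) ≤ vy + 1 / 4 := le_of_mul_le_mul_left (by linarith) hr
  have f4 : vy + 1 / 4 ≤ 1 / 100 := le_of_mul_le_mul_left (by linarith) hr
  clear u1 u2 u3 u4 y1 y2 y3 y4 z1 z2 z3 z4 v1 v2 v3 v4
  have hr2 : 0 < r ^ 2 := by positivity
  -- orientations
  have o1 : orient u y a < 0 := by
    have : orient u y a = r ^ 2 * (-(yx - ux) * uy + (yy - uy) * ux) := by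
      unfold orient; rw [hux, huy, hyx, hyy]; ring
    rw [this]
    have A := ub (x := yx - ux) (y := -uy) (X := 52 / 100) (Y := 26 / 100) (by linarith)
      (by linarith) (by linarith) (by linarith)
    have B := lb (x := yy - uy) (y := -ux) (X := 73 / 100) (Y := 49 / 100) (by norm_num)
      (by linarith) (by norm_num) (by linarith)
    exact mul_neg_of_pos_of_neg hr2 (by linarith only [A, B])
  have o2 : orient y v a < 0 := by
    have : orient y v a = r ^ 2 * (-(vx - yx) * yy + (vy - yy) * yx) := by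
      unfold orient; rw [hvx, hvy, hyx, hyy]; ring
    rw [this]
    have A := lb (x := vx - yx) (y := yy) (X := 48 / 100) (Y := 49 / 100) (by norm_num)
      (by linarith) (by norm_num) (by linarith)
    have B := ub (x := yy - vy) (y := yx + 1 / 100) (X := 77 / 100) (Y := 2 / 100) (by linarith)
      (by linarith) (by linarith) (by linarith)
    have C := lb (x := yy - vy) (y := yx + 1 / 100) (X := 0) (Y := 0) le_rfl
      (by linarith) le_rfl (by linarith)
    exact mul_neg_of_pos_of_neg hr2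
      (by linarith only [A, B, C, c1, c2, c3, c4, d1, d2, d3, d4, f1, f2, f3, f4])
  have o3 : orient v u a < 0 := by
    have : orient v u a = r ^ 2 * (-(ux - vx) * vy + (uy - vy) * vx) := by
      unfold orient; rw [hvx, hvy, hux, huy]; ring
    rw [this]
    have A := lb (x := vx - ux) (y := -vy) (X := 98 / 100) (Y := 24 / 100) (by norm_num)
      (by linarith) (by norm_num) (by linarith)
    have B := ub (x := uy - vy + 2 / 100) (y := vx) (X := 4 / 100) (Y := 51 / 100) (by linarith)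
      (by linarith) (by linarith) (by linarith)
    have C := lb (x := uy - vy + 2 / 100) (y := vx) (X := 0) (Y := 0) le_rfl
      (by linarith) le_rfl (by linarith)
    exact mul_neg_of_pos_of_neg hr2
      (by linarith only [A, B, C, c1, c2, c3, c4, d1, d2, d3, d4, f1, f2, f3, f4])
  have o4 : 0 < orient u y' a := by
    have : orient u y' a = r ^ 2 * (-(zx - ux) * uy + (zy - uy) * ux) := by
      unfold orient; rw [hux, huy, hzx, hzy]; ring
    rw [this]
    have A := lb (x := zx - ux) (y := -uy) (X := 48 / 100) (Y := 24 / 100) (by norm_num)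
      (by linarith) (by norm_num) (by linarith)
    have B := lb (x := uy - zy) (y := -ux) (X := 48 / 100) (Y := 49 / 100) (by norm_num)
      (by linarith) (by norm_num) (by linarith)
    exact mul_pos hr2 (by linarith only [A, B])
  have o5 : 0 < orient y' v a := by
    have : orient y' v a = r ^ 2 * (-(vx - zx) * zy + (vy - zy) * zx) := by
      unfold orient; rw [hvx, hvy, hzx, hzy]; ring
    rw [this]
    have A := lb (x := vx - zx) (y := -zy) (X := 48 / 100) (Y := 74 / 100) (by norm_num)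
      (by linarith) (by norm_num) (by linarith)
    have B := ub (x := vy - zy) (y := 1 / 100 - zx) (X := 52 / 100) (Y := 2 / 100) (by linarith)
      (by linarith) (by linarith) (by linarith)
    have C := lb (x := vy - zy) (y := 1 / 100 - zx) (X := 0) (Y := 0) le_rfl
      (by linarith) le_rfl (by linarith)
    exact mul_pos hr2
      (by linarith only [A, B, C, c1, c2, c3, c4, e1, e2, e3, e4, f1, f2, f3, f4])
  have s1 : orient u y v ≠ 0 := by
    have : orient u y v = orient u y a + orient y v a + orient v u a := by unfold orient; ring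
    rw [this]
    linarith
  have s2 : orient u y' v ≠ 0 := by
    have : orient u y' v = r ^ 2 * ((zx - ux) * (vy - uy) - (zy - uy) * (vx - ux)) := by
      unfold orient; rw [hvx, hvy, hzx, hzy, hux, huy]; ring
    rw [this]
    have A := lb (x := uy - zy) (y := vx - ux) (X := 48 / 100) (Y := 98 / 100) (by norm_num)
      (by linarith) (by norm_num) (by linarith)
    have B := ub (x := zx - ux) (y := 2 / 100 - (vy - uy)) (X := 52 / 100) (Y := 4 / 100)
      (by linarith) (by linarith) (by linarith) (by linarith)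
    exact (mul_pos hr2
      (by linarith only [A, B, c1, c2, c3, c4, e1, e2, e3, e4, f1, f2, f3, f4])).ne'
  have t1 : tri u y v a = 1 := by
    unfold tri
    rw [if_pos]
    exact ⟨⟨fun h => absurd h (not_lt.2 o1.le), fun h => absurd h (not_lt.2 o2.le)⟩,
      ⟨fun h => absurd h (not_lt.2 o2.le), fun h => absurd h (not_lt.2 o3.le)⟩⟩
  have t2 : tri u y' v a = 0 := by
    unfold tri
    rw [if_neg]
    rintro ⟨_, h⟩
    exact absurd (h.1 o5) (not_lt.2 o3.le)
  have hM : ∀ t : ℝ, -1 ≤ t → t ≤ 1 → ∀ c : ℝ, |c + r * t - c| ≤ r := by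
    intro t h1 h2 c
    rw [add_sub_cancel_left, abs_mul, abs_of_pos hr]
    have : |t| ≤ 1 := abs_le.2 ⟨h1, h2⟩
    exact (mul_le_mul_of_nonneg_left this hr.le).trans (mul_one r).le
  have mux : |u.1 - a.1| ≤ r := by rw [hux]; exact hM _ (by linarith) (by linarith) _
  have muy : |u.2.1 - a.2.1| ≤ r := by rw [huy]; exact hM _ (by linarith) (by linarith) _
  have myx : |y.1 - a.1| ≤ r := by rw [hyx]; exact hM _ (by linarith) (by linarith) _
  have myy : |y.2.1 - a.2.1| ≤ r := by rw [hyy]; exact hM _ (by linarith) (by linarith) _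
  have mzx : |y'.1 - a.1| ≤ r := by rw [hzx]; exact hM _ (by linarith) (by linarith) _
  have mzy : |y'.2.1 - a.2.1| ≤ r := by rw [hzy]; exact hM _ (by linarith) (by linarith) _
  have mvx : |v.1 - a.1| ≤ r := by rw [hvx]; exact hM _ (by linarith) (by linarith) _
  have mvy : |v.2.1 - a.2.1| ≤ r := by rw [hvy]; exact hM _ (by linarith) (by linarith) _
  have t3 : tri u y v b = 0 := tri_eq_zero s1 mux muy myx myy mvx mvy hb
  have t4 : tri u y' v b = 0 := tri_eq_zero s2 mux muy mzx mzy mvx mvy hb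
  unfold theta
  rw [t1, t2, t3, t4]
  ring

/-! ### the planar law -/

theorem measurable_pr : Measurable pr := measurable_fst.prodMk measurable_snd.fst

/-- the projection of null sets -/
theorem qmp_pr : Measure.QuasiMeasurePreserving pr (volume : Measure Pt)
    (volume : Measure (ℝ × ℝ)) := by
  have h1 : MeasurePreserving (MeasurableEquiv.prodAssoc (α := ℝ) (β := ℝ) (γ := ℝ)).symm
      volume volume := volume_preserving_prodAssoc.symm _
  have h2 : Measure.QuasiMeasurePreserving (Prod.fst : (ℝ × ℝ) × ℝ → ℝ × ℝ) volume volume :=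
    Measure.quasiMeasurePreserving_fst
  exact h2.comp h1.quasiMeasurePreserving

/-- the law of the projection of a vertex -/
noncomputable def plan (κ : Measure (Pt × Bool)) : Measure (ℝ × ℝ) :=
  κ.map fun y => pr y.1

theorem plan_ac {κ : Measure (Pt × Bool)} (hac : κ.map Prod.fst ≪ volume) :
    plan κ ≪ volume := by
  have : plan κ = (κ.map Prod.fst).map pr := by
    unfold plan
    rw [Measure.map_map measurable_pr measurable_fst]
    rfl
  rw [this]
  exact (hac.map measurable_pr).trans qmp_pr.absolutelyContinuous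

/-- almost every point has squares of positive measure near it -/
theorem ae_good {μ : Measure (ℝ × ℝ)} [IsFiniteMeasure μ] (hμ : μ ≪ volume) :
    ∀ᵐ a ∂μ, ∀ i : Fin 4, ∀ᶠ r : ℝ in nhdsWithin 0 (Set.Ioi 0),
      0 < μ (Metric.closedBall (cen a r i) (r / 100)) := by
  set g := μ.rnDeriv volume with hg
  have hgm : Measurable g := Measure.measurable_rnDeriv _ _
  have hμg : (volume : Measure (ℝ × ℝ)).withDensity g = μ := Measure.withDensity_rnDeriv_eq _ _ hμ
  set E : Set (ℝ × ℝ) := {x | g x ≠ 0} with hE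
  have hEm : MeasurableSet E := (measurableSet_eq_fun hgm measurable_const).compl
  have hpos : ∀ A : Set (ℝ × ℝ), (volume : Measure (ℝ × ℝ)) (E ∩ A) ≠ 0 → 0 < μ A := by
    intro A hA
    rw [pos_iff_ne_zero]
    intro h0
    rw [← hμg, withDensity_apply_eq_zero hgm] at h0
    exact hA h0
  have hEc : μ Eᶜ = 0 := by
    rw [← hμg, withDensity_apply_eq_zero hgm]
    rw [show {x | g x ≠ 0} ∩ Eᶜ = (∅ : Set (ℝ × ℝ)) from Set.inter_compl_self E]
    exact measure_empty
  have hac' : μ ≪ (volume : Measure (ℝ × ℝ)).restrict E := by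
    intro A hA
    have h1 : (volume : Measure (ℝ × ℝ)) (A ∩ E) = 0 := by
      have := hA
      rwa [Measure.restrict_apply' hEm] at this
    have h2 : μ (A ∩ E) = 0 := hμ h1
    refine measure_mono_null (t := (A ∩ E) ∪ Eᶜ) ?_ (measure_union_null h2 hEc)
    intro x hx
    by_cases hxE : x ∈ E
    · exact Or.inl ⟨hx, hxE⟩
    · exact Or.inr hxE
  refine hac'.ae_le ?_
  filter_upwards [IsUnifLocDoublingMeasure.ae_tendsto_measure_inter_div
    (volume : Measure (ℝ × ℝ)) E 100] with a ha
  intro i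
  have hδ : Filter.Tendsto (fun r : ℝ => r / 100) (nhdsWithin 0 (Set.Ioi 0))
      (nhdsWithin 0 (Set.Ioi 0)) := by
    refine tendsto_nhdsWithin_iff.2 ⟨?_, ?_⟩
    · have : Filter.Tendsto (fun r : ℝ => r / 100) (nhds 0) (nhds (0 / 100)) :=
        Filter.tendsto_id.div_const 100
      rw [zero_div] at this
      exact this.mono_left nhdsWithin_le_nhds
    · filter_upwards [self_mem_nhdsWithin] with r hr
      have hr' : 0 < r := hr
      show 0 < r / 100
      linarith
  have hmem : ∀ᶠ r : ℝ in nhdsWithin 0 (Set.Ioi 0),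
      a ∈ Metric.closedBall (cen a r i) (100 * (r / 100)) := by
    filter_upwards [self_mem_nhdsWithin] with r hr
    have hr' : 0 < r := hr
    have e : 100 * (r / 100) = r := by ring
    rw [mem_cb, e]
    fin_cases i <;> simp only [cen] <;> constructor <;> rw [abs_le] <;> constructor <;> linarith
  have hlim := ha (fun r => cen a r i) (fun r => r / 100) hδ hmem
  have hev := hlim.eventually (lt_mem_nhds (show (0 : ℝ≥0∞) < 1 from one_pos))
  filter_upwards [hev] with r hr
  apply hpos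
  intro h0
  rw [h0, ENNReal.zero_div] at hr
  exact lt_irrefl _ hr

/-! ### the switch probability is positive -/

theorem Q_pos {κ : Measure (Pt × Bool)} [IsProbabilityMeasure κ] {a b : Pt}
    (hne : pr b ≠ pr a)
    (ha : ∀ i : Fin 4, ∀ᶠ r : ℝ in nhdsWithin 0 (Set.Ioi 0),
      0 < plan κ (Metric.closedBall (cen (pr a) r i) (r / 100))) : 0 < Q κ a b := by
  have hd : 0 < dist (pr b) (pr a) := dist_pos.2 hne
  have h1 : ∀ᶠ r : ℝ in nhdsWithin 0 (Set.Ioi 0), r < dist (pr b) (pr a) :=
    nhdsWithin_le_nhds (gt_mem_nhds hd)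
  have h2 : ∀ᶠ r : ℝ in nhdsWithin 0 (Set.Ioi 0), ∀ i : Fin 4,
      0 < plan κ (Metric.closedBall (cen (pr a) r i) (r / 100)) := Filter.eventually_all.2 ha
  obtain ⟨r, ⟨hr1, hr2⟩, hr0⟩ := ((h1.and h2).and self_mem_nhdsWithin).exists
  have hr : 0 < r := hr0
  have hb : r < |b.1 - a.1| ∨ r < |b.2.1 - a.2.1| := by
    rw [Prod.dist_eq, lt_max_iff, Real.dist_eq, Real.dist_eq] at hr1
    exact hr1
  set A : Fin 4 → Set (Pt × Bool) := fun i =>
    (fun y => pr y.1) ⁻¹' Metric.closedBall (cen (pr a) r i) (r / 100) with hA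
  have hm : Measurable fun y : Pt × Bool => pr y.1 := measurable_pr.comp measurable_fst
  have hAp : ∀ i, 0 < κ (A i) := by
    intro i
    have := hr2 i
    unfold plan at this
    rwa [Measure.map_apply hm Metric.isClosed_closedBall.measurableSet] at this
  have hsub : A 0 ×ˢ (A 1 ×ˢ (A 2 ×ˢ A 3)) ⊆
      {z : (Pt × Bool) × (Pt × Bool) × (Pt × Bool) × (Pt × Bool) |
        theta a b z.1.1 z.2.1.1 z.2.2.1.1 z.2.2.2.1 = 1} := by
    rintro ⟨u, y, y', v⟩ ⟨hu, hy, hy', hv⟩
    exact theta_eq_one hr hb hu hy hy' hv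
  refine lt_of_lt_of_le ?_ (measure_mono hsub)
  rw [Measure.prod_prod, Measure.prod_prod, Measure.prod_prod]
  exact ENNReal.mul_pos (hAp 0).ne' (ENNReal.mul_pos (hAp 1).ne'
    (ENNReal.mul_pos (hAp 2).ne' (hAp 3).ne').ne').ne'

attribute [local irreducible] theta in
theorem measurable_Q {κ : Measure (Pt × Bool)} [IsProbabilityMeasure κ] :
    Measurable fun ab : (Pt × Bool) × (Pt × Bool) => Q κ ab.1.1 ab.2.1 := by
  have hm : Measurable fun z : ((Pt × Bool) × (Pt × Bool)) ×
      ((Pt × Bool) × (Pt × Bool) × (Pt × Bool) × (Pt × Bool)) =>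
      theta z.1.1.1 z.1.2.1 z.2.1.1 z.2.2.1.1 z.2.2.2.1.1 z.2.2.2.2.1 := by
    have h1 : Measurable fun z : ((Pt × Bool) × (Pt × Bool)) ×
        ((Pt × Bool) × (Pt × Bool) × (Pt × Bool) × (Pt × Bool)) =>
        (((z.1.1.1, z.1.2.1), z.2.1.1, z.2.2.1.1, z.2.2.2.1.1, z.2.2.2.2.1) :
          (Pt × Pt) × Pt × Pt × Pt × Pt) :=
      ((measurable_fst.fst.fst).prodMk (measurable_fst.snd.fst)).prodMk
        ((measurable_snd.fst.fst).prodMk ((measurable_snd.snd.fst.fst).prodMk
          ((measurable_snd.snd.snd.fst.fst).prodMk (measurable_snd.snd.snd.snd.fst))))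
    have h2 := measurable_theta.comp h1
    simpa only [Function.comp_def] using h2
  have hs : MeasurableSet {z : ((Pt × Bool) × (Pt × Bool)) ×
      ((Pt × Bool) × (Pt × Bool) × (Pt × Bool) × (Pt × Bool)) |
      theta z.1.1.1 z.1.2.1 z.2.1.1 z.2.2.1.1 z.2.2.2.1.1 z.2.2.2.2.1 = 1} :=
    hm (measurableSet_singleton 1)
  exact measurable_measure_prodMk_left (ν := κ.prod (κ.prod (κ.prod κ))) hs

theorem ae_Q_pos {κ : Measure (Pt × Bool)} {c₀ H : ℝ} (hκ : Law κ c₀ H)
    (hac : κ.map Prod.fst ≪ volume) : ∀ᵐ ab ∂(κ.prod κ), 0 < Q κ ab.1.1 ab.2.1 := by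
  have := hκ.prob
  have hm : Measurable fun y : Pt × Bool => pr y.1 := measurable_pr.comp measurable_fst
  have hfin : IsFiniteMeasure (plan κ) := by unfold plan; infer_instance
  have h1 : ∀ᵐ y ∂κ, ∀ i : Fin 4, ∀ᶠ r : ℝ in nhdsWithin 0 (Set.Ioi 0),
      0 < plan κ (Metric.closedBall (cen (pr y.1) r i) (r / 100)) :=
    ae_of_ae_map hm.aemeasurable (ae_good (plan_ac hac))
  have h2 : ∀ᵐ ab ∂(κ.prod κ), ∀ i : Fin 4, ∀ᶠ r : ℝ in nhdsWithin 0 (Set.Ioi 0),
      0 < plan κ (Metric.closedBall (cen (pr ab.1.1) r i) (r / 100)) :=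
    Measure.quasiMeasurePreserving_fst.ae h1
  have h3 : ∀ᵐ ab ∂(κ.prod κ), pr ab.2.1 ≠ pr ab.1.1 := by
    have hs : MeasurableSet {ab : (Pt × Bool) × (Pt × Bool) | ab.2.1.1 = ab.1.1.1} :=
      measurableSet_eq_fun measurable_snd.fst.fst measurable_fst.fst.fst
    have h0 : (κ.prod κ) {ab : (Pt × Bool) × (Pt × Bool) | ab.2.1.1 = ab.1.1.1} = 0 := by
      rw [Measure.measure_prod_null hs]
      refine Filter.Eventually.of_forall fun a => ?_
      have := hκ.wall 1 0 a.1.1 (by simp)
      simp only [one_mul, zero_mul, add_zero] at this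
      exact this
    have h4 : ∀ᵐ ab ∂(κ.prod κ), ab.2.1.1 ≠ ab.1.1.1 := by
      rw [ae_iff]
      simpa using h0
    filter_upwards [h4] with ab hab h
    exact hab (congrArg (fun p : ℝ × ℝ => p.1) h)
  filter_upwards [h2, h3] with ab hab1 hab2
  exact Q_pos hab2 hab1

theorem switch {κ : Measure (Pt × Bool)} {c₀ H : ℝ} (hκ : Law κ c₀ H)
    (hac : κ.map Prod.fst ≪ volume) (ε : ℝ) (hε : 0 < ε) :
    ∃ q : ℝ, 0 < q ∧
      (κ.prod κ) {ab | Q κ ab.1.1 ab.2.1 < ENNReal.ofReal q} ≤ ENNReal.ofReal ε := by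
  have := hκ.prob
  set s : ℕ → Set ((Pt × Bool) × (Pt × Bool)) := fun n =>
    {ab | Q κ ab.1.1 ab.2.1 < ENNReal.ofReal (1 / ((n : ℝ) + 1))} with hs
  have hsm : ∀ n, MeasurableSet (s n) := fun n => measurableSet_lt measurable_Q measurable_const
  have hanti : Antitone s := by
    intro m n hmn x hx
    refine lt_of_lt_of_le hx (ENNReal.ofReal_le_ofReal ?_)
    apply one_div_le_one_div_of_le
    · positivity
    · have : (m : ℝ) ≤ n := by exact_mod_cast hmn
      linarith
  have hInt : (κ.prod κ) (⋂ n, s n) = 0 := by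
    have h1 := ae_Q_pos hκ hac
    rw [ae_iff] at h1
    refine measure_mono_null ?_ h1
    intro x hx
    show ¬ 0 < Q κ x.1.1 x.2.1
    intro hpos
    have h2 : ∀ n : ℕ, Q κ x.1.1 x.2.1 < ENNReal.ofReal (1 / ((n : ℝ) + 1)) := fun n =>
      Set.mem_iInter.1 hx n
    have h3 : Filter.Tendsto (fun n : ℕ => ENNReal.ofReal (1 / ((n : ℝ) + 1))) Filter.atTop
        (nhds 0) := by
      have := (ENNReal.continuous_ofReal.tendsto 0).comp
        (tendsto_one_div_add_atTop_nhds_zero_nat (𝕜 := ℝ))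
      rw [ENNReal.ofReal_zero] at this
      exact this
    obtain ⟨n, hn⟩ := (h3.eventually (gt_mem_nhds hpos)).exists
    exact lt_asymm hn (h2 n)
  have hlim := tendsto_measure_iInter_atTop (μ := κ.prod κ) (s := s)
    (fun n => (hsm n).nullMeasurableSet) hanti ⟨0, measure_ne_top _ _⟩
  rw [hInt] at hlim
  obtain ⟨n, hn⟩ := (hlim.eventually (gt_mem_nhds (ENNReal.ofReal_pos.2 hε))).exists
  exact ⟨1 / ((n : ℝ) + 1), by positivity, hn.le⟩

end Pool.Agent.H756.RW
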